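import Pool.Agent.Lib.c113aaE.Defs

section

set_option autoImplicit false

namespace Pool.Agent.Lib.c113aaE

open Finset Polynomial Pool.MP_c113aa_an.BV

theorem SgA_mean_nonneg {N : ℕ} (p : ℝ) (Z : Fin (N + 1) → ℂ) (c : ℂ) :
    0 ≤ (1 / ((N + 1 : ℕ) : ℝ)) * ∑ k, ‖Z k - c‖ ^ p :=
  mul_nonneg (by positivity) (Finset.sum_nonneg fun k _ => Real.rpow_nonneg (norm_nonneg _) _)

theorem SgA_V_nonneg {N : ℕ} (p : ℝ) (Z : Fin (N + 1) → ℂ) (c : ℂ) :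
    0 ≤ ((1 / ((N + 1 : ℕ) : ℝ)) * ∑ k, ‖Z k - c‖ ^ p) ^ (1 / p) :=
  Real.rpow_nonneg (SgA_mean_nonneg p Z c) _

/-- From a bound of the sum to a bound of the power mean. -/
theorem SgA_V_le {N : ℕ} {p : ℝ} (hp : 1 ≤ p) (Z : Fin (N + 1) → ℂ) (c : ℂ) {V : ℝ} (hV : 0 ≤ V)
    (h : ∑ k, ‖Z k - c‖ ^ p ≤ ((N : ℝ) + 1) * V ^ p) :
    ((1 / ((N + 1 : ℕ) : ℝ)) * ∑ k, ‖Z k - c‖ ^ p) ^ (1 / p) ≤ V := by
  have hp0 : 0 < p := by linarith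
  have hN : (0 : ℝ) < (N : ℝ) + 1 := by positivity
  have h1 : (1 / ((N + 1 : ℕ) : ℝ)) * ∑ k, ‖Z k - c‖ ^ p ≤ V ^ p := by
    push_cast
    rw [one_div, inv_mul_le_iff₀ hN]
    exact h
  calc ((1 / ((N + 1 : ℕ) : ℝ)) * ∑ k, ‖Z k - c‖ ^ p) ^ (1 / p) ≤ (V ^ p) ^ (1 / p) :=
        Real.rpow_le_rpow (SgA_mean_nonneg p Z c) h1 (by positivity)
    _ = V := by rw [← Real.rpow_mul hV, mul_one_div_cancel hp0.ne', Real.rpow_one]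

theorem sg_nonneg {N : ℕ} {p : ℝ} (Z : Fin (N + 1) → ℂ) : 0 ≤ sg p Z :=
  Real.iInf_nonneg fun c => SgA_V_nonneg p Z c

/-- `ciInf_le` with the lower bound `0`. -/
theorem sg_le {N : ℕ} (p : ℝ) (Z : Fin (N + 1) → ℂ) (c : ℂ) :
    sg p Z ≤ ((1 / ((N + 1 : ℕ) : ℝ)) * ∑ k, ‖Z k - c‖ ^ p) ^ (1 / p) := by
  refine ciInf_le (f := fun c : ℂ =>
    ((1 / ((N + 1 : ℕ) : ℝ)) * ∑ k, ‖Z k - c‖ ^ p) ^ (1 / p)) ⟨0, ?_⟩ c
  rintro _ ⟨d, rfl⟩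
  exact SgA_V_nonneg p Z d

/-- Power means are monotone in the exponent; `le_ciInf` and `power_mean` (or
`Real.rpow_arith_mean_le_arith_mean_rpow`), compare `c113aaT.concl_ineq`. -/
theorem sg_mono {N : ℕ} {p q : ℝ} (hp : 1 ≤ p) (hpq : p ≤ q) (Z : Fin (N + 1) → ℂ) :
    sg p Z ≤ sg q Z := by
  refine le_ciInf fun c => (sg_le p Z c).trans ?_
  have hq : 1 ≤ q := hp.trans hpq
  refine SgA_V_le hp Z c (SgA_V_nonneg q Z c) ?_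
  refine power_mean (fun k => ‖Z k - c‖) (fun k => norm_nonneg _) (p := p) (q := q)
    (by linarith) hpq (SgA_V_nonneg q Z c) ?_
  rw [← Real.rpow_mul (SgA_mean_nonneg q Z c), one_div_mul_cancel (by linarith), Real.rpow_one]
  push_cast
  apply le_of_eq
  field_simp

theorem SgA_le_sup {N : ℕ} (Z : Fin (N + 1) → ℂ) (c : ℂ) (k : Fin (N + 1)) :
    ‖Z k - c‖ ≤ ⨆ k, ‖Z k - c‖ :=
  le_ciSup (f := fun k => ‖Z k - c‖) (Set.finite_range _).bddAbove k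

/-- Each power mean is at most the maximum. -/
theorem sg_le_sI {N : ℕ} {p : ℝ} (hp : 1 ≤ p) (Z : Fin (N + 1) → ℂ) : sg p Z ≤ sI Z := by
  refine le_ciInf fun c => (sg_le p Z c).trans ?_
  have h0 : 0 ≤ ⨆ k, ‖Z k - c‖ := (norm_nonneg _).trans (SgA_le_sup Z c 0)
  refine SgA_V_le hp Z c h0 ?_
  have h1 : ∑ k : Fin (N + 1), ‖Z k - c‖ ^ p ≤ ∑ _k : Fin (N + 1), (⨆ k, ‖Z k - c‖) ^ p :=
    Finset.sum_le_sum fun k _ => Real.rpow_le_rpow (norm_nonneg _) (SgA_le_sup Z c k) (by linarith)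
  refine h1.trans (le_of_eq ?_)
  rw [Finset.sum_const, Finset.card_univ, Fintype.card_fin, nsmul_eq_mul]
  push_cast
  ring

/-- `(x_k^p / (N + 1))^(1/p) ≤ ((1/(N+1)) ∑ x_i^p)^(1/p)` for every `k`. -/
theorem sI_le_sg {N : ℕ} {p : ℝ} (hp : 1 ≤ p) (Z : Fin (N + 1) → ℂ) :
    (1 / ((N + 1 : ℕ) : ℝ)) ^ (1 / p) * sI Z ≤ sg p Z := by
  have hp0 : 0 < p := by linarith
  have ha : 0 < (1 / ((N + 1 : ℕ) : ℝ)) ^ (1 / p) := Real.rpow_pos_of_pos (by positivity) _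
  refine le_ciInf fun c => ?_
  have h1 : sI Z ≤ ⨆ k, ‖Z k - c‖ := by
    refine ciInf_le (f := fun c : ℂ => ⨆ k, ‖Z k - c‖) ⟨0, ?_⟩ c
    rintro _ ⟨d, rfl⟩
    exact (norm_nonneg _).trans (SgA_le_sup Z d 0)
  have h2 : (⨆ k, ‖Z k - c‖) ≤ ((1 / ((N + 1 : ℕ) : ℝ)) * ∑ k, ‖Z k - c‖ ^ p) ^ (1 / p) /
      (1 / ((N + 1 : ℕ) : ℝ)) ^ (1 / p) := by
    refine ciSup_le fun k => ?_
    rw [le_div_iff₀ ha]
    have e1 : ‖Z k - c‖ * (1 / ((N + 1 : ℕ) : ℝ)) ^ (1 / p) =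
        ((1 / ((N + 1 : ℕ) : ℝ)) * ‖Z k - c‖ ^ p) ^ (1 / p) := by
      rw [Real.mul_rpow (by positivity) (Real.rpow_nonneg (norm_nonneg _) _),
        ← Real.rpow_mul (norm_nonneg _), mul_one_div_cancel hp0.ne', Real.rpow_one, mul_comm]
    rw [e1]
    refine Real.rpow_le_rpow (mul_nonneg (by positivity) (Real.rpow_nonneg (norm_nonneg _) _)) ?_
      (by positivity)
    refine mul_le_mul_of_nonneg_left ?_ (by positivity)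
    exact Finset.single_le_sum (f := fun k => ‖Z k - c‖ ^ p)
      (fun k _ => Real.rpow_nonneg (norm_nonneg _) _) (Finset.mem_univ k)
  have h3 := h1.trans h2
  rw [le_div_iff₀ ha] at h3
  rw [mul_comm]
  exact h3

/-- From the sums of distances to the inequality for all exponents: `c113aaT.concl_ineq` with
`H = hZ Z`. -/
theorem le_sg_of_sum {N : ℕ} {p : ℝ} (hp : 1 ≤ p) (Z : Fin (N + 1) → ℂ)
    (h : ∀ m : ℂ, ((N : ℝ) + 1) * hZ Z ≤ ∑ k, ‖Z k - m‖) : hZ Z ≤ sg p Z :=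
  c113aaT.concl_ineq hp fun _ => h

end Pool.Agent.Lib.c113aaE
end
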