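import Pool.Agent.Lib.c113aaE.Spec
import Pool.Agent.Lib.c113aaE.SgA

section

set_option autoImplicit false

namespace Pool.Agent.Lib.c113aaE

open Finset Polynomial Pool.MP_c113aa_an.BV

/-- Translations and dilations: `CritOf.affine`, `hZ_spec`, `hZ_unique` (choose `w` with
`exists_crit`). -/
theorem hZ_affine {N : ℕ} (hN : 1 ≤ N) (Z : Fin (N + 1) → ℂ) {l : ℂ} (hl : l ≠ 0) (g : ℂ) :
    hZ (fun k => l * Z k + g) = ‖l‖ * hZ Z := by
  obtain ⟨w, hw⟩ := exists_crit Z
  have h1 := hw.affine (-(g / l)) l⁻¹ (inv_ne_zero hl)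
  have h2 : (fun k => (Z k - -(g / l)) / l⁻¹) = fun k => l * Z k + g := by
    funext k
    field_simp
    ring
  have h3 : (fun j => (w j - -(g / l)) / l⁻¹) = fun j => l * w j + g := by
    funext j
    field_simp
    ring
  rw [h2, h3] at h1
  have h4 : ∀ k j, ‖(l * Z k + g) - (l * w j + g)‖ = ‖l‖ * ‖Z k - w j‖ := by
    intro k j
    rw [← norm_mul]
    congr 1
    ring
  obtain ⟨⟨k, hk⟩, hj⟩ := hZ_spec hN hw
  refine hZ_unique hN h1 ⟨k, fun j => ?_⟩ fun k' => ?_
  · rw [h4]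
    exact mul_le_mul_of_nonneg_left (hk j) (norm_nonneg _)
  · obtain ⟨j, hj'⟩ := hj k'
    refine ⟨j, ?_⟩
    rw [h4]
    exact mul_le_mul_of_nonneg_left hj' (norm_nonneg _)

/-- The map `c ↦ l c + g` is a bijection of the plane. -/
theorem sg_affine {N : ℕ} {p : ℝ} (hp : 1 ≤ p) (Z : Fin (N + 1) → ℂ) {l : ℂ} (hl : l ≠ 0) (g : ℂ) :
    sg p (fun k => l * Z k + g) = ‖l‖ * sg p Z := by
  have hp0 : p ≠ 0 := by linarith
  have hsurj : Function.Surjective (fun c : ℂ => l * c + g) := by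
    intro c
    refine ⟨(c - g) / l, ?_⟩
    show l * ((c - g) / l) + g = c
    field_simp
    ring
  unfold sg
  rw [← hsurj.iInf_comp, Real.mul_iInf_of_nonneg (norm_nonneg l)]
  congr 1
  funext c
  have h1 : ∀ k, ‖(l * Z k + g) - (l * c + g)‖ ^ p = ‖l‖ ^ p * ‖Z k - c‖ ^ p := by
    intro k
    rw [← Real.mul_rpow (norm_nonneg _) (norm_nonneg _), ← norm_mul]
    congr 2
    ring
  simp only [h1]
  rw [← Finset.mul_sum, mul_left_comm, Real.mul_rpow (by positivity) (by positivity),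
    ← Real.rpow_mul (norm_nonneg l), mul_one_div_cancel hp0, Real.rpow_one]

theorem hZ_const {N : ℕ} (hN : 1 ≤ N) (c : ℂ) : hZ (fun _ : Fin (N + 1) => c) = 0 := by
  have h1 : CritOf (fun _ : Fin (N + 1) => c) (fun _ : Fin N => c) := by
    intro x
    have h2 : (fun y : ℂ => ∏ _k : Fin (N + 1), (y - c)) = fun y : ℂ => (y - c) ^ (N + 1) := by
      funext y
      simp
    rw [h2]
    have h3 := ((hasDerivAt_id x).sub_const c).pow (N + 1)
    simp only [id, Nat.add_sub_cancel, mul_one, Nat.cast_add, Nat.cast_one] at h3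
    simp only [Finset.prod_const, Finset.card_univ, Fintype.card_fin]
    exact h3
  refine hZ_unique hN h1 ⟨0, fun j => norm_nonneg _⟩ fun k => ⟨⟨0, hN⟩, ?_⟩
  simp

end Pool.Agent.Lib.c113aaE
end
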