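import Pool.Agent.Lib.c113aaE.Spec
import Pool.Agent.Lib.c113aaE.SgA

section

set_option autoImplicit false

namespace Pool.Agent.Lib.c113aaE

open Finset Polynomial Pool.MP_c113aa_an.BV

private theorem circle_logDeriv {ι : Type*} [DecidableEq ι] (s : Finset ι) (f : ι → ℂ) (a : ℂ)
    (hf : ∀ i ∈ s, a ≠ f i) :
    (derivative (∏ i ∈ s, (X - C (f i)) : ℂ[X])).eval a =
      (∏ i ∈ s, (a - f i)) * ∑ i ∈ s, 1 / (a - f i) := by
  induction s using Finset.induction_on with
  | empty => simp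
  | insert j t hj ih =>
    have h1 := ih (fun i hi => hf i (Finset.mem_insert_of_mem hi))
    have h2 : a - f j ≠ 0 := sub_ne_zero.2 (hf j (Finset.mem_insert_self j t))
    rw [Finset.prod_insert hj, Finset.prod_insert hj, Finset.sum_insert hj, derivative_mul,
      derivative_X_sub_C, one_mul, eval_add, eval_mul, h1, eval_sub, eval_X, eval_C, eval_prod]
    have h3 : (∏ i ∈ t, eval a (X - C (f i) : ℂ[X])) = ∏ i ∈ t, (a - f i) := by
      apply Finset.prod_congr rfl
      intro i _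
      rw [eval_sub, eval_X, eval_C]
    rw [h3]
    field_simp

private theorem circle_re_half {u v : ℂ} (h : ‖u‖ = ‖v‖) (hne : u ≠ v) :
    (u / (u - v)).re = 1 / 2 := by
  have h1 : Complex.normSq (u - v) ≠ 0 := by
    rw [Ne, Complex.normSq_eq_zero, sub_eq_zero]
    exact hne
  have h2 : Complex.normSq u = Complex.normSq v := by
    rw [Complex.normSq_eq_norm_sq, Complex.normSq_eq_norm_sq, h]
  rw [Complex.div_re, ← add_div, div_eq_iff h1]
  rw [Complex.normSq_apply, Complex.normSq_apply] at h2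
  rw [Complex.normSq_apply]
  simp only [Complex.sub_re, Complex.sub_im]
  linarith

private theorem circle_sum {N : ℕ} {Z : Fin (N + 1) → ℂ} {w : Fin N → ℂ} (h : CritOf Z w)
    (k₀ : Fin (N + 1)) (hs : ∀ k, k ≠ k₀ → Z k ≠ Z k₀) (hw : ∀ j, Z k₀ ≠ w j) :
    ∑ j, 1 / (Z k₀ - w j) = 2 * ∑ k ∈ univ.erase k₀, 1 / (Z k₀ - Z k) := by
  have hcrit := (critOf_iff Z w).1 h
  rw [c113aaT.prod_split Z k₀] at hcrit
  have hQ0 : ∏ k ∈ univ.erase k₀, (Z k₀ - Z k) ≠ 0 := by
    rw [Finset.prod_ne_zero_iff]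
    intro k hk
    exact sub_ne_zero.2 (hs k (Finset.ne_of_mem_erase hk)).symm
  have e1 : ∏ k ∈ univ.erase k₀, (Z k₀ - Z k) = ((N : ℂ) + 1) * ∏ j, (Z k₀ - w j) := by
    have := congrArg (fun p : ℂ[X] => p.eval (Z k₀)) hcrit
    simp only [derivative_mul, derivative_X_sub_C, one_mul, eval_add, eval_mul, eval_sub, eval_X,
      eval_C, sub_self, zero_mul, add_zero, eval_prod] at this
    exact this
  have e2 : 2 * (derivative (∏ k ∈ univ.erase k₀, (X - C (Z k)) : ℂ[X])).eval (Z k₀) =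
      ((N : ℂ) + 1) * (derivative (∏ j, (X - C (w j)) : ℂ[X])).eval (Z k₀) := by
    have := congrArg (fun p : ℂ[X] => (derivative p).eval (Z k₀)) hcrit
    simp only [derivative_mul, derivative_add, derivative_X_sub_C, derivative_C, one_mul, eval_add,
      eval_mul, eval_sub, eval_X, eval_C, sub_self, zero_mul, add_zero, zero_add]
      at this
    linear_combination this
  rw [circle_logDeriv _ _ _ (fun k hk => (hs k (Finset.ne_of_mem_erase hk)).symm),
    circle_logDeriv _ _ _ (fun j _ => hw j), ← mul_assoc ((N : ℂ) + 1), ← e1] at e2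
  have e3 : (∏ k ∈ univ.erase k₀, (Z k₀ - Z k)) * (2 * ∑ k ∈ univ.erase k₀, 1 / (Z k₀ - Z k)) =
      (∏ k ∈ univ.erase k₀, (Z k₀ - Z k)) * ∑ j, 1 / (Z k₀ - w j) := by
    rw [← e2]
    ring
  exact (mul_left_cancel₀ hQ0 e3).symm

/-- If all zeros are on the circle `|z - m| = D` and all critical points have distance at least `D`
from `Z k₀`, then all critical points are equal to `m`.  Proof: put `a = Z k₀`; the other zeros are
different from `a` (`c113aaT.simple_zero`).  From `critOf_iff` and `c113aaT.prod_split`: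
`∑_j 1/(a - w_j) = 2 ∑_{k ≠ k₀} 1/(a - Z k)` (write `F = (X - a) Q`, so `F' = Q + (X - a) Q'`,
`F'(a) = Q(a) ≠ 0`, `F''(a) = 2 Q'(a)`, and the logarithmic derivatives of `F'` and of `Q` at `a`).
Multiply by `a - m`: `re ((a - m)/(a - z)) = 1/2` for `|z - m| = |a - m|`, `z ≠ a`, so the real part
of the right side is `N`; each term on the left has norm at most `1`, so each is equal to `1`. -/
theorem circle {N : ℕ} {Z : Fin (N + 1) → ℂ} {w : Fin N → ℂ} (h : CritOf Z w) {m : ℂ} {D : ℝ}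
    (hD : 0 < D) (hm : ∀ k, ‖Z k - m‖ = D) (k₀ : Fin (N + 1)) (hw : ∀ j, D ≤ ‖Z k₀ - w j‖) :
    ∀ j, w j = m := by
  have hs := c113aaT.simple_zero h k₀ hD hw
  have hw0 : ∀ j, Z k₀ - w j ≠ 0 := by
    intro j h0
    have := hw j
    rw [h0, norm_zero] at this
    linarith
  have hsum := circle_sum h k₀ hs (fun j => sub_ne_zero.1 (hw0 j))
  -- each term
  have hle : ∀ j, ‖(Z k₀ - m) / (Z k₀ - w j)‖ ≤ 1 := by
    intro j
    rw [norm_div, hm k₀]
    exact (div_le_one (norm_pos_iff.2 (hw0 j))).2 (hw j)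
  have hle' : ∀ j ∈ (univ : Finset (Fin N)), ((Z k₀ - m) / (Z k₀ - w j)).re ≤ 1 :=
    fun j _ => (Complex.re_le_norm _).trans (hle j)
  have hre : ∑ j, ((Z k₀ - m) / (Z k₀ - w j)).re = ∑ _j : Fin N, (1 : ℝ) := by
    have h1 : ∑ j, (Z k₀ - m) / (Z k₀ - w j) =
        2 * ∑ k ∈ univ.erase k₀, (Z k₀ - m) / (Z k₀ - Z k) := by
      have e1 : ∑ j, (Z k₀ - m) / (Z k₀ - w j) = (Z k₀ - m) * ∑ j, 1 / (Z k₀ - w j) := by
        rw [Finset.mul_sum]
        apply Finset.sum_congr rfl
        intro j _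
        rw [mul_one_div]
      have e2 : ∑ k ∈ univ.erase k₀, (Z k₀ - m) / (Z k₀ - Z k) =
          (Z k₀ - m) * ∑ k ∈ univ.erase k₀, 1 / (Z k₀ - Z k) := by
        rw [Finset.mul_sum]
        apply Finset.sum_congr rfl
        intro k _
        rw [mul_one_div]
      rw [e1, e2, hsum]
      ring
    have h2 := congrArg Complex.re h1
    rw [Complex.re_sum, show (2 : ℂ) = ((2 : ℝ) : ℂ) by norm_num, Complex.re_ofReal_mul,
      Complex.re_sum] at h2
    rw [h2]
    have h3 : ∀ k ∈ univ.erase k₀, ((Z k₀ - m) / (Z k₀ - Z k)).re = 1 / 2 := by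
      intro k hk
      have h4 : Z k₀ - Z k = (Z k₀ - m) - (Z k - m) := by ring
      rw [h4]
      apply circle_re_half
      · rw [hm k₀, hm k]
      · intro h5
        exact hs k (Finset.ne_of_mem_erase hk) (sub_left_injective h5).symm
    rw [Finset.sum_congr rfl h3, Finset.sum_const, Finset.sum_const,
      Finset.card_erase_of_mem (mem_univ _), Finset.card_univ, Fintype.card_fin, Finset.card_univ,
      Fintype.card_fin, Nat.add_sub_cancel, nsmul_eq_mul, nsmul_eq_mul]
    ring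
  intro j
  have h1 : ((Z k₀ - m) / (Z k₀ - w j)).re = 1 :=
    (Finset.sum_eq_sum_iff_of_le hle').1 hre j (mem_univ j)
  have h2 : (Z k₀ - m) / (Z k₀ - w j) = 1 := by
    have h3 : Complex.normSq ((Z k₀ - m) / (Z k₀ - w j)) ≤ 1 := by
      rw [Complex.normSq_eq_norm_sq]
      nlinarith [hle j, norm_nonneg ((Z k₀ - m) / (Z k₀ - w j))]
    rw [Complex.normSq_apply, h1] at h3
    have h4 : ((Z k₀ - m) / (Z k₀ - w j)).im = 0 := by
      have : ((Z k₀ - m) / (Z k₀ - w j)).im * ((Z k₀ - m) / (Z k₀ - w j)).im ≤ 0 := by linarith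
      exact mul_self_eq_zero.1 (le_antisymm this (mul_self_nonneg _))
    apply Complex.ext
    · rw [h1, Complex.one_re]
    · rw [h4, Complex.one_im]
  rw [div_eq_one_iff_eq (hw0 j)] at h2
  exact (sub_right_injective h2).symm

end Pool.Agent.Lib.c113aaE
end
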