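import Pool.Agent.Lib.c113aaE.Defs

section

set_option autoImplicit false

namespace Pool.Agent.Lib.c113aaE

open Finset Polynomial Pool.MP_c113aa_an.BV

/-- Every vector has critical points.  Proof: `exists_fin_roots (pz Z)` gives a vector `Z'` with the
same roots, so `∏ (X - C (Z k)) = ∏ (X - C (Z' k))` (compare; `a = 1`), and `critOf_iff`. -/
theorem exists_crit {N : ℕ} (Z : Fin (N + 1) → ℂ) : ∃ w : Fin N → ℂ, CritOf Z w := by
  have hdeg : (pz Z).natDegree = N + 1 := by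
    unfold pz
    rw [natDegree_prod_of_monic _ _ fun k _ => monic_X_sub_C (Z k)]
    simp
  obtain ⟨a, Z', w, ha, hF, -, -, hw⟩ := exists_fin_roots (pz Z) hdeg
  have hm : (pz Z).Monic := monic_prod_of_monic _ _ fun k _ => monic_X_sub_C (Z k)
  have hm' : (∏ k, (X - C (Z' k)) : ℂ[X]).Monic :=
    monic_prod_of_monic _ _ fun k _ => monic_X_sub_C (Z' k)
  have ha1 : a = 1 := by
    have h1 := congrArg leadingCoeff hF
    rw [leadingCoeff_mul, leadingCoeff_C, hm.leadingCoeff, hm'.leadingCoeff, mul_one] at h1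
    exact h1.symm
  rw [ha1, C_1, one_mul] at hF
  refine ⟨w, (critOf_iff Z w).mpr ?_⟩
  have h2 := (critOf_iff Z' w).mp hw
  rw [← hF] at h2
  exact h2

/-- Proof: `hausdorff_eq (pz Z) hN Z w` with `(pz Z).roots = map Z univ.val`
(`roots_multiset_prod_X_sub_C` or `roots_prod_X_sub_C`) and
`(derivative (pz Z)).roots = map w univ.val` from `critOf_iff` and `roots_C_mul`. -/
theorem hZ_spec {N : ℕ} (hN : 1 ≤ N) {Z : Fin (N + 1) → ℂ} {w : Fin N → ℂ} (h : CritOf Z w) :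
    (∃ k, ∀ j, hZ Z ≤ ‖Z k - w j‖) ∧ (∀ k, ∃ j, ‖Z k - w j‖ ≤ hZ Z) := by
  have hr : (pz Z).roots = Multiset.map Z Finset.univ.val := by
    have h1 : pz Z = ((Multiset.map Z Finset.univ.val).map fun a => X - C a).prod := by
      rw [Multiset.map_map]
      rfl
    rw [h1, roots_multiset_prod_X_sub_C]
  have hr' : (derivative (pz Z)).roots = Multiset.map w Finset.univ.val := by
    have h1 : (∏ j, (X - C (w j)) : ℂ[X]) =
        ((Multiset.map w Finset.univ.val).map fun a => X - C a).prod := by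
      rw [Multiset.map_map]
      rfl
    have h2 := (critOf_iff Z w).mp h
    have h3 : (N : ℂ) + 1 ≠ 0 := by exact_mod_cast Nat.succ_ne_zero N
    unfold pz
    rw [h2, roots_C_mul _ h3, h1, roots_multiset_prod_X_sub_C]
  exact hausdorff_eq (pz Z) hN Z w hr hr'

/-- Two numbers with the property of `hZ_spec` are equal. -/
theorem hZ_unique {N : ℕ} (hN : 1 ≤ N) {Z : Fin (N + 1) → ℂ} {w : Fin N → ℂ} (h : CritOf Z w)
    {H : ℝ} (h1 : ∃ k, ∀ j, H ≤ ‖Z k - w j‖) (h2 : ∀ k, ∃ j, ‖Z k - w j‖ ≤ H) : hZ Z = H := by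
  obtain ⟨⟨k, hk⟩, h3⟩ := hZ_spec hN h
  obtain ⟨k', hk'⟩ := h1
  obtain ⟨j, hj⟩ := h2 k
  obtain ⟨j', hj'⟩ := h3 k'
  exact le_antisymm ((hk j).trans hj) ((hk' j').trans hj')

theorem hZ_nonneg {N : ℕ} (hN : 1 ≤ N) (Z : Fin (N + 1) → ℂ) : 0 ≤ hZ Z := by
  obtain ⟨w, hw⟩ := exists_crit Z
  obtain ⟨j, hj⟩ := (hZ_spec hN hw).2 0
  exact (norm_nonneg _).trans hj

end Pool.Agent.Lib.c113aaE
end
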