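import Pool.Agent.Lib.c113aaE.CritClose
import Pool.Agent.Lib.c113aaE.Spec

section

set_option autoImplicit false

namespace Pool.Agent.Lib.c113aaE

open Finset Polynomial Pool.MP_c113aa_an.BV

/-- Proof: fix `Z₀`, `ε`, critical points `w₀` of `Z₀` (`exists_crit`).  For `Z` near `Z₀` (with
`crit_close` for `ε` and `‖Z - Z₀‖ ≤ ε`) and critical points `w` of `Z`:
`hZ Z ≤ ‖Z k - w j‖` for all `j` and one `k`; choose `i` with `‖Z₀ k - w₀ i‖ ≤ hZ Z₀` (`hZ_spec`) and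
`j` with `‖w₀ i - w j‖ ≤ ε`: `hZ Z ≤ hZ Z₀ + 2 ε`.  The other direction is the same. -/
theorem continuous_hZ {N : ℕ} (hN : 1 ≤ N) : Continuous (hZ : (Fin (N + 1) → ℂ) → ℝ) := by
  rw [continuous_iff_continuousAt]
  intro Z₀
  rw [Metric.continuousAt_iff']
  intro ε hε
  obtain ⟨w₀, hw₀⟩ := exists_crit Z₀
  have hε4 : 0 < ε / 4 := by positivity
  have h1 := crit_close hN hw₀ hε4
  have h2 : ∀ᶠ Z in nhds Z₀, dist Z Z₀ < ε / 4 := Metric.ball_mem_nhds Z₀ hε4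
  filter_upwards [h1, h2] with Z hc hd
  obtain ⟨w, hw⟩ := exists_crit Z
  obtain ⟨ha, hb⟩ := hc w hw
  have hk : ∀ k, ‖Z k - Z₀ k‖ ≤ ε / 4 := by
    intro k
    have h3 := norm_le_pi_norm (Z - Z₀) k
    rw [Pi.sub_apply] at h3
    rw [dist_eq_norm] at hd
    linarith
  obtain ⟨⟨k, hk1⟩, hs2⟩ := hZ_spec hN hw
  obtain ⟨⟨k0, hk01⟩, hs02⟩ := hZ_spec hN hw₀
  have A : hZ Z ≤ hZ Z₀ + ε / 2 := by
    obtain ⟨i, hi⟩ := hs02 k
    obtain ⟨j, hj⟩ := hb i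
    have h3 := hk1 j
    have h4 : ‖Z k - w j‖ ≤ ‖Z k - Z₀ k‖ + ‖Z₀ k - w₀ i‖ + ‖w₀ i - w j‖ := by
      have e : Z k - w j = (Z k - Z₀ k) + (Z₀ k - w₀ i) + (w₀ i - w j) := by ring
      rw [e]
      exact norm_add₃_le
    have h5 := hk k
    linarith
  have B : hZ Z₀ ≤ hZ Z + ε / 2 := by
    obtain ⟨j, hj⟩ := hs2 k0
    obtain ⟨i, hi⟩ := ha j
    have h3 := hk01 i
    have h4 : ‖Z₀ k0 - w₀ i‖ ≤ ‖Z k0 - Z₀ k0‖ + ‖Z k0 - w j‖ + ‖w j - w₀ i‖ := by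
      have e : Z₀ k0 - w₀ i = -(Z k0 - Z₀ k0) + (Z k0 - w j) + (w j - w₀ i) := by ring
      rw [e]
      refine norm_add₃_le.trans ?_
      rw [norm_neg]
    have h5 := hk k0
    linarith
  rw [Real.dist_eq, abs_lt]
  constructor <;> linarith

end Pool.Agent.Lib.c113aaE
end
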