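import Pool.Agent.Lib.c113aaE.CptA

section

set_option autoImplicit false

namespace Pool.Agent.Lib.c113aaE

open Finset Polynomial Pool.MP_c113aa_an.BV

/-- Proof: the set `K` of the vectors with `∑ Z k = 0` and `‖Z‖ = 1` is compact and contains no
constant vector; by `cpt_loc` and compactness (`IsCompact.elim_nhds_subcover` or
`IsCompact.induction_on`) there is `p ≥ 1` with `hZ Z ≤ sg p Z` on `K`.  Every `Z` that is not
constant is `l Z' + g` with `Z' ∈ K`, `l > 0` (`g` the mean, `l = ‖Z - g‖`), so `hZ_affine` and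
`sg_affine` give the inequality; for constant vectors `hZ_const` and `sg_nonneg`. -/
theorem cpt {N : ℕ} (hN : 3 ≤ N)
    (h : ∀ Z : Fin (N + 1) → ℂ, hZ Z ≤ sI Z ∧ (hZ Z = sI Z → Ext Z)) :
    ∃ p : ℝ, 1 ≤ p ∧ ∀ Z : Fin (N + 1) → ℂ, hZ Z ≤ sg p Z := by
  classical
  -- the compact set
  set K : Set (Fin (N + 1) → ℂ) := {Z | ∑ k, Z k = 0} ∩ Metric.sphere 0 1 with hK
  have hKc : IsCompact K := by
    refine (isCompact_sphere (0 : Fin (N + 1) → ℂ) 1).inter_left ?_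
    exact isClosed_eq (continuous_finsetSum _ fun k _ => continuous_apply k) continuous_const
  have hKn : ∀ Z ∈ K, ¬ ∃ c, ∀ k, Z k = c := by
    rintro Z ⟨hs, hn⟩ ⟨c, hcc⟩
    have h1 : ∑ k, Z k = ((N + 1 : ℕ) : ℂ) * c := by
      rw [Finset.sum_congr rfl fun k _ => hcc k, Finset.sum_const, Finset.card_univ,
        Fintype.card_fin, nsmul_eq_mul]
    have h2 : c = 0 := by
      have h3 : ((N + 1 : ℕ) : ℂ) * c = 0 := by rw [← h1]; exact hs
      rcases mul_eq_zero.1 h3 with h4 | h4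
      · exact absurd h4 (Nat.cast_ne_zero.2 (Nat.succ_ne_zero N))
      · exact h4
    have h5 : Z = 0 := by
      funext k
      rw [hcc k, h2]
      rfl
    rw [h5, mem_sphere_zero_iff_norm, norm_zero] at hn
    exact zero_ne_one hn
  obtain ⟨p, hp1, hp⟩ : ∃ p : ℝ, 1 ≤ p ∧ ∀ Z ∈ K, ∀ q : ℝ, p ≤ q → hZ Z ≤ sg q Z := by
    refine hKc.induction_on
      (p := fun s => ∃ p : ℝ, 1 ≤ p ∧ ∀ Z ∈ s, ∀ q : ℝ, p ≤ q → hZ Z ≤ sg q Z) ?_ ?_ ?_ ?_
    · exact ⟨1, le_rfl, fun Z hZ => absurd hZ (Set.notMem_empty Z)⟩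
    · rintro s t hst ⟨p, hp1, hp⟩
      exact ⟨p, hp1, fun Z hZ => hp Z (hst hZ)⟩
    · rintro s t ⟨p, hp1, hp⟩ ⟨p', hp1', hp'⟩
      refine ⟨max p p', le_trans hp1 (le_max_left _ _), fun Z hZ q hq => ?_⟩
      rcases hZ with hZ | hZ
      · exact hp Z hZ q (le_trans (le_max_left _ _) hq)
      · exact hp' Z hZ q (le_trans (le_max_right _ _) hq)
    · intro Z hZ
      obtain ⟨p, hp1, hp⟩ := cpt_loc hN h Z (hKn Z hZ)
      exact ⟨_, mem_nhdsWithin_of_mem_nhds hp, p, hp1, fun Z' hZ' => hZ'⟩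
  refine ⟨p, hp1, fun Z => ?_⟩
  by_cases hconst : ∃ c, ∀ k, Z k = c
  · obtain ⟨c, hcc⟩ := hconst
    have h1 : Z = fun _ => c := funext hcc
    rw [h1, hZ_const (by omega)]
    exact sg_nonneg _
  · set g : ℂ := (∑ k, Z k) / ((N + 1 : ℕ) : ℂ) with hg
    have hN1 : ((N + 1 : ℕ) : ℂ) ≠ 0 := Nat.cast_ne_zero.2 (Nat.succ_ne_zero N)
    set W : Fin (N + 1) → ℂ := fun k => Z k - g with hW
    have hW0 : W ≠ 0 := by
      intro h0
      refine hconst ⟨g, fun k => ?_⟩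
      have h1 : Z k - g = 0 := congrFun h0 k
      exact sub_eq_zero.1 h1
    have hl : 0 < ‖W‖ := norm_pos_iff.2 hW0
    set l : ℂ := ((‖W‖ : ℝ) : ℂ) with hldef
    have hl0 : l ≠ 0 := by
      rw [hldef, Ne, Complex.ofReal_eq_zero]
      exact hl.ne'
    set Z' : Fin (N + 1) → ℂ := fun k => l⁻¹ * W k with hZ'
    have hZ'K : Z' ∈ K := by
      refine ⟨?_, ?_⟩
      · show ∑ k, l⁻¹ * (Z k - g) = 0
        rw [← Finset.mul_sum, Finset.sum_sub_distrib, Finset.sum_const, Finset.card_univ,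
          Fintype.card_fin, nsmul_eq_mul, hg, mul_div_cancel₀ _ hN1, sub_self, mul_zero]
      · rw [mem_sphere_zero_iff_norm]
        have h1 : Z' = l⁻¹ • W := by
          funext k
          rfl
        rw [h1, norm_smul, norm_inv, hldef, Complex.norm_real, norm_norm]
        exact inv_mul_cancel₀ hl.ne'
    have hZeq : Z = fun k => l * Z' k + g := by
      funext k
      show Z k = l * (l⁻¹ * (Z k - g)) + g
      rw [mul_inv_cancel_left₀ hl0, sub_add_cancel]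
    rw [hZeq, hZ_affine (by omega) Z' hl0 g, sg_affine hp1 Z' hl0 g]
    exact mul_le_mul_of_nonneg_left (hp Z' hZ'K p le_rfl) (norm_nonneg _)

end Pool.Agent.Lib.c113aaE
end
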