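import Pool.Agent.Lib.c113aaE.SgA

section

set_option autoImplicit false

namespace Pool.Agent.Lib.c113aaE

open Finset Polynomial Pool.MP_c113aa_an.BV

private theorem sgB_norm_le {N : ℕ} (Z Z' : Fin (N + 1) → ℂ) (c : ℂ) (k : Fin (N + 1)) :
    ‖Z k - c‖ ≤ ‖Z' k - c‖ + dist Z Z' := by
  have h2 : ‖Z k - Z' k‖ ≤ dist Z Z' := by
    rw [← dist_eq_norm]
    exact dist_le_pi_dist Z Z' k
  have h3 : Z k - c = (Z k - Z' k) + (Z' k - c) := by ring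
  have h4 : ‖Z k - c‖ ≤ ‖Z k - Z' k‖ + ‖Z' k - c‖ := by
    rw [h3]
    exact norm_add_le _ _
  linarith

/-- `|sI Z - sI Z'| ≤ ‖Z - Z'‖` (sup norm), since `‖Z k - c‖ ≤ ‖Z' k - c‖ + ‖Z - Z'‖`
(`norm_le_pi_norm`). -/
theorem continuous_sI {N : ℕ} : Continuous (sI : (Fin (N + 1) → ℂ) → ℝ) := by
  refine LipschitzWith.continuous (K := 1) (LipschitzWith.of_le_add fun Z Z' => ?_)
  rw [← sub_le_iff_le_add]
  unfold sI
  refine le_ciInf fun c => ?_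
  rw [sub_le_iff_le_add]
  refine (ciInf_le ⟨0, ?_⟩ c).trans ?_
  · rintro _ ⟨c, rfl⟩
    exact Real.iSup_nonneg fun k => norm_nonneg _
  · refine ciSup_le fun k => ?_
    have h1 : ‖Z' k - c‖ ≤ ⨆ k, ‖Z' k - c‖ :=
      le_ciSup (f := fun k => ‖Z' k - c‖) (Set.finite_range _).bddAbove k
    have h2 := sgB_norm_le Z Z' c k
    linarith

/-- `|sg p Z - sg p Z'| ≤ ‖Z - Z'‖` for `1 ≤ p`: Minkowski's inequality (`Real.Lp_add_le`) for
`x_k = ‖Z' k - c‖` and the constant `y_k = ‖Z - Z'‖`, each with the weight `1/(N+1)`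
(multiply by `(1/(N+1))^(1/p)`), and monotonicity. -/
theorem continuous_sg {N : ℕ} {p : ℝ} (hp : 1 ≤ p) :
    Continuous (sg p : (Fin (N + 1) → ℂ) → ℝ) := by
  have hp0 : 0 < p := lt_of_lt_of_le one_pos hp
  have hw : (0 : ℝ) < 1 / ((N + 1 : ℕ) : ℝ) := by positivity
  refine LipschitzWith.continuous (K := 1) (LipschitzWith.of_le_add fun Z Z' => ?_)
  rw [← sub_le_iff_le_add]
  unfold sg
  refine le_ciInf fun c => ?_
  rw [sub_le_iff_le_add]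
  refine (ciInf_le ⟨0, ?_⟩ c).trans ?_
  · rintro _ ⟨c, rfl⟩
    exact Real.rpow_nonneg (mul_nonneg hw.le (Finset.sum_nonneg fun k _ =>
      Real.rpow_nonneg (norm_nonneg _) _)) _
  · have hd : 0 ≤ dist Z Z' := dist_nonneg
    have hS : ∀ x : Fin (N + 1) → ℝ, (∀ k, 0 ≤ x k) → 0 ≤ ∑ k, x k ^ p := fun x hx =>
      Finset.sum_nonneg fun k _ => Real.rpow_nonneg (hx k) _
    have h1 : ((1 / ((N + 1 : ℕ) : ℝ)) * ∑ k, ‖Z k - c‖ ^ p) ^ (1 / p) ≤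
        ((1 / ((N + 1 : ℕ) : ℝ)) * ∑ k, (‖Z' k - c‖ + dist Z Z') ^ p) ^ (1 / p) := by
      refine Real.rpow_le_rpow (mul_nonneg hw.le (hS _ fun k => norm_nonneg _)) ?_ (by positivity)
      refine mul_le_mul_of_nonneg_left (Finset.sum_le_sum fun k _ => ?_) hw.le
      exact Real.rpow_le_rpow (norm_nonneg _) (sgB_norm_le Z Z' c k) hp0.le
    have h2 : (∑ k, (‖Z' k - c‖ + dist Z Z') ^ p) ^ (1 / p) ≤
        (∑ k, ‖Z' k - c‖ ^ p) ^ (1 / p) + (∑ _k : Fin (N + 1), dist Z Z' ^ p) ^ (1 / p) := by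
      have h3 := Real.Lp_add_le (Finset.univ : Finset (Fin (N + 1))) (fun k => ‖Z' k - c‖)
        (fun _ => dist Z Z') hp
      have e1 : ∀ k : Fin (N + 1), |‖Z' k - c‖ + dist Z Z'| = ‖Z' k - c‖ + dist Z Z' := fun k =>
        abs_of_nonneg (add_nonneg (norm_nonneg _) hd)
      have e2 : ∀ k : Fin (N + 1), |‖Z' k - c‖| = ‖Z' k - c‖ := fun k => abs_of_nonneg (norm_nonneg _)
      have e3 : |dist Z Z'| = dist Z Z' := abs_of_nonneg hd
      simp only [e1, e2, e3] at h3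
      exact h3
    have h4 : ((1 / ((N + 1 : ℕ) : ℝ)) * ∑ _k : Fin (N + 1), dist Z Z' ^ p) ^ (1 / p) =
        dist Z Z' := by
      have e4 : (1 / ((N + 1 : ℕ) : ℝ)) * ∑ _k : Fin (N + 1), dist Z Z' ^ p = dist Z Z' ^ p := by
        rw [Finset.sum_const, Finset.card_univ, Fintype.card_fin, nsmul_eq_mul, ← mul_assoc,
          one_div_mul_cancel (by positivity), one_mul]
      rw [e4, ← Real.rpow_mul hd, mul_one_div_cancel hp0.ne', Real.rpow_one]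
    refine h1.trans ?_
    rw [Real.mul_rpow hw.le (hS _ fun k => add_nonneg (norm_nonneg _) hd),
      Real.mul_rpow hw.le (hS _ fun k => norm_nonneg _)]
    rw [Real.mul_rpow hw.le (hS _ fun _ => hd)] at h4
    have h5 : 0 ≤ (1 / ((N + 1 : ℕ) : ℝ)) ^ (1 / p) := Real.rpow_nonneg hw.le _
    calc (1 / ((N + 1 : ℕ) : ℝ)) ^ (1 / p) * (∑ k, (‖Z' k - c‖ + dist Z Z') ^ p) ^ (1 / p)
        ≤ (1 / ((N + 1 : ℕ) : ℝ)) ^ (1 / p) * ((∑ k, ‖Z' k - c‖ ^ p) ^ (1 / p) +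
          (∑ _k : Fin (N + 1), dist Z Z' ^ p) ^ (1 / p)) := mul_le_mul_of_nonneg_left h2 h5
      _ = (1 / ((N + 1 : ℕ) : ℝ)) ^ (1 / p) * (∑ k, ‖Z' k - c‖ ^ p) ^ (1 / p) + dist Z Z' := by
        rw [mul_add, h4]

end Pool.Agent.Lib.c113aaE
end
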