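import Pool.Agent.Lib.c113aaE.Near
import Pool.Agent.Lib.c113aaE.Cont
import Pool.Agent.Lib.c113aaE.SgB
import Pool.Agent.Lib.c113aaE.Aff

section

set_option autoImplicit false

namespace Pool.Agent.Lib.c113aaE

open Finset Polynomial Pool.MP_c113aa_an.BV

private theorem cptA_tendsto {a : ℝ} (ha : a ≠ 0) :
    Filter.Tendsto (fun p : ℝ => a ^ (1 / p)) Filter.atTop (nhds 1) := by
  have h1 : Filter.Tendsto (fun p : ℝ => 1 / p) Filter.atTop (nhds 0) := by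
    simpa only [one_div] using tendsto_inv_atTop_zero
  have h2 : Filter.Tendsto (fun x : ℝ => a ^ x) (nhds 0) (nhds (a ^ (0 : ℝ))) :=
    (Real.continuousAt_const_rpow ha).tendsto
  rw [Real.rpow_zero] at h2
  exact h2.comp h1

/-- Local step.  Proof: if `Z₀` is not `Ext` then `hZ Z₀ < sI Z₀`; as
`(1/(N+1))^(1/p) → 1` for `p → ∞` there is `p ≥ 1` with `hZ Z₀ < (1/(N+1))^(1/p) sI Z₀`, and this
holds near `Z₀` by continuity (`continuous_hZ`, `continuous_sI`); use `sI_le_sg` and `sg_mono`.  If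
`Z₀` is `Ext`, not constant, use `near` and `le_sg_of_sum` (with `p = 1`). -/
theorem cpt_loc {N : ℕ} (hN : 3 ≤ N)
    (h : ∀ Z : Fin (N + 1) → ℂ, hZ Z ≤ sI Z ∧ (hZ Z = sI Z → Ext Z)) (Z₀ : Fin (N + 1) → ℂ)
    (hc : ¬ ∃ c, ∀ k, Z₀ k = c) :
    ∃ p : ℝ, 1 ≤ p ∧ ∀ᶠ Z in nhds Z₀, ∀ q : ℝ, p ≤ q → hZ Z ≤ sg q Z := by
  by_cases hE : Ext Z₀
  · refine ⟨1, le_refl _, ?_⟩
    filter_upwards [near hN hE hc] with Z hZ' q hq
    exact le_sg_of_sum hq Z hZ'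
  · have hlt : hZ Z₀ < sI Z₀ :=
      lt_of_le_of_ne (h Z₀).1 fun he => hE ((h Z₀).2 he)
    have ha : (1 / ((N + 1 : ℕ) : ℝ)) ≠ 0 := by positivity
    have ht : Filter.Tendsto (fun p : ℝ => (1 / ((N + 1 : ℕ) : ℝ)) ^ (1 / p) * sI Z₀)
        Filter.atTop (nhds (1 * sI Z₀)) := (cptA_tendsto ha).mul_const _
    rw [one_mul] at ht
    obtain ⟨p, hp1, hp2⟩ :=
      ((ht.eventually (lt_mem_nhds hlt)).and (Filter.eventually_ge_atTop (1 : ℝ))).exists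
    refine ⟨p, hp2, ?_⟩
    have hcont1 : Continuous (hZ : (Fin (N + 1) → ℂ) → ℝ) := continuous_hZ (by omega)
    have hcont2 : Continuous
        (fun Z : Fin (N + 1) → ℂ => (1 / ((N + 1 : ℕ) : ℝ)) ^ (1 / p) * sI Z) :=
      continuous_const.mul continuous_sI
    have hev : ∀ᶠ Z in nhds Z₀, hZ Z < (1 / ((N + 1 : ℕ) : ℝ)) ^ (1 / p) * sI Z :=
      (hcont1.tendsto Z₀).eventually_lt (hcont2.tendsto Z₀) hp1
    filter_upwards [hev] with Z hZ' q hq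
    exact hZ'.le.trans ((sI_le_sg hp2 Z).trans (sg_mono hp2 hq Z))

end Pool.Agent.Lib.c113aaE
end
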