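import Pool.Agent.Lib.c113aaE.CptBA

section

set_option autoImplicit false

namespace Pool.Agent.Lib.c113aaE

open Finset Polynomial Pool.MP_c113aa_an.BV

/-- Proof (compare `cpt`): the set `K` of the vectors with `∑ Z k = 0` and `‖Z‖ = 1` is compact and
contains no constant vector; by `cptB_loc` and compactness (`IsCompact.elim_nhds_subcover` or
`IsCompact.induction_on`) there is `q ∈ [1, p)` with `hZ Z ≤ sg q Z` on `K`.  Every `Z` that is not
constant is `l Z' + g` with `Z' ∈ K`, `l > 0` (`g` the mean, `l = ‖Z - g‖`), so `hZ_affine` and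
`sg_affine` give the inequality; for constant vectors `hZ_const` and `sg_nonneg`. -/
theorem cptB {N : ℕ} (hN : 3 ≤ N) {p : ℝ} (hp : 1 < p)
    (h : ∀ Z : Fin (N + 1) → ℂ, hZ Z ≤ sg p Z ∧ (hZ Z = sg p Z → Ext Z)) :
    ∃ q : ℝ, 1 ≤ q ∧ q < p ∧ ∀ Z : Fin (N + 1) → ℂ, hZ Z ≤ sg q Z := by
  have hNC : ((N : ℂ) + 1) ≠ 0 := by exact_mod_cast Nat.succ_ne_zero N
  set K : Set (Fin (N + 1) → ℂ) := Metric.sphere 0 1 ∩ {Z | ∑ k, Z k = 0} with hK
  have hKc : IsCompact K :=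
    (isCompact_sphere 0 1).inter_right (isClosed_eq (by fun_prop) continuous_const)
  have hnc : ∀ Z ∈ K, ¬ ∃ c, ∀ k, Z k = c := by
    rintro Z ⟨h1, h2⟩ ⟨c, hc⟩
    have h3 : ∑ k, Z k = 0 := h2
    simp only [hc, Finset.sum_const, Finset.card_univ, Fintype.card_fin, nsmul_eq_mul] at h3
    push_cast at h3
    have hc0 : c = 0 := (mul_eq_zero.1 h3).resolve_left hNC
    have hZ0 : Z = 0 := by
      funext k
      rw [hc k, hc0]
      rfl
    rw [hZ0, mem_sphere_zero_iff_norm, norm_zero] at h1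
    exact zero_ne_one h1
  obtain ⟨q, hq1, hqp, hq⟩ : ∃ q : ℝ, 1 ≤ q ∧ q < p ∧ ∀ Z ∈ K, ∀ r : ℝ, q ≤ r → hZ Z ≤ sg r Z := by
    refine hKc.induction_on (p := fun S : Set (Fin (N + 1) → ℂ) =>
      ∃ q : ℝ, 1 ≤ q ∧ q < p ∧ ∀ Z ∈ S, ∀ r : ℝ, q ≤ r → hZ Z ≤ sg r Z) ?_ ?_ ?_ ?_
    · exact ⟨1, le_rfl, hp, fun Z hZ => absurd hZ (Set.notMem_empty Z)⟩
    · rintro S T hST ⟨q, h1, h2, h3⟩
      exact ⟨q, h1, h2, fun Z hZ => h3 Z (hST hZ)⟩
    · rintro S T ⟨q, h1, h2, h3⟩ ⟨q', h1', h2', h3'⟩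
      refine ⟨max q q', le_max_of_le_left h1, max_lt h2 h2', fun Z hZ r hr => ?_⟩
      rcases hZ with hZ | hZ
      · exact h3 Z hZ r ((le_max_left _ _).trans hr)
      · exact h3' Z hZ r ((le_max_right _ _).trans hr)
    · intro Z hZ
      obtain ⟨q, h1, h2, h3⟩ := cptB_loc hN hp h Z (hnc Z hZ)
      exact ⟨_, mem_nhdsWithin_of_mem_nhds h3, q, h1, h2, fun Z' hZ' => hZ'⟩
  refine ⟨q, hq1, hqp, fun Z => ?_⟩
  by_cases hc : ∃ c, ∀ k, Z k = c
  · obtain ⟨c, hc⟩ := hc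
    have e : Z = fun _ => c := funext hc
    rw [e, hZ_const (by omega)]
    exact sg_nonneg _
  set g : ℂ := (∑ k, Z k) / ((N : ℂ) + 1) with hg
  set Y : Fin (N + 1) → ℂ := fun k => Z k - g with hY
  have hYne : Y ≠ 0 := by
    intro h0
    apply hc
    refine ⟨g, fun k => ?_⟩
    have := congrFun h0 k
    simp only [hY, Pi.zero_apply] at this
    exact sub_eq_zero.1 this
  have hl : 0 < ‖Y‖ := norm_pos_iff.2 hYne
  have hlC : ((‖Y‖ : ℝ) : ℂ) ≠ 0 := by exact_mod_cast hl.ne'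
  set Z' : Fin (N + 1) → ℂ := fun k => ((‖Y‖ : ℝ) : ℂ)⁻¹ * Y k with hZ'
  have hZ'K : Z' ∈ K := by
    constructor
    · rw [mem_sphere_zero_iff_norm]
      have e : Z' = ((‖Y‖ : ℝ) : ℂ)⁻¹ • Y := rfl
      rw [e, norm_smul, norm_inv, Complex.norm_real, norm_norm, inv_mul_cancel₀ hl.ne']
    · show ∑ k, Z' k = 0
      have h1 : ∑ k, Y k = 0 := by
        simp only [hY, Finset.sum_sub_distrib, Finset.sum_const, Finset.card_univ,
          Fintype.card_fin, nsmul_eq_mul]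
        push_cast
        rw [hg, mul_div_cancel₀ _ hNC, sub_self]
      rw [← Finset.mul_sum, h1, mul_zero]
  have hZe : Z = fun k => ((‖Y‖ : ℝ) : ℂ) * Z' k + g := by
    funext k
    simp only [hZ', hY]
    rw [mul_inv_cancel_left₀ hlC, sub_add_cancel]
  rw [hZe, hZ_affine (by omega) Z' hlC g, sg_affine hq1 Z' hlC g]
  exact mul_le_mul_of_nonneg_left (hq Z' hZ'K q le_rfl) (norm_nonneg _)

end Pool.Agent.Lib.c113aaE
end
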