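import Pool.Agent.Lib.c113aaE.SgA

section

set_option autoImplicit false

namespace Pool.Agent.Lib.c113aaE

open Finset Polynomial Pool.MP_c113aa_an.BV

private theorem sgC_norm {ι : Type} (s : Finset ι) (x : ι → ℝ) (hx : ∀ k ∈ s, 0 ≤ x k) {p q : ℝ}
    (hp : 0 < p) (hpq : p ≤ q) :
    (∑ k ∈ s, x k ^ q) ^ (1 / q) ≤ (∑ k ∈ s, x k ^ p) ^ (1 / p) := by
  have hq : 0 < q := hp.trans_le hpq
  have hS : 0 ≤ ∑ k ∈ s, x k ^ p := Finset.sum_nonneg fun k hk => Real.rpow_nonneg (hx k hk) p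
  have ht : 0 ≤ (∑ k ∈ s, x k ^ p) ^ (1 / p) := Real.rpow_nonneg hS _
  have hle : ∀ k ∈ s, x k ≤ (∑ k ∈ s, x k ^ p) ^ (1 / p) := by
    intro k hk
    have h1 : x k ^ p ≤ ∑ k ∈ s, x k ^ p :=
      Finset.single_le_sum (f := fun k => x k ^ p) (fun j hj => Real.rpow_nonneg (hx j hj) p) hk
    have h2 : (x k ^ p) ^ (1 / p) ≤ (∑ k ∈ s, x k ^ p) ^ (1 / p) :=
      Real.rpow_le_rpow (Real.rpow_nonneg (hx k hk) p) h1 (by positivity)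
    rwa [← Real.rpow_mul (hx k hk), mul_one_div_cancel hp.ne', Real.rpow_one] at h2
  have hpw : ((∑ k ∈ s, x k ^ p) ^ (1 / p)) ^ p = ∑ k ∈ s, x k ^ p := by
    rw [← Real.rpow_mul hS, one_div_mul_cancel hp.ne', Real.rpow_one]
  have hsum : ∑ k ∈ s, x k ^ q ≤ ((∑ k ∈ s, x k ^ p) ^ (1 / p)) ^ q := by
    calc ∑ k ∈ s, x k ^ q ≤ ∑ k ∈ s, x k ^ p * ((∑ k ∈ s, x k ^ p) ^ (1 / p)) ^ (q - p) := by
          refine Finset.sum_le_sum fun k hk => ?_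
          have h3 : x k ^ q = x k ^ p * x k ^ (q - p) := by
            rw [← Real.rpow_add_of_nonneg (hx k hk) hp.le (sub_nonneg.2 hpq), add_sub_cancel]
          rw [h3]
          exact mul_le_mul_of_nonneg_left
            (Real.rpow_le_rpow (hx k hk) (hle k hk) (sub_nonneg.2 hpq))
            (Real.rpow_nonneg (hx k hk) p)
      _ = (∑ k ∈ s, x k ^ p) * ((∑ k ∈ s, x k ^ p) ^ (1 / p)) ^ (q - p) := by
          rw [Finset.sum_mul]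
      _ = ((∑ k ∈ s, x k ^ p) ^ (1 / p)) ^ p * ((∑ k ∈ s, x k ^ p) ^ (1 / p)) ^ (q - p) := by
          rw [hpw]
      _ = ((∑ k ∈ s, x k ^ p) ^ (1 / p)) ^ q := by
          rw [← Real.rpow_add_of_nonneg ht hp.le (sub_nonneg.2 hpq), add_sub_cancel]
  have h4 := Real.rpow_le_rpow
    (Finset.sum_nonneg fun k hk => Real.rpow_nonneg (hx k hk) q) hsum
    (show (0 : ℝ) ≤ 1 / q by positivity)
  rwa [← Real.rpow_mul ht, mul_one_div_cancel hq.ne', Real.rpow_one] at h4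

/-- The norms `(∑ x^q)^(1/q)` decrease in `q`.  Proof: for every `c`, with `x k = ‖Z k - c‖` and
`s = (∑ x^q)^(1/q)`: if `s = 0` there is nothing to do; otherwise `y k = x k / s ≤ 1`, so
`y^q ≤ y^p`, `1 = ∑ y^q ≤ ∑ y^p`, `s^p ≤ ∑ x^p`, `s ≤ (∑ x^p)^(1/p)`; multiply by
`(1/(N+1))^(1/p)`: `(1/(N+1))^(1/p - 1/q) * ((1/(N+1)) ∑ x^q)^(1/q) ≤ ((1/(N+1)) ∑ x^p)^(1/p)`; then
`sg_le` and `le_ciInf`. -/
theorem sg_ge {N : ℕ} {p q : ℝ} (hp : 1 ≤ p) (hpq : p ≤ q) (Z : Fin (N + 1) → ℂ) :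
    (1 / ((N + 1 : ℕ) : ℝ)) ^ (1 / p - 1 / q) * sg q Z ≤ sg p Z := by
  have hμ : (0 : ℝ) < 1 / ((N + 1 : ℕ) : ℝ) := by positivity
  have hp0 : 0 < p := zero_lt_one.trans_le hp
  have hmain : ∀ c : ℂ, (1 / ((N + 1 : ℕ) : ℝ)) ^ (1 / p - 1 / q) * sg q Z ≤
      ((1 / ((N + 1 : ℕ) : ℝ)) * ∑ k, ‖Z k - c‖ ^ p) ^ (1 / p) := by
    intro c
    have h1 := sg_le q Z c
    have h2 : (∑ k, ‖Z k - c‖ ^ q) ^ (1 / q) ≤ (∑ k, ‖Z k - c‖ ^ p) ^ (1 / p) :=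
      sgC_norm Finset.univ (fun k => ‖Z k - c‖) (fun k _ => norm_nonneg _) hp0 hpq
    have hSp : 0 ≤ ∑ k, ‖Z k - c‖ ^ p :=
      Finset.sum_nonneg fun k _ => Real.rpow_nonneg (norm_nonneg _) p
    have hSq : 0 ≤ ∑ k, ‖Z k - c‖ ^ q :=
      Finset.sum_nonneg fun k _ => Real.rpow_nonneg (norm_nonneg _) q
    calc (1 / ((N + 1 : ℕ) : ℝ)) ^ (1 / p - 1 / q) * sg q Z
        ≤ (1 / ((N + 1 : ℕ) : ℝ)) ^ (1 / p - 1 / q) *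
          ((1 / ((N + 1 : ℕ) : ℝ)) * ∑ k, ‖Z k - c‖ ^ q) ^ (1 / q) :=
          mul_le_mul_of_nonneg_left h1 (Real.rpow_nonneg hμ.le _)
      _ = (1 / ((N + 1 : ℕ) : ℝ)) ^ (1 / p) * (∑ k, ‖Z k - c‖ ^ q) ^ (1 / q) := by
          rw [Real.mul_rpow hμ.le hSq, ← mul_assoc, ← Real.rpow_add hμ, sub_add_cancel]
      _ ≤ (1 / ((N + 1 : ℕ) : ℝ)) ^ (1 / p) * (∑ k, ‖Z k - c‖ ^ p) ^ (1 / p) :=
          mul_le_mul_of_nonneg_left h2 (Real.rpow_nonneg hμ.le _)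
      _ = ((1 / ((N + 1 : ℕ) : ℝ)) * ∑ k, ‖Z k - c‖ ^ p) ^ (1 / p) := by
          rw [Real.mul_rpow hμ.le hSp]
  exact le_ciInf hmain

end Pool.Agent.Lib.c113aaE
end
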