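import Pool.Agent.Lib.c113aaE.Near
import Pool.Agent.Lib.c113aaE.Cont
import Pool.Agent.Lib.c113aaE.SgB
import Pool.Agent.Lib.c113aaE.SgC
import Pool.Agent.Lib.c113aaE.Aff

section

set_option autoImplicit false

namespace Pool.Agent.Lib.c113aaE

open Finset Polynomial Pool.MP_c113aa_an.BV

/-- Local step (compare `cpt_loc`).  Proof: if `Z₀` is not `Ext` then `hZ Z₀ < sg p Z₀`; as
`(1/(N+1))^(1/q - 1/p) → 1` for `q → p-` there is `q ∈ [1, p)` with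
`hZ Z₀ < (1/(N+1))^(1/q - 1/p) sg p Z₀`, and this holds near `Z₀` by continuity (`continuous_hZ`,
`continuous_sg`); use `sg_ge` and `sg_mono`.  If `Z₀` is `Ext`, not constant, use `near` and
`le_sg_of_sum` (with `q = 1`). -/
theorem cptB_loc {N : ℕ} (hN : 3 ≤ N) {p : ℝ} (hp : 1 < p)
    (h : ∀ Z : Fin (N + 1) → ℂ, hZ Z ≤ sg p Z ∧ (hZ Z = sg p Z → Ext Z)) (Z₀ : Fin (N + 1) → ℂ)
    (hc : ¬ ∃ c, ∀ k, Z₀ k = c) :
    ∃ q : ℝ, 1 ≤ q ∧ q < p ∧ ∀ᶠ Z in nhds Z₀, ∀ r : ℝ, q ≤ r → hZ Z ≤ sg r Z := by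
  by_cases hE : Ext Z₀
  · refine ⟨1, le_rfl, hp, ?_⟩
    filter_upwards [near hN hE hc] with Z hZ1 r hr
    exact le_sg_of_sum hr Z hZ1
  · have hlt : hZ Z₀ < sg p Z₀ := lt_of_le_of_ne (h Z₀).1 fun e => hE ((h Z₀).2 e)
    have hp0 : p ≠ 0 := by linarith
    have hb : (0 : ℝ) < 1 / ((N + 1 : ℕ) : ℝ) := by positivity
    have hcont : ContinuousAt
        (fun q : ℝ => (1 / ((N + 1 : ℕ) : ℝ)) ^ (1 / q - 1 / p) * sg p Z₀) p := by
      refine ContinuousAt.mul ?_ continuousAt_const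
      refine ContinuousAt.rpow continuousAt_const ?_ (Or.inl hb.ne')
      exact (continuousAt_const.div continuousAt_id hp0).sub continuousAt_const
    have hval : hZ Z₀ < (fun q : ℝ =>
        (1 / ((N + 1 : ℕ) : ℝ)) ^ (1 / q - 1 / p) * sg p Z₀) p := by
      simpa using hlt
    have hev1 : ∀ᶠ q in nhdsWithin p (Set.Iio p),
        hZ Z₀ < (1 / ((N + 1 : ℕ) : ℝ)) ^ (1 / q - 1 / p) * sg p Z₀ :=
      (hcont.eventually_const_lt hval).filter_mono nhdsWithin_le_nhds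
    have hev2 : ∀ᶠ q in nhdsWithin p (Set.Iio p), q ∈ Set.Ioo 1 p :=
      Ioo_mem_nhdsLT hp
    obtain ⟨q, hq1, hq2, hq3⟩ := (hev1.and hev2).exists
    refine ⟨q, hq2.le, hq3, ?_⟩
    have hev3 : ∀ᶠ Z in nhds Z₀,
        hZ Z < (1 / ((N + 1 : ℕ) : ℝ)) ^ (1 / q - 1 / p) * sg p Z :=
      (continuous_hZ (by omega)).continuousAt.eventually_lt
        (continuous_const.mul (continuous_sg hp.le)).continuousAt hq1
    filter_upwards [hev3] with Z hZ1 r hr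
    exact hZ1.le.trans ((sg_ge hq2.le hq3.le Z).trans (sg_mono hq2.le hr Z))

end Pool.Agent.Lib.c113aaE
end
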