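import Pool.Agent.Lib.c113aaE.Defs

section

set_option autoImplicit false

namespace Pool.Agent.Lib.c113aaE

open Finset Polynomial Pool.MP_c113aa_an.BV

private noncomputable def ccG {N : ℕ} (Z : Fin (N + 1) → ℂ) (x : ℂ) : ℂ :=
  ∑ k, ∏ i ∈ univ.erase k, (x - Z i)

private theorem ccG_cont {N : ℕ} :
    Continuous (fun q : (Fin (N + 1) → ℂ) × ℂ => ccG q.1 q.2) := by
  unfold ccG
  refine continuous_finset_sum _ fun k _ => continuous_finset_prod _ fun i _ => ?_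
  exact continuous_snd.sub ((continuous_apply i).comp continuous_fst)

private theorem ccG_eq {N : ℕ} {Z : Fin (N + 1) → ℂ} {w : Fin N → ℂ} (h : CritOf Z w) (x : ℂ) :
    ccG Z x = ((N : ℂ) + 1) * ∏ j, (x - w j) := by
  have h1 : HasDerivAt (fun y : ℂ => ∏ k, (y - Z k)) (ccG Z x) x := by
    have h2 := HasDerivAt.fun_finset_prod (u := (univ : Finset (Fin (N + 1))))
      (f := fun k (y : ℂ) => y - Z k) (f' := fun _ => (1 : ℂ)) (x := x)
      (fun k _ => (hasDerivAt_id x).sub_const (Z k))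
    simpa [ccG] using h2
  exact h1.unique (h x)

private theorem cc_bound {N : ℕ} {Z : Fin (N + 1) → ℂ} {w : Fin N → ℂ} (h : CritOf Z w)
    (j : Fin N) : ‖w j‖ ≤ ‖Z‖ := by
  obtain ⟨d, S, hms, hS0, hrow, -, hd⟩ := exists_stochastic h
  have h1 : w j ∈ Multiset.map d Finset.univ.val := by
    rw [hms]
    exact Multiset.mem_map_of_mem w (Finset.mem_univ j)
  obtain ⟨i, -, hi⟩ := Multiset.mem_map.mp h1
  rw [← hi, hd i]
  calc ‖∑ k, (S i k : ℂ) * Z k‖ ≤ ∑ k, ‖(S i k : ℂ) * Z k‖ := norm_sum_le _ _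
    _ ≤ ∑ k, S i k * ‖Z‖ := by
        refine Finset.sum_le_sum fun k _ => ?_
        rw [norm_mul, Complex.norm_real, Real.norm_of_nonneg (hS0 i k)]
        exact mul_le_mul_of_nonneg_left (norm_le_pi_norm Z k) (hS0 i k)
    _ = ‖Z‖ := by rw [← Finset.sum_mul, hrow i, one_mul]

private theorem cc_small {N : ℕ} (x : ℂ) (w : Fin N → ℂ) {ε : ℝ} (hε : 0 < ε)
    (h : ‖((N : ℂ) + 1) * ∏ j, (x - w j)‖ < ((N : ℝ) + 1) * ε ^ N) :
    ∃ j, ‖x - w j‖ ≤ ε := by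
  by_contra hc
  push Not at hc
  have h1 : ε ^ N ≤ ∏ j, ‖x - w j‖ := by
    calc ε ^ N = ∏ _j : Fin N, ε := by simp
      _ ≤ ∏ j, ‖x - w j‖ := Finset.prod_le_prod (fun _ _ => hε.le) (fun j _ => (hc j).le)
  have h2 : ‖((N : ℂ) + 1) * ∏ j, (x - w j)‖ = ((N : ℝ) + 1) * ∏ j, ‖x - w j‖ := by
    rw [norm_mul, norm_prod]
    congr 1
    have h3 : ((N : ℂ) + 1) = (((N : ℝ) + 1 : ℝ) : ℂ) := by push_cast; rfl
    rw [h3, Complex.norm_real, Real.norm_of_nonneg (by positivity)]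
  rw [h2] at h
  have h4 : (0 : ℝ) < (N : ℝ) + 1 := by positivity
  have h5 := lt_of_mul_lt_mul_left h h4.le
  linarith

/-- The critical points depend continuously on the zeros.  Proof: let `P_Z (x) = ∏_k (x - Z k)`, so
that `P_Z' (x) = (N + 1) ∏_j (x - w j)` by `CritOf` (`HasDerivAt.unique`).  The map
`(Z, x) ↦ P_Z' (x)` is continuous (`P_Z' (x) = ∑_k ∏_{i ≠ k} (x - Z i)`).  For a critical point
`x = w₀ i` of `Z₀`: `∏_j ‖x - w j‖ = ‖P_Z' (x)‖ / (N + 1)` is small for `Z` near `Z₀`, so one factor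
is at most `ε` (otherwise the product is at least `ε^N`).  For a critical point `x = w j` of `Z`:
`‖w j‖ ≤ R := ‖Z₀‖ + 1` if `‖Z - Z₀‖ ≤ 1` (Gauss-Lucas; `exists_stochastic`, or
`Polynomial.rootSet_derivative_subset_convexHull_rootSet`), and
`∏_i ‖x - w₀ i‖ = ‖P_{Z₀}' (x)‖ / (N + 1) = ‖P_{Z₀}' (x) - P_Z' (x)‖ / (N + 1)` is small uniformly for
`‖x‖ ≤ R` (uniform continuity on the compact set `‖x‖ ≤ R`, `‖Z - Z₀‖ ≤ 1`; or directly with
`Finset.prod` differences). -/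
theorem crit_close {N : ℕ} (hN : 1 ≤ N) {Z₀ : Fin (N + 1) → ℂ} {w₀ : Fin N → ℂ}
    (h₀ : CritOf Z₀ w₀) {ε : ℝ} (hε : 0 < ε) :
    ∀ᶠ Z in nhds Z₀, ∀ w : Fin N → ℂ, CritOf Z w →
      (∀ j, ∃ i, ‖w j - w₀ i‖ ≤ ε) ∧ (∀ i, ∃ j, ‖w₀ i - w j‖ ≤ ε) := by
  have hδ : (0 : ℝ) < ((N : ℝ) + 1) * ε ^ N := by positivity
  have e1 : ∀ᶠ Z in nhds Z₀, ‖Z‖ < ‖Z₀‖ + 1 :=
    (continuous_norm.tendsto Z₀).eventually_lt_const (by linarith)
  have e2 : ∀ᶠ Z in nhds Z₀, ∀ x ∈ Metric.closedBall (0 : ℂ) (‖Z₀‖ + 1),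
      ‖ccG Z x - ccG Z₀ x‖ < ((N : ℝ) + 1) * ε ^ N := by
    refine IsCompact.eventually_forall_of_forall_eventually
      (isCompact_closedBall (0 : ℂ) (‖Z₀‖ + 1)) fun y _ => ?_
    have hc : Continuous (fun q : (Fin (N + 1) → ℂ) × ℂ => ‖ccG q.1 q.2 - ccG Z₀ q.2‖) :=
      (ccG_cont.sub (ccG_cont.comp (continuous_const.prodMk continuous_snd))).norm
    refine (hc.tendsto (Z₀, y)).eventually_lt_const ?_
    simpa using hδ
  filter_upwards [e1, e2] with Z h1 h2 w hw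
  constructor
  · intro j
    have hb : w j ∈ Metric.closedBall (0 : ℂ) (‖Z₀‖ + 1) := by
      rw [mem_closedBall_zero_iff]
      exact (cc_bound hw j).trans h1.le
    have h3 := h2 (w j) hb
    have h4 : ccG Z (w j) = 0 := by
      rw [ccG_eq hw, Finset.prod_eq_zero (Finset.mem_univ j) (sub_self _), mul_zero]
    rw [h4, zero_sub, norm_neg, ccG_eq h₀] at h3
    exact cc_small (w j) w₀ hε h3
  · intro i
    have hb : w₀ i ∈ Metric.closedBall (0 : ℂ) (‖Z₀‖ + 1) := by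
      rw [mem_closedBall_zero_iff]
      exact (cc_bound h₀ i).trans (by linarith)
    have h3 := h2 (w₀ i) hb
    have h4 : ccG Z₀ (w₀ i) = 0 := by
      rw [ccG_eq h₀, Finset.prod_eq_zero (Finset.mem_univ i) (sub_self _), mul_zero]
    rw [h4, sub_zero, ccG_eq hw] at h3
    exact cc_small (w₀ i) w hε h3

end Pool.Agent.Lib.c113aaE
end
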