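import Pool.Agent.Lib.c113aaT.Main

/-!
# The exponents of Borcea's problem in a fixed degree: definitions

`pz Z` is the monic polynomial with the zeros `Z k`, `hd F` the largest distance from a zero of `F`
to the nearest critical point, `pv n p F` the `p`-variance of the zeros, `ci F` their circumradius
(the case `p = infinity`), `Sp n F` says `F = a (z - c)^n - b`.  `hZ`, `sg`, `sI`, `Ext` are the same
for a vector `Z` of zeros.
-/

section

set_option autoImplicit false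

namespace Pool.Agent.Lib.c113aaE

open Finset Polynomial Pool.MP_c113aa_an.BV

/-- The monic polynomial with the zeros `Z k`. -/
noncomputable def pz {N : ℕ} (Z : Fin (N + 1) → ℂ) : ℂ[X] := ∏ k, (X - C (Z k))

/-- The largest distance from a zero of `F` to the nearest critical point. -/
noncomputable def hd (F : ℂ[X]) : ℝ :=
  sSup {d : ℝ | ∃ z ∈ F.roots, d = sInf {r : ℝ | ∃ w ∈ (derivative F).roots, r = ‖z - w‖}}

/-- The same for a vector of zeros. -/
noncomputable def hZ {N : ℕ} (Z : Fin (N + 1) → ℂ) : ℝ := hd (pz Z)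

/-- The `p`-variance of the zeros. -/
noncomputable def pv (n : ℕ) (p : ℝ) (F : ℂ[X]) : ℝ :=
  ⨅ c : ℂ, ((1 / (n : ℝ)) * (F.roots.map (fun z => ‖z - c‖ ^ p)).sum) ^ (1 / p)

/-- The same for a vector of zeros. -/
noncomputable def sg {N : ℕ} (p : ℝ) (Z : Fin (N + 1) → ℂ) : ℝ :=
  ⨅ c : ℂ, ((1 / ((N + 1 : ℕ) : ℝ)) * ∑ k, ‖Z k - c‖ ^ p) ^ (1 / p)

/-- The circumradius of the zeros. -/
noncomputable def ci (F : ℂ[X]) : ℝ := ⨅ c : ℂ, sSup {r : ℝ | ∃ z ∈ F.roots, r = ‖z - c‖}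

/-- The same for a vector of zeros. -/
noncomputable def sI {N : ℕ} (Z : Fin (N + 1) → ℂ) : ℝ := ⨅ c : ℂ, ⨆ k, ‖Z k - c‖

/-- `F = a (z - c)^n - b`. -/
def Sp (n : ℕ) (F : ℂ[X]) : Prop := ∃ a b c : ℂ, F = C a * (X - C c) ^ n - C b

/-- The same for a vector of zeros. -/
def Ext {N : ℕ} (Z : Fin (N + 1) → ℂ) : Prop := ∃ c b : ℂ, pz Z = (X - C c) ^ (N + 1) - C b

end Pool.Agent.Lib.c113aaE
end
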