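import Pool.Agent.Lib.c113aaE.Defs

section

set_option autoImplicit false

namespace Pool.Agent.Lib.c113aaE

open Finset Polynomial Pool.MP_c113aa_an.BV

/-- Proof: `‖a - w‖ = ‖‖a‖ - (x + i y)‖` with `x + i y = w conj a / ‖a‖`; so
`‖a - w‖ = √((r - x)^2 + y^2) ≤ (r - x) + y^2/(2 (r - x))`, `r = ‖a‖`, where `r - x = 1 + O(η)`,
`|y| ≤ η`. -/
theorem dist_est (C₁ : ℝ) (hC₁ : 0 ≤ C₁) : ∃ C η₀ : ℝ, 0 < C ∧ 0 < η₀ ∧ η₀ ≤ 1 ∧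
    ∀ (a w : ℂ) (η : ℝ), 0 ≤ η → η ≤ η₀ → |‖a‖ - 1| ≤ C₁ * η ^ 2 → ‖w‖ ≤ η →
    ‖a - w‖ ≤ ‖a‖ - (w * starRingEnd ℂ a / (‖a‖ : ℂ)).re +
      (w * starRingEnd ℂ a / (‖a‖ : ℂ)).im ^ 2 / 2 + C * η ^ 3 := by
  refine ⟨C₁ + 1, 1 / (2 * (C₁ + 1)), by linarith, by positivity, ?_, ?_⟩
  · rw [div_le_one (by positivity)]
    linarith
  intro a w η h0 h1 h2 h3
  have hη : (C₁ + 1) * η ≤ 1 / 2 := by
    rw [le_div_iff₀ (by positivity)] at h1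
    linarith
  have hη4 : 0 ≤ C₁ * η := mul_nonneg hC₁ h0
  have hη1 : η ≤ 1 := by linarith
  have hη2 : η ^ 2 ≤ η := by
    rw [pow_two]
    exact mul_le_of_le_one_left h0 hη1
  have hC2 : C₁ * η ^ 2 ≤ C₁ * η := mul_le_mul_of_nonneg_left hη2 hC₁
  have ha2 : a.re ^ 2 + a.im ^ 2 = ‖a‖ ^ 2 := by
    rw [Complex.sq_norm, Complex.normSq_apply]
    ring
  have hw2 : w.re ^ 2 + w.im ^ 2 = ‖w‖ ^ 2 := by
    rw [Complex.sq_norm, Complex.normSq_apply]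
    ring
  have haw : ‖a - w‖ ^ 2 = (a.re - w.re) ^ 2 + (a.im - w.im) ^ 2 := by
    rw [Complex.sq_norm, Complex.normSq_apply, Complex.sub_re, Complex.sub_im]
    ring
  have hx : (w * starRingEnd ℂ a / (‖a‖ : ℂ)).re = (w.re * a.re + w.im * a.im) / ‖a‖ := by
    rw [Complex.div_ofReal_re, Complex.mul_re, Complex.conj_re, Complex.conj_im]
    ring
  have hy : (w * starRingEnd ℂ a / (‖a‖ : ℂ)).im = (w.im * a.re - w.re * a.im) / ‖a‖ := by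
    rw [Complex.div_ofReal_im, Complex.mul_im, Complex.conj_re, Complex.conj_im]
    ring
  rw [hx, hy]
  generalize ‖a‖ = r at *
  have habs := abs_le.1 h2
  have hr : 1 / 2 ≤ r := by linarith [habs.1]
  have hr0 : r ≠ 0 := by linarith
  set x : ℝ := (w.re * a.re + w.im * a.im) / r with hxd
  set y : ℝ := (w.im * a.re - w.re * a.im) / r with hyd
  have hxr : x * r = w.re * a.re + w.im * a.im := by
    rw [hxd]
    field_simp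
  have hyr : y * r = w.im * a.re - w.re * a.im := by
    rw [hyd]
    field_simp
  have hxy : x ^ 2 + y ^ 2 = ‖w‖ ^ 2 := by
    have h4 : (x ^ 2 + y ^ 2) * r ^ 2 = ‖w‖ ^ 2 * r ^ 2 := by
      rw [← hw2, ← ha2]
      have h5 : (x ^ 2 + y ^ 2) * r ^ 2 = (x * r) ^ 2 + (y * r) ^ 2 := by ring
      rw [ha2, h5, hxr, hyr, ← ha2]
      ring
    exact mul_right_cancel₀ (pow_ne_zero 2 hr0) h4
  have hw0 : 0 ≤ ‖w‖ := norm_nonneg w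
  have hwη : ‖w‖ ^ 2 ≤ η ^ 2 := pow_le_pow_left₀ hw0 h3 2
  have hyη : y ^ 2 ≤ η ^ 2 := by linarith [sq_nonneg x]
  have hxη : x ^ 2 ≤ η ^ 2 := by linarith [sq_nonneg y]
  have hxle := abs_le_of_sq_le_sq' hxη h0
  have hsq : ‖a - w‖ ^ 2 = (r - x) ^ 2 + y ^ 2 := by
    rw [haw]
    have h6 : (r - x) ^ 2 + y ^ 2 = r ^ 2 - 2 * (x * r) + (x ^ 2 + y ^ 2) := by ring
    rw [h6, hxr, hxy, ← ha2, ← hw2]
    ring
  have hA : 1 / 2 ≤ r - x := by linarith [habs.1, hxle.2]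
  have hA1 : 1 - (r - x) ≤ (C₁ + 1) * η := by linarith [habs.1, hxle.2]
  have hη3 : 0 ≤ η ^ 3 := pow_nonneg h0 3
  have hC : 0 ≤ (C₁ + 1) * η ^ 3 := by positivity
  have hy0 : 0 ≤ y ^ 2 := sq_nonneg y
  have hrhs : 0 ≤ r - x + y ^ 2 / 2 + (C₁ + 1) * η ^ 3 := by linarith
  refine abs_le_of_sq_le_sq' ?_ hrhs |>.2
  rw [hsq]
  have h7 : y ^ 2 * (1 - (r - x)) ≤ (C₁ + 1) * η ^ 3 := by
    rcases le_or_gt 0 (1 - (r - x)) with h8 | h8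
    · calc y ^ 2 * (1 - (r - x)) ≤ η ^ 2 * (1 - (r - x)) := mul_le_mul_of_nonneg_right hyη h8
        _ ≤ η ^ 2 * ((C₁ + 1) * η) := mul_le_mul_of_nonneg_left hA1 (sq_nonneg η)
        _ = (C₁ + 1) * η ^ 3 := by ring
    · have : y ^ 2 * (1 - (r - x)) ≤ 0 := mul_nonpos_of_nonneg_of_nonpos hy0 h8.le
      linarith
  have h9 : (C₁ + 1) * η ^ 3 ≤ 2 * (r - x) * ((C₁ + 1) * η ^ 3) := by
    nlinarith [mul_nonneg (sub_nonneg.2 hA) hC]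
  have h10 : 0 ≤ (y ^ 2 / 2 + (C₁ + 1) * η ^ 3) ^ 2 := sq_nonneg _
  have h11 : (r - x + y ^ 2 / 2 + (C₁ + 1) * η ^ 3) ^ 2 = (r - x) ^ 2 + y ^ 2 -
      y ^ 2 * (1 - (r - x)) + 2 * (r - x) * ((C₁ + 1) * η ^ 3) +
      (y ^ 2 / 2 + (C₁ + 1) * η ^ 3) ^ 2 := by ring
  rw [h11]
  linarith

end Pool.Agent.Lib.c113aaE
end
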