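import Pool.Agent.Lib.c113aaE.Defs

section

set_option autoImplicit false

namespace Pool.Agent.Lib.c113aaE

open Finset Polynomial Pool.MP_c113aa_an.BV

private theorem Newton_rev {ι : Type*} (s : Finset ι) (Z : ι → ℂ) :
    (∏ k ∈ s, (X - C (Z k)) : ℂ[X]).reverse = ∏ k ∈ s, (1 - C (Z k) * X) := by
  classical
  induction s using Finset.induction_on with
  | empty => rw [Finset.prod_empty, Finset.prod_empty, ← C_1, reverse_C]
  | insert a s ha ih =>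
    rw [Finset.prod_insert ha, Finset.prod_insert ha, reverse_mul_of_domain, ih]
    congr 1
    unfold reverse
    rw [natDegree_X_sub_C, reflect_sub, reflect_one_X, reflect_C, pow_one]

private theorem Newton_ind {ι : Type*} (s : Finset ι) (Z : ι → ℂ) :
    (∏ k ∈ s, (1 - C (Z k) * X) : ℂ[X]).coeff 0 = 1 ∧
    ∑ k ∈ s, Z k = -(∏ k ∈ s, (1 - C (Z k) * X) : ℂ[X]).coeff 1 ∧
    ∑ k ∈ s, Z k ^ 2 = (∏ k ∈ s, (1 - C (Z k) * X) : ℂ[X]).coeff 1 ^ 2 -
      2 * (∏ k ∈ s, (1 - C (Z k) * X) : ℂ[X]).coeff 2 ∧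
    ∑ k ∈ s, Z k ^ 3 = -(∏ k ∈ s, (1 - C (Z k) * X) : ℂ[X]).coeff 1 ^ 3 +
      3 * (∏ k ∈ s, (1 - C (Z k) * X) : ℂ[X]).coeff 1 *
        (∏ k ∈ s, (1 - C (Z k) * X) : ℂ[X]).coeff 2 -
      3 * (∏ k ∈ s, (1 - C (Z k) * X) : ℂ[X]).coeff 3 := by
  classical
  induction s using Finset.induction_on with
  | empty =>
    rw [Finset.prod_empty, Finset.sum_empty, Finset.sum_empty, Finset.sum_empty]
    simp [coeff_one]
  | insert a s ha ih =>
    rw [Finset.prod_insert ha, Finset.sum_insert ha, Finset.sum_insert ha, Finset.sum_insert ha]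
    generalize (∏ k ∈ s, (1 - C (Z k) * X) : ℂ[X]) = Q at ih ⊢
    obtain ⟨h0, h1, h2, h3⟩ := ih
    have key : ∀ j : ℕ, ((1 - C (Z a) * X) * Q).coeff (j + 1) = Q.coeff (j + 1) - Z a * Q.coeff j := by
      intro j
      have e : (1 - C (Z a) * X) * Q = Q - C (Z a) * (X * Q) := by ring
      rw [e, coeff_sub, coeff_C_mul, coeff_X_mul]
    have key0 : ((1 - C (Z a) * X) * Q).coeff 0 = 1 := by
      rw [mul_coeff_zero, h0]
      simp
    rw [key0, key 0, key 1, key 2, h1, h2, h3, h0]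
    refine ⟨rfl, by ring, by ring, by ring⟩

/-- Power sums in terms of coefficients (`e₁ = 0`). Proof: Newton's identities
`p₂ = e₁^2 - 2 e₂`, `p₃ = e₁^3 - 3 e₁ e₂ + 3 e₃`
(`MvPolynomial.psum_eq_mul_esymm_sub_sum` and `Multiset.prod_X_sub_C_coeff`, or by induction for the
coefficients 1, 2, 3 of `∏ (1 - X Z_k)`). -/
theorem newton {M : ℕ} (hM : 3 ≤ M) (Z : Fin M → ℂ) (h : ∑ k, Z k = 0) :
    ∑ k, Z k ^ 2 = -2 * (∏ k, (X - C (Z k)) : ℂ[X]).coeff (M - 2) ∧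
      ∑ k, Z k ^ 3 = -3 * (∏ k, (X - C (Z k)) : ℂ[X]).coeff (M - 3) := by
  obtain ⟨-, h1, h2, h3⟩ := Newton_ind Finset.univ Z
  have hd : (∏ k, (X - C (Z k)) : ℂ[X]).natDegree = M := by
    rw [natDegree_prod_of_monic _ _ fun k _ => monic_X_sub_C (Z k)]
    simp
  have hc : ∀ j ≤ M, (∏ k, (1 - C (Z k) * X) : ℂ[X]).coeff j =
      (∏ k, (X - C (Z k)) : ℂ[X]).coeff (M - j) := by
    intro j hj
    rw [← Newton_rev, coeff_reverse, hd, revAt_le hj]
  rw [h] at h1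
  have h4 : (∏ k, (1 - C (Z k) * X) : ℂ[X]).coeff 1 = 0 := by linear_combination h1
  rw [h4, hc 2 (by omega)] at h2
  rw [h4, hc 3 hM] at h3
  exact ⟨by linear_combination h2, by linear_combination h3⟩

end Pool.Agent.Lib.c113aaE
end
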