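import Pool.Agent.Lib.c113aaE.Nrm
import Pool.Agent.Lib.c113aaE.Newton

section

set_option autoImplicit false

namespace Pool.Agent.Lib.c113aaE

open Finset Polynomial Pool.MP_c113aa_an.BV

private theorem sums_pow_le {N : ℕ} (w : Fin N → ℂ) {η : ℝ} (hw : ∀ j, ‖w j‖ ≤ η) (m : ℕ) :
    ‖∑ j, w j ^ m‖ ≤ N * η ^ m := by
  refine (norm_sum_le _ _).trans ?_
  have h1 : ∀ j ∈ (univ : Finset (Fin N)), ‖w j ^ m‖ ≤ η ^ m := by
    intro j _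
    rw [norm_pow]
    exact pow_le_pow_left₀ (norm_nonneg _) (hw j) m
  refine (Finset.sum_le_sum h1).trans ?_
  rw [Finset.sum_const, Finset.card_univ, Fintype.card_fin, nsmul_eq_mul]

/-- Power sums of the zeros.  Proof: `∑ Z = 0` by `CritOf.mean`.  Comparing coefficients in
`critOf_iff` (`coeff_derivative`): `(N + 1 - j) e_j(Z) = (N + 1) e_j(w)` for `j = 2, 3` (here `N ≥ 3`
is used), that is `(N + 1 - j) (∏ (X - C (Z k))).coeff (N + 1 - j) = (N + 1) (∏ (X - C (w j))).coeff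
(N - j)`, and by `newton` for `w` and for `Z`:
`∑ Z^2 = (N+1)/(N-1) ∑ w^2`, `∑ Z^3 = (N+1)/(N-2) ∑ w^3`. -/
theorem sums {N : ℕ} (hN : 3 ≤ N) : ∃ C : ℝ, 0 < C ∧
    ∀ (Z : Fin (N + 1) → ℂ) (w : Fin N → ℂ) (η : ℝ), Nrm Z w η →
    ∑ k, Z k = 0 ∧ ‖∑ k, Z k ^ 2‖ ≤ C * η ^ 2 ∧ ‖∑ k, Z k ^ 3‖ ≤ C * η ^ 3 := by
  obtain ⟨M, rfl⟩ : ∃ M, N = M + 3 := ⟨N - 3, by omega⟩
  refine ⟨((M : ℝ) + 4) * ((M : ℝ) + 3), by positivity, fun Z w η h => ?_⟩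
  have hMpos : (0 : ℝ) ≤ M := Nat.cast_nonneg M
  have hη : 0 ≤ η := h.nonneg
  have hZ : ∑ k, Z k = 0 := by
    have h1 := h.crit.mean
    rw [h.sum, mul_zero] at h1
    have h2 : (((M + 3 : ℕ) : ℂ)) ≠ 0 := by
      exact_mod_cast (by omega : M + 3 ≠ 0)
    exact (mul_eq_zero.1 h1.symm).resolve_left h2
  obtain ⟨w2, w3⟩ := newton (M := M + 3) (by omega) w h.sum
  obtain ⟨z2, z3⟩ := newton (M := M + 3 + 1) (by omega) Z hZ
  rw [show M + 3 - 2 = M + 1 by omega] at w2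
  rw [show M + 3 - 3 = M by omega] at w3
  rw [show M + 3 + 1 - 2 = M + 2 by omega] at z2
  rw [show M + 3 + 1 - 3 = M + 1 by omega] at z3
  have hc := (critOf_iff Z w).1 h.crit
  have c1 := congrArg (fun p : ℂ[X] => p.coeff (M + 1)) hc
  have c0 := congrArg (fun p : ℂ[X] => p.coeff M) hc
  simp only [coeff_derivative, coeff_C_mul] at c1 c0
  push_cast at c1 c0
  have e2 : ((M : ℂ) + 2) * ∑ k, Z k ^ 2 = ((M : ℂ) + 4) * ∑ j, w j ^ 2 := by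
    rw [z2, w2]
    linear_combination (-2) * c1
  have e3 : ((M : ℂ) + 1) * ∑ k, Z k ^ 3 = ((M : ℂ) + 4) * ∑ j, w j ^ 3 := by
    rw [z3, w3]
    linear_combination (-3) * c0
  have n2 : ‖((M : ℂ) + 2)‖ = (M : ℝ) + 2 := by
    have : ((M : ℂ) + 2) = (((M : ℝ) + 2 : ℝ) : ℂ) := by push_cast; ring
    rw [this, Complex.norm_real, Real.norm_of_nonneg (by positivity)]
  have n1 : ‖((M : ℂ) + 1)‖ = (M : ℝ) + 1 := by
    have : ((M : ℂ) + 1) = (((M : ℝ) + 1 : ℝ) : ℂ) := by push_cast; ring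
    rw [this, Complex.norm_real, Real.norm_of_nonneg (by positivity)]
  have n4 : ‖((M : ℂ) + 4)‖ = (M : ℝ) + 4 := by
    have : ((M : ℂ) + 4) = (((M : ℝ) + 4 : ℝ) : ℂ) := by push_cast; ring
    rw [this, Complex.norm_real, Real.norm_of_nonneg (by positivity)]
  have b2 := sums_pow_le w h.le 2
  have b3 := sums_pow_le w h.le 3
  push_cast at b2 b3
  have m2 := congrArg norm e2
  have m3 := congrArg norm e3
  rw [norm_mul, norm_mul, n2, n4] at m2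
  rw [norm_mul, norm_mul, n1, n4] at m3
  refine ⟨hZ, ?_, ?_⟩
  · have h5 : ((M : ℝ) + 4) * ‖∑ j, w j ^ 2‖ ≤ ((M : ℝ) + 4) * (((M : ℝ) + 3) * η ^ 2) :=
      mul_le_mul_of_nonneg_left b2 (by positivity)
    have h6 : 0 ≤ ‖∑ k, Z k ^ 2‖ := norm_nonneg _
    nlinarith [mul_nonneg hMpos h6]
  · have h5 : ((M : ℝ) + 4) * ‖∑ j, w j ^ 3‖ ≤ ((M : ℝ) + 4) * (((M : ℝ) + 3) * η ^ 3) :=
      mul_le_mul_of_nonneg_left b3 (by positivity)
    have h6 : 0 ≤ ‖∑ k, Z k ^ 3‖ := norm_nonneg _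
    nlinarith [mul_nonneg hMpos h6]

end Pool.Agent.Lib.c113aaE
end
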