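import Pool.Agent.Lib.c113aaE.Zeros
import Pool.Agent.Lib.c113aaE.Sums

section

set_option autoImplicit false

namespace Pool.Agent.Lib.c113aaE

open Finset Polynomial Pool.MP_c113aa_an.BV

private theorem dualB_term {C1 η e : ℝ} {z : ℂ} (hC1 : 0 < C1) (h0 : 0 ≤ η) (h1 : η ≤ 1)
    (hz : z ≠ 0) (a1 : |‖z‖ - 1| ≤ C1 * η ^ 2) (a2 : |‖z‖ - 1 + e| ≤ C1 * η ^ 3) :
    ‖z / (‖z‖ : ℂ) - z - z * (e : ℂ)‖ ≤ (C1 + 2 * C1 ^ 2) * η ^ 3 := by
  have hr : 0 < ‖z‖ := norm_pos_iff.2 hz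
  have hrc : (‖z‖ : ℂ) ≠ 0 := by exact_mod_cast hr.ne'
  have e1 : z / (‖z‖ : ℂ) - z - z * (e : ℂ) = z * (((1 / ‖z‖ - 1 - e : ℝ)) : ℂ) := by
    push_cast
    field_simp
  rw [e1, norm_mul, Complex.norm_real, Real.norm_eq_abs]
  have e2 : ‖z‖ * |1 / ‖z‖ - 1 - e| = |(‖z‖ - 1 + e) + (‖z‖ - 1) * e| := by
    have e3 : (‖z‖ - 1 + e) + (‖z‖ - 1) * e = -(‖z‖ * (1 / ‖z‖ - 1 - e)) := by
      field_simp
      ring
    rw [e3, abs_neg, abs_mul, abs_of_pos hr]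
  rw [e2]
  have h3 : η ^ 3 ≤ η ^ 2 := pow_le_pow_of_le_one h0 h1 (by norm_num)
  have h4 : η ^ 4 ≤ η ^ 3 := pow_le_pow_of_le_one h0 h1 (by norm_num)
  have he : |e| ≤ 2 * C1 * η ^ 2 := by
    have : e = (‖z‖ - 1 + e) - (‖z‖ - 1) := by ring
    calc |e| = |(‖z‖ - 1 + e) - (‖z‖ - 1)| := by rw [← this]
      _ ≤ |‖z‖ - 1 + e| + |‖z‖ - 1| := abs_sub _ _
      _ ≤ C1 * η ^ 3 + C1 * η ^ 2 := add_le_add a2 a1
      _ ≤ 2 * C1 * η ^ 2 := by nlinarith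
  calc |(‖z‖ - 1 + e) + (‖z‖ - 1) * e| ≤ |‖z‖ - 1 + e| + |(‖z‖ - 1) * e| := abs_add_le _ _
    _ = |‖z‖ - 1 + e| + |‖z‖ - 1| * |e| := by rw [abs_mul]
    _ ≤ C1 * η ^ 3 + (C1 * η ^ 2) * (2 * C1 * η ^ 2) := by
        refine add_le_add a2 (mul_le_mul a1 he (abs_nonneg _) (by positivity))
    _ = C1 * η ^ 3 + 2 * C1 ^ 2 * η ^ 4 := by ring
    _ ≤ C1 * η ^ 3 + 2 * C1 ^ 2 * η ^ 3 := by
        have : 0 ≤ 2 * C1 ^ 2 := by positivity
        nlinarith [mul_le_mul_of_nonneg_left h4 this]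
    _ = (C1 + 2 * C1 ^ 2) * η ^ 3 := by ring

/-- Proof: by `zeros`, `1/‖Z k‖ = 1 - (‖Z k‖ - 1) + O(η^4) = 1 + (1/n) re (a (conj Z k)^2) + O(η^3)`,
`n = N + 1`, `a = cA w = O(η^2)`; so
`∑ Z k/‖Z k‖ = ∑ Z k + (1/(2n)) (a ∑ Z k (conj Z k)^2 + conj a ∑ (Z k)^3) + O(η^3)`, and
`Z k (conj Z k)^2 = ‖Z k‖^2 conj (Z k) = conj (Z k) + O(η^2)`; use `sums`.  Similarly
`∑ ‖Z k‖ = n - (1/n) re (a ∑ (conj Z k)^2) + O(η^3)`. -/
theorem V_est {N : ℕ} (hN : 3 ≤ N) : ∃ C η₀ : ℝ, 0 < C ∧ 0 < η₀ ∧ η₀ ≤ 1 ∧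
    ∀ (Z : Fin (N + 1) → ℂ) (w : Fin N → ℂ) (η : ℝ), Nrm Z w η → η ≤ η₀ →
    (∀ k, Z k ≠ 0) ∧ ‖∑ k, Z k / (‖Z k‖ : ℂ)‖ ≤ C * η ^ 3 ∧
      (N : ℝ) + 1 - C * η ^ 3 ≤ ∑ k, ‖Z k‖ := by
  obtain ⟨C1, η1, hC1, h1, h1', H1⟩ := zeros hN
  obtain ⟨C2, hC2, H2⟩ := sums hN
  have hn : (0 : ℝ) < (N : ℝ) + 1 := by positivity
  have hK : (0 : ℝ) ≤ ((N : ℝ) + 1) * N := by positivity
  obtain ⟨K, hKdef⟩ : ∃ K : ℝ, K = ((N : ℝ) + 1) * N := ⟨_, rfl⟩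
  obtain ⟨n, hndef⟩ : ∃ n : ℝ, n = (N : ℝ) + 1 := ⟨_, rfl⟩
  have hn1 : 1 ≤ n := by rw [hndef]; have : (0 : ℝ) ≤ N := by positivity
                         linarith
  have hn0 : 0 < n := by linarith
  rw [← hKdef] at hK
  refine ⟨n * (C1 + 2 * C1 ^ 2) + 3 * C1 * K + K * C2, min η1 (1 / (1 + 2 * C1)), by positivity,
    by positivity, le_trans (min_le_left _ _) h1', ?_⟩
  intro Z w η hZ hη
  have g0 : 0 ≤ η := hZ.nonneg
  have g1 : η ≤ η1 := le_trans hη (min_le_left _ _)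
  have g2 : η ≤ 1 / (1 + 2 * C1) := le_trans hη (min_le_right _ _)
  have g3 : η ≤ 1 := le_trans g1 h1'
  have p23 : η ^ 3 ≤ η ^ 2 := pow_le_pow_of_le_one g0 g3 (by norm_num)
  have p34 : η ^ 4 ≤ η ^ 3 := pow_le_pow_of_le_one g0 g3 (by norm_num)
  have p35 : η ^ 5 ≤ η ^ 3 := pow_le_pow_of_le_one g0 g3 (by norm_num)
  have p12 : η ^ 2 ≤ η := by
    have := pow_le_pow_of_le_one g0 g3 (show 1 ≤ 2 by norm_num)
    simpa using this
  have p03 : 0 ≤ η ^ 3 := by positivity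
  have g4 : C1 * η ^ 2 ≤ 1 / 2 := by
    rw [le_div_iff₀ (by positivity)] at g2
    nlinarith
  have Hk := H1 Z w η hZ g1
  obtain ⟨S1, S2, S3⟩ := H2 Z w η hZ
  have ha : ‖cA w‖ ≤ K * η ^ 2 := by
    rw [hKdef]; exact norm_cA_le (by omega) w hZ.le
  obtain ⟨a, hadef⟩ : ∃ a : ℂ, a = cA w := ⟨_, rfl⟩
  rw [← hadef] at ha
  have hz : ∀ k, Z k ≠ 0 := by
    intro k hk
    have := (Hk k).2.1
    rw [hk, norm_zero] at this
    norm_num at this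
    linarith
  refine ⟨hz, ?_, ?_⟩
  · -- the vector
    have eT : ∀ k, ‖Z k / (‖Z k‖ : ℂ) - Z k -
        Z k * ((1 / n * (a * (starRingEnd ℂ (Z k)) ^ 2).re : ℝ) : ℂ)‖ ≤
        (C1 + 2 * C1 ^ 2) * η ^ 3 := fun k => by
      refine dualB_term hC1 g0 g3 (hz k) (Hk k).2.1 ?_
      rw [hadef, hndef]
      exact (Hk k).2.2
    have e1 : ∑ k, Z k / (‖Z k‖ : ℂ) = ∑ k, (Z k / (‖Z k‖ : ℂ) - Z k -
        Z k * ((1 / n * (a * (starRingEnd ℂ (Z k)) ^ 2).re : ℝ) : ℂ)) +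
        (1 / (2 * n) : ℂ) * (a * ∑ k, Z k * (starRingEnd ℂ (Z k)) ^ 2 +
          (starRingEnd ℂ a) * ∑ k, Z k ^ 3) := by
      have e2 : (1 / (2 * n) : ℂ) * (a * ∑ k, Z k * (starRingEnd ℂ (Z k)) ^ 2 +
          (starRingEnd ℂ a) * ∑ k, Z k ^ 3) =
          ∑ k, Z k * ((1 / n * (a * (starRingEnd ℂ (Z k)) ^ 2).re : ℝ) : ℂ) := by
        rw [Finset.mul_sum, Finset.mul_sum, ← Finset.sum_add_distrib, Finset.mul_sum]
        refine Finset.sum_congr rfl fun k _ => ?_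
        rw [Complex.ofReal_mul, Complex.re_eq_add_conj, map_mul, map_pow, Complex.conj_conj]
        push_cast
        have : (n : ℂ) ≠ 0 := by exact_mod_cast hn0.ne'
        field_simp
      rw [e2, Finset.sum_sub_distrib, Finset.sum_sub_distrib, S1]
      ring
    have b1 : ‖∑ k, (Z k / (‖Z k‖ : ℂ) - Z k -
        Z k * ((1 / n * (a * (starRingEnd ℂ (Z k)) ^ 2).re : ℝ) : ℂ))‖ ≤
        n * ((C1 + 2 * C1 ^ 2) * η ^ 3) := by
      refine (norm_sum_le _ _).trans ?_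
      refine (Finset.sum_le_sum fun k _ => eT k).trans ?_
      rw [Finset.sum_const, Finset.card_univ, Fintype.card_fin, nsmul_eq_mul, hndef]
      push_cast
      exact le_refl _
    have b2 : ‖∑ k, Z k * (starRingEnd ℂ (Z k)) ^ 2‖ ≤ n * (6 * C1 * η ^ 2) := by
      have e3 : ∑ k, Z k * (starRingEnd ℂ (Z k)) ^ 2 =
          ∑ k, (((‖Z k‖ ^ 2 - 1 : ℝ)) : ℂ) * (starRingEnd ℂ (Z k)) := by
        have e4 : ∑ k, (starRingEnd ℂ (Z k)) = 0 := by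
          rw [← map_sum, S1, map_zero]
        have e5 : ∑ k, Z k * (starRingEnd ℂ (Z k)) ^ 2 =
            ∑ k, (Z k * (starRingEnd ℂ (Z k)) ^ 2 - (starRingEnd ℂ (Z k))) := by
          rw [Finset.sum_sub_distrib, e4, sub_zero]
        rw [e5]
        refine Finset.sum_congr rfl fun k _ => ?_
        have e6 : Z k * (starRingEnd ℂ (Z k)) = ((‖Z k‖ ^ 2 : ℝ) : ℂ) := by
          rw [Complex.mul_conj, Complex.normSq_eq_norm_sq]
        rw [sq, ← mul_assoc, e6]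
        push_cast
        ring
      rw [e3]
      refine (norm_sum_le _ _).trans ?_
      have e7 : ∀ k, ‖(((‖Z k‖ ^ 2 - 1 : ℝ)) : ℂ) * (starRingEnd ℂ (Z k))‖ ≤ 6 * C1 * η ^ 2 := by
        intro k
        obtain ⟨q1, q2, -⟩ := Hk k
        rw [norm_mul, Complex.norm_real, Real.norm_eq_abs, RCLike.norm_conj]
        have e8 : ‖Z k‖ ^ 2 - 1 = (‖Z k‖ - 1) * (‖Z k‖ + 1) := by ring
        have hZ0 : 0 ≤ ‖Z k‖ := norm_nonneg _
        rw [e8, abs_mul, abs_of_nonneg (by linarith : (0 : ℝ) ≤ ‖Z k‖ + 1)]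
        calc |‖Z k‖ - 1| * (‖Z k‖ + 1) * ‖Z k‖ ≤ (C1 * η ^ 2) * 3 * 2 := by
              refine mul_le_mul (mul_le_mul q2 (by linarith) (by linarith) (by positivity)) q1 hZ0
                (by positivity)
          _ = 6 * C1 * η ^ 2 := by ring
      refine (Finset.sum_le_sum fun k _ => e7 k).trans ?_
      rw [Finset.sum_const, Finset.card_univ, Fintype.card_fin, nsmul_eq_mul, hndef]
      push_cast
      exact le_refl _
    have b3 : ‖a * ∑ k, Z k * (starRingEnd ℂ (Z k)) ^ 2 + (starRingEnd ℂ a) * ∑ k, Z k ^ 3‖ ≤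
        (2 * n) * ((3 * C1 * K + K * C2) * η ^ 3) := by
      refine (norm_add_le _ _).trans ?_
      rw [norm_mul, norm_mul, RCLike.norm_conj]
      have c1 : ‖a‖ * ‖∑ k, Z k * (starRingEnd ℂ (Z k)) ^ 2‖ ≤ (K * η ^ 2) * (n * (6 * C1 * η ^ 2)) :=
        mul_le_mul ha b2 (norm_nonneg _) (by positivity)
      have c2 : ‖a‖ * ‖∑ k, Z k ^ 3‖ ≤ (K * η ^ 2) * (C2 * η ^ 3) :=
        mul_le_mul ha S3 (norm_nonneg _) (by positivity)
      have c3 : (K * η ^ 2) * (n * (6 * C1 * η ^ 2)) ≤ (6 * C1 * K * n) * η ^ 3 := by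
        have : (K * η ^ 2) * (n * (6 * C1 * η ^ 2)) = (6 * C1 * K * n) * η ^ 4 := by ring
        rw [this]
        exact mul_le_mul_of_nonneg_left p34 (by positivity)
      have c4 : (K * η ^ 2) * (C2 * η ^ 3) ≤ (K * C2) * η ^ 3 := by
        have : (K * η ^ 2) * (C2 * η ^ 3) = (K * C2) * η ^ 5 := by ring
        rw [this]
        exact mul_le_mul_of_nonneg_left p35 (by positivity)
      have c5 : (K * C2) * η ^ 3 ≤ (2 * n) * ((K * C2) * η ^ 3) := by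
        have : 0 ≤ (K * C2) * η ^ 3 := by positivity
        nlinarith
      calc ‖a‖ * ‖∑ k, Z k * (starRingEnd ℂ (Z k)) ^ 2‖ + ‖a‖ * ‖∑ k, Z k ^ 3‖
          ≤ (6 * C1 * K * n) * η ^ 3 + (2 * n) * ((K * C2) * η ^ 3) := by linarith
        _ = (2 * n) * ((3 * C1 * K + K * C2) * η ^ 3) := by ring
    have b4 : ‖(1 / (2 * n) : ℂ) * (a * ∑ k, Z k * (starRingEnd ℂ (Z k)) ^ 2 +
          (starRingEnd ℂ a) * ∑ k, Z k ^ 3)‖ ≤ (3 * C1 * K + K * C2) * η ^ 3 := by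
      rw [norm_mul]
      have : ‖(1 / (2 * n) : ℂ)‖ = 1 / (2 * n) := by
        have e9 : (1 / (2 * n) : ℂ) = ((1 / (2 * n) : ℝ) : ℂ) := by push_cast; ring
        rw [e9, Complex.norm_real, Real.norm_eq_abs, abs_of_pos (by positivity)]
      rw [this, div_mul_eq_mul_div, one_mul, div_le_iff₀ (by positivity)]
      linarith
    rw [e1]
    refine (norm_add_le _ _).trans ?_
    calc _ ≤ n * ((C1 + 2 * C1 ^ 2) * η ^ 3) + (3 * C1 * K + K * C2) * η ^ 3 := add_le_add b1 b4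
      _ = _ := by ring
  · -- the sum of the moduli
    have e1 : ∑ k, (1 - 1 / n * (a * (starRingEnd ℂ (Z k)) ^ 2).re - C1 * η ^ 3) ≤ ∑ k, ‖Z k‖ := by
      refine Finset.sum_le_sum fun k _ => ?_
      have := (Hk k).2.2
      rw [← hadef, ← hndef] at this
      have := (abs_le.1 this).1
      linarith
    have e2 : ∑ k, (1 - 1 / n * (a * (starRingEnd ℂ (Z k)) ^ 2).re - C1 * η ^ 3) =
        n - 1 / n * (a * starRingEnd ℂ (∑ k, Z k ^ 2)).re - n * (C1 * η ^ 3) := by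
      rw [Finset.sum_sub_distrib, Finset.sum_sub_distrib, ← Finset.mul_sum, ← Complex.re_sum,
        ← Finset.mul_sum, map_sum]
      simp only [Finset.sum_const, Finset.card_univ, Fintype.card_fin, nsmul_eq_mul, map_pow]
      rw [hndef]
      push_cast
      ring
    have e3 : (a * starRingEnd ℂ (∑ k, Z k ^ 2)).re ≤ K * C2 * η ^ 3 := by
      refine (Complex.re_le_norm _).trans ?_
      rw [norm_mul, RCLike.norm_conj]
      calc ‖a‖ * ‖∑ k, Z k ^ 2‖ ≤ (K * η ^ 2) * (C2 * η ^ 2) :=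
            mul_le_mul ha S2 (norm_nonneg _) (by positivity)
        _ = (K * C2) * η ^ 4 := by ring
        _ ≤ K * C2 * η ^ 3 := mul_le_mul_of_nonneg_left p34 (by positivity)
    have e4 : 1 / n * (a * starRingEnd ℂ (∑ k, Z k ^ 2)).re ≤ K * C2 * η ^ 3 := by
      have h5 : 1 / n ≤ 1 := by rw [div_le_one hn0]; exact hn1
      have h6 : 0 < 1 / n := by positivity
      have h7 : 0 ≤ K * C2 * η ^ 3 := by positivity
      calc 1 / n * (a * starRingEnd ℂ (∑ k, Z k ^ 2)).re ≤ 1 / n * (K * C2 * η ^ 3) :=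
            mul_le_mul_of_nonneg_left e3 h6.le
        _ ≤ 1 * (K * C2 * η ^ 3) := mul_le_mul_of_nonneg_right h5 h7
        _ = K * C2 * η ^ 3 := one_mul _
    rw [e2] at e1
    rw [← hndef]
    refine le_trans ?_ e1
    have h8 : 0 ≤ 2 * C1 ^ 2 * n * η ^ 3 := by positivity
    have h9 : 0 ≤ 3 * C1 * K * η ^ 3 := by positivity
    nlinarith [h8, h9, e4]

end Pool.Agent.Lib.c113aaE
end
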