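import Pool.Agent.Lib.c113aaE.DualA
import Pool.Agent.Lib.c113aaE.DualB

section

set_option autoImplicit false

namespace Pool.Agent.Lib.c113aaE

open Finset Polynomial Pool.MP_c113aa_an.BV

/-- From `dual_gen` and `V_est`. -/
theorem dual {N : ℕ} (hN : 3 ≤ N) : ∃ C η₀ : ℝ, 0 < C ∧ 0 < η₀ ∧ η₀ ≤ 1 ∧
    ∀ (Z : Fin (N + 1) → ℂ) (w : Fin N → ℂ) (η : ℝ), Nrm Z w η → η ≤ η₀ → ∀ m : ℂ,
    (N : ℝ) + 1 - C * η ^ 3 ≤ ∑ k, ‖Z k - m‖ := by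
  obtain ⟨C, η₀, hC, h0, h1, H⟩ := V_est hN
  obtain ⟨C', hC', H'⟩ := sums hN
  refine ⟨2 * C, η₀, by positivity, h0, h1, fun Z w η hZ hη m => ?_⟩
  obtain ⟨hz, hV, hA⟩ := H Z w η hZ hη
  have hs := (H' Z w η hZ).1
  have hd := dual_gen Z hz hs m
  have hη0 : 0 ≤ η := hZ.nonneg
  have h3 : 0 ≤ C * η ^ 3 := by positivity
  have hn : (0 : ℝ) < (N : ℝ) + 1 := by positivity
  have hV0 : 0 ≤ ‖∑ k, Z k / (‖Z k‖ : ℂ)‖ := norm_nonneg _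
  generalize ‖∑ k, Z k / (‖Z k‖ : ℂ)‖ = V at hd hV hV0
  generalize ∑ k, ‖Z k - m‖ = S at hd ⊢
  generalize ∑ k, ‖Z k‖ = A at hd hA
  by_cases hS : (N : ℝ) + 1 ≤ S
  · linarith
  · have hS' : S ≤ (N : ℝ) + 1 := (not_le.mp hS).le
    have h4 : V / ((N : ℝ) + 1) * S ≤ V := by
      rw [div_mul_eq_mul_div, div_le_iff₀ hn]
      exact mul_le_mul_of_nonneg_left hS' hV0
    have h5 : (1 + V / ((N : ℝ) + 1)) * S = S + V / ((N : ℝ) + 1) * S := by ring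
    rw [h5] at hd
    linarith

end Pool.Agent.Lib.c113aaE
end
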