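import Pool.Agent.Lib.c113aaE.Defs

section

set_option autoImplicit false

namespace Pool.Agent.Lib.c113aaE

open Finset Polynomial Pool.MP_c113aa_an.BV

private theorem dualA_unit {z : ℂ} (hz : z ≠ 0) :
    ‖(starRingEnd ℂ) z / (‖z‖ : ℂ)‖ = 1 ∧ (starRingEnd ℂ) z / (‖z‖ : ℂ) * z = (‖z‖ : ℂ) := by
  have h1 : (‖z‖ : ℂ) ≠ 0 := by
    exact_mod_cast norm_ne_zero_iff.2 hz
  constructor
  · rw [norm_div, Complex.norm_real, norm_norm]
    rw [show ‖(starRingEnd ℂ) z‖ = ‖z‖ from Complex.norm_conj z]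
    exact div_self (norm_ne_zero_iff.2 hz)
  · rw [div_mul_eq_mul_div, mul_comm ((starRingEnd ℂ) z) z, Complex.mul_conj']
    field_simp

/-- Duality.  Proof: with `V = ∑ Z k / ‖Z k‖`, `n = N + 1`, put
`u k = (conj (Z k) / ‖Z k‖ - conj V / n) / (1 + ‖V‖ / n)`.  Then `‖u k‖ ≤ 1` and `∑ u k = 0`, so
`∑ ‖Z k - m‖ ≥ re ∑ u k (Z k - m) = re ∑ u k Z k = (∑ ‖Z k‖) / (1 + ‖V‖ / n)` by `∑ Z k = 0`. -/
theorem dual_gen {N : ℕ} (Z : Fin (N + 1) → ℂ) (h0 : ∀ k, Z k ≠ 0) (hs : ∑ k, Z k = 0) (m : ℂ) :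
    ∑ k, ‖Z k‖ ≤ (1 + ‖∑ k, Z k / (‖Z k‖ : ℂ)‖ / ((N : ℝ) + 1)) * ∑ k, ‖Z k - m‖ := by
  set V : ℂ := ∑ k, Z k / (‖Z k‖ : ℂ) with hV
  set e : Fin (N + 1) → ℂ := fun k => (starRingEnd ℂ) (Z k) / (‖Z k‖ : ℂ) with he
  set v : Fin (N + 1) → ℂ := fun k => e k - (starRingEnd ℂ) V / ((N : ℂ) + 1) with hv
  have hn : (0 : ℝ) < (N : ℝ) + 1 := by positivity
  have hnc : ((N : ℂ) + 1) ≠ 0 := by exact_mod_cast hn.ne'
  have hsum : ∑ k, e k = (starRingEnd ℂ) V := by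
    rw [hV, map_sum]
    refine Finset.sum_congr rfl fun k _ => ?_
    simp only [he, map_div₀, Complex.conj_ofReal]
  have hvsum : ∑ k, v k = 0 := by
    simp only [hv, Finset.sum_sub_distrib, hsum, Finset.sum_const, Finset.card_univ,
      Fintype.card_fin, nsmul_eq_mul]
    push_cast
    field_simp
    ring
  have hvn : ∀ k, ‖v k‖ ≤ 1 + ‖V‖ / ((N : ℝ) + 1) := by
    intro k
    refine (norm_sub_le _ _).trans ?_
    have h1 : ‖e k‖ = 1 := (dualA_unit (h0 k)).1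
    have h2 : ‖(starRingEnd ℂ) V / ((N : ℂ) + 1)‖ = ‖V‖ / ((N : ℝ) + 1) := by
      rw [norm_div, show ‖(starRingEnd ℂ) V‖ = ‖V‖ from Complex.norm_conj V]
      congr 1
      have h3 : ((N : ℂ) + 1) = (((N : ℝ) + 1 : ℝ) : ℂ) := by push_cast; ring
      rw [h3, Complex.norm_real, Real.norm_eq_abs, abs_of_pos hn]
    rw [h1, h2]
  have key : ∑ k, v k * (Z k - m) = ((∑ k, ‖Z k‖ : ℝ) : ℂ) := by
    have h1 : ∀ k, v k * (Z k - m) = (‖Z k‖ : ℂ) - (starRingEnd ℂ) V / ((N : ℂ) + 1) * Z k -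
        m * v k := by
      intro k
      have h2 := (dualA_unit (h0 k)).2
      simp only [hv, he]
      linear_combination h2
    simp only [h1, Finset.sum_sub_distrib, ← Finset.mul_sum, hs, hvsum]
    push_cast
    ring
  have h1 : ∑ k, ‖Z k‖ = ‖∑ k, v k * (Z k - m)‖ := by
    rw [key, Complex.norm_real, Real.norm_eq_abs, abs_of_nonneg]
    exact Finset.sum_nonneg fun k _ => norm_nonneg _
  rw [h1, Finset.mul_sum]
  refine (norm_sum_le _ _).trans (Finset.sum_le_sum fun k _ => ?_)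
  rw [norm_mul]
  exact mul_le_mul_of_nonneg_right (hvn k) (norm_nonneg _)

end Pool.Agent.Lib.c113aaE
end
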