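import Pool.Agent.Lib.c113aaE.Spec
import Pool.Agent.Lib.c113aaE.SgA

section

set_option autoImplicit false

namespace Pool.Agent.Lib.c113aaE

open Finset Polynomial Pool.MP_c113aa_an.BV

/-- For `pz Z = (X - C c)^(N+1) - C b` all critical points are equal to `c` (`critOf_iff`, compare
`c113aaT.main_of`) and all `‖Z k - c‖` are equal to one number `r` (`special_eq`), so `hZ Z = r`
(`hZ_unique`).  For every `m` one has `∑ ‖Z k - m‖ ≥ (N + 1) r`: if `b ≠ 0`, with
`u_k = conj (Z k - c) / r` one has `‖u_k‖ = 1` and `∑ u_k = 0` (the sum of the zeros is `(N+1) c`, as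
`N ≥ 1`; `CritOf.mean`), so `∑ ‖Z k - m‖ ≥ re ∑ u_k (Z k - m) = re ∑ u_k (Z k - c) = (N + 1) r`.
(Alternatively `special_eq` for the exponents `p → 1`.)  So `r ≤ sg p Z` (`le_sg_of_sum`), and
`sg p Z ≤ r` with the centre `c`. -/
theorem ext_eq {N : ℕ} (hN : 1 ≤ N) {Z : Fin (N + 1) → ℂ} (h : Ext Z) {p : ℝ} (hp : 1 ≤ p) :
    hZ Z = sg p Z ∧ hZ Z = sI Z := by
  obtain ⟨c, b, h⟩ := h
  have hprod : (∏ k, (X - C (Z k)) : ℂ[X]) = (X - C c) ^ (N + 1) - C b := h
  have hcrit : CritOf Z (fun _ : Fin N => c) := by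
    rw [critOf_iff, hprod, derivative_sub, derivative_C, sub_zero, derivative_X_sub_C_pow,
      Finset.prod_const, Finset.card_univ, Fintype.card_fin, Nat.add_sub_cancel]
    congr 1
    simp
  obtain ⟨r, hr0, hr, -⟩ := special_eq hN hprod (p := 2) one_lt_two
  have hZr : hZ Z = r := hZ_unique hN hcrit ⟨0, fun _ => (hr 0).ge⟩
    fun k => ⟨⟨0, hN⟩, (hr k).le⟩
  have hNR : (0 : ℝ) < (N : ℝ) + 1 := by positivity
  have hsumZ : ∑ k, (Z k - c) = 0 := by
    have h1 := hcrit.mean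
    rw [Finset.sum_const, Finset.card_univ, Fintype.card_fin, nsmul_eq_mul] at h1
    have hN0 : (N : ℂ) ≠ 0 := by
      exact_mod_cast (by omega : N ≠ 0)
    have h2 : ∑ k, Z k = ((N : ℂ) + 1) * c := by
      apply mul_left_cancel₀ hN0
      rw [← h1]
      ring
    rw [Finset.sum_sub_distrib, h2, Finset.sum_const, Finset.card_univ, Fintype.card_fin,
      nsmul_eq_mul]
    push_cast
    ring
  have hlow : ∀ m : ℂ, ((N : ℝ) + 1) * r ≤ ∑ k, ‖Z k - m‖ := by
    intro m
    rcases hr0.eq_or_lt with h0 | h0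
    · rw [← h0, mul_zero]
      exact Finset.sum_nonneg fun k _ => norm_nonneg _
    · have h1 : ∑ k, (starRingEnd ℂ (Z k - c)) * (Z k - m) = ((((N : ℝ) + 1) * r ^ 2 : ℝ) : ℂ) := by
        have h2 : ∀ k, (starRingEnd ℂ (Z k - c)) * (Z k - m) =
            ((r ^ 2 : ℝ) : ℂ) + (starRingEnd ℂ (Z k - c)) * (c - m) := by
          intro k
          have h3 : (starRingEnd ℂ (Z k - c)) * (Z k - c) = ((r ^ 2 : ℝ) : ℂ) := by
            rw [mul_comm, Complex.mul_conj, Complex.normSq_eq_norm_sq, hr k]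
          rw [← h3]
          ring
        rw [Finset.sum_congr rfl fun k _ => h2 k, Finset.sum_add_distrib, ← Finset.sum_mul,
          ← map_sum, hsumZ, map_zero, zero_mul, add_zero, Finset.sum_const, Finset.card_univ,
          Fintype.card_fin, nsmul_eq_mul]
        push_cast
        ring
      have h2 : ((N : ℝ) + 1) * r ^ 2 ≤ r * ∑ k, ‖Z k - m‖ := by
        have h3 : ‖∑ k, (starRingEnd ℂ (Z k - c)) * (Z k - m)‖ ≤ ∑ k, r * ‖Z k - m‖ := by
          refine (norm_sum_le _ _).trans (Finset.sum_le_sum fun k _ => ?_)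
          rw [norm_mul, Complex.norm_conj, hr k]
        rw [h1, Complex.norm_real, Real.norm_eq_abs, abs_of_nonneg (by positivity),
          ← Finset.mul_sum] at h3
        exact h3
      have h3 : r * (((N : ℝ) + 1) * r) ≤ r * ∑ k, ‖Z k - m‖ := by
        calc r * (((N : ℝ) + 1) * r) = ((N : ℝ) + 1) * r ^ 2 := by ring
          _ ≤ _ := h2
      exact le_of_mul_le_mul_left h3 h0
  have h1 : r ≤ sg p Z := by
    rw [← hZr]
    refine le_sg_of_sum hp Z fun m => ?_
    rw [hZr]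
    exact hlow m
  have h2 : sg p Z ≤ r := by
    refine (sg_le p Z c).trans (le_of_eq ?_)
    have h3 : ∑ k, ‖Z k - c‖ ^ p = ((N + 1 : ℕ) : ℝ) * r ^ p := by
      rw [Finset.sum_congr rfl fun k _ => by rw [hr k], Finset.sum_const, Finset.card_univ,
        Fintype.card_fin, nsmul_eq_mul]
    have h4 : ((N + 1 : ℕ) : ℝ) ≠ 0 := by positivity
    rw [h3, ← mul_assoc, one_div_mul_cancel h4, one_mul, one_div]
    exact Real.rpow_rpow_inv hr0 (by linarith)
  have h3 : sg p Z ≤ sI Z := sg_le_sI hp Z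
  have h4 : sI Z ≤ r := by
    have h5 : sI Z ≤ ⨆ k, ‖Z k - c‖ := by
      refine ciInf_le ⟨0, ?_⟩ c
      rintro _ ⟨c', rfl⟩
      exact Real.iSup_nonneg fun k => norm_nonneg _
    exact h5.trans (ciSup_le fun k => (hr k).le)
  rw [hZr]
  exact ⟨le_antisymm h1 h2, le_antisymm (h1.trans h3) h4⟩

end Pool.Agent.Lib.c113aaE
end
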