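import Pool.Agent.Lib.c113aaE.Circle

section

set_option autoImplicit false

namespace Pool.Agent.Lib.c113aaE

open Finset Polynomial Pool.MP_c113aa_an.BV

/-- The equality cases for larger exponents come from the inequality.  Proof: `sigma_attained` for
`q` gives a centre `c` with `∑ ‖Z k - c‖^q = (N+1) (sg q Z)^q`.  Put `D = hZ Z = sg q Z`.  If `D = 0`
then `Z k = c` for all `k` and `Z` is `Ext` (`b = 0`).  Otherwise
`((1/(N+1)) ∑ ‖Z k - c‖^p)^(1/p) ≥ sg p Z ≥ hZ Z = D`, so `∑ ‖Z k - c‖^p ≥ (N+1) D^p` and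
`∑ ‖Z k - c‖^q ≤ (N+1) D^q`; `c113aaT.jensen_eq` for `x k = ‖Z k - c‖^p`, the exponent `q/p > 1` and
`D^p` gives `‖Z k - c‖ = D` for all `k`.  Then `circle` and `CritOf.special`. -/
theorem ext_of_eq {N : ℕ} (hN : 1 ≤ N) {p q : ℝ} (hp : 1 ≤ p) (hpq : p < q)
    {Z : Fin (N + 1) → ℂ} (hI : hZ Z ≤ sg p Z) (h : hZ Z = sg q Z) : Ext Z := by
  obtain ⟨w, hcr⟩ := exists_crit Z
  have hp0 : 0 < p := by linarith
  have hq0 : 0 < q := by linarith
  have hN0 : (0 : ℝ) < (N : ℝ) + 1 := by positivity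
  obtain ⟨-, ⟨c, hc⟩, -⟩ := sigma_attained Z (lt_of_le_of_lt hp hpq)
  change ∑ k, ‖Z k - c‖ ^ q = ((N : ℝ) + 1) * sg q Z ^ q at hc
  rw [← h] at hc
  rcases (hZ_nonneg hN Z).eq_or_lt with h0 | hD
  · rw [← h0, Real.zero_rpow hq0.ne', mul_zero] at hc
    have hz : ∀ k, Z k = c := by
      intro k
      have h1 := (Finset.sum_eq_zero_iff_of_nonneg
        (fun i _ => Real.rpow_nonneg (norm_nonneg (Z i - c)) q)).1 hc k (Finset.mem_univ k)
      have h2 := (Real.rpow_eq_zero (norm_nonneg _) hq0.ne').1 h1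
      exact sub_eq_zero.1 (norm_eq_zero.1 h2)
    refine ⟨c, 0, ?_⟩
    unfold pz
    simp only [hz, Finset.prod_const, Finset.card_univ, Fintype.card_fin, map_zero, sub_zero]
  · have hS : 0 ≤ (1 / ((N + 1 : ℕ) : ℝ)) * ∑ k, ‖Z k - c‖ ^ p :=
      mul_nonneg (by positivity)
        (Finset.sum_nonneg fun k _ => Real.rpow_nonneg (norm_nonneg _) _)
    have h1 : hZ Z ^ p ≤ (1 / ((N + 1 : ℕ) : ℝ)) * ∑ k, ‖Z k - c‖ ^ p := by
      have h2 := Real.rpow_le_rpow hD.le (hI.trans (sg_le p Z c)) hp0.le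
      rwa [← Real.rpow_mul hS, one_div_mul_cancel hp0.ne', Real.rpow_one] at h2
    have h1' : ((N : ℝ) + 1) * hZ Z ^ p ≤ ∑ k, ‖Z k - c‖ ^ p := by
      have h3 := mul_le_mul_of_nonneg_left h1 hN0.le
      refine h3.trans (le_of_eq ?_)
      push_cast
      rw [← mul_assoc, mul_one_div_cancel hN0.ne', one_mul]
    have hqp : 1 < q / p := (one_lt_div hp0).2 hpq
    have h2' : ∑ k, (‖Z k - c‖ ^ p) ^ (q / p) ≤ ((N : ℝ) + 1) * (hZ Z ^ p) ^ (q / p) := by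
      have e : p * (q / p) = q := mul_div_cancel₀ q hp0.ne'
      rw [← Real.rpow_mul hD.le, e, ← hc]
      refine le_of_eq (Finset.sum_congr rfl fun k _ => ?_)
      rw [← Real.rpow_mul (norm_nonneg _), e]
    have h3 := c113aaT.jensen_eq (x := fun k => ‖Z k - c‖ ^ p)
      (fun k => Real.rpow_nonneg (norm_nonneg _) _) hqp (Real.rpow_pos_of_pos hD p) h1' h2'
    have hm : ∀ k, ‖Z k - c‖ = hZ Z := fun k =>
      (Real.rpow_left_inj (norm_nonneg _) hD.le hp0.ne').1 (h3 k)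
    obtain ⟨⟨k₀, hk₀⟩, -⟩ := hZ_spec hN hcr
    obtain ⟨b, hb⟩ := hcr.special c (circle hcr hD hm k₀ hk₀)
    exact ⟨c, b, hb⟩

end Pool.Agent.Lib.c113aaE
end
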