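import Pool.Agent.Lib.c113aaE.SgC

section

set_option autoImplicit false

namespace Pool.Agent.Lib.c113aaE

open Finset Polynomial Pool.MP_c113aa_an.BV

/-- The inequality for all larger exponents implies the inequality.  Proof: by `sg_ge`,
`(1/(N+1))^(1/p - 1/q) * H ≤ sg p Z` for all `q > p` (if `0 ≤ H`; for `H < 0` use `sg_nonneg`), and
the factor tends to `1` for `q → p+` (`Real.continuous_const_rpow`, `ge_of_tendsto` or
`le_of_tendsto` along `nhdsWithin p (Set.Ioi p)`). -/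
theorem le_sg_lim {N : ℕ} {Z : Fin (N + 1) → ℂ} {p H : ℝ} (hp : 1 ≤ p)
    (h : ∀ q : ℝ, p < q → H ≤ sg q Z) : H ≤ sg p Z := by
  rcases le_or_gt H 0 with hH | hH
  · exact hH.trans (sg_nonneg Z)
  have hp0 : p ≠ 0 := by linarith
  have hw : (0 : ℝ) < 1 / ((N + 1 : ℕ) : ℝ) := by positivity
  have hc1 : ContinuousAt (fun q : ℝ => 1 / p - 1 / q) p :=
    continuousAt_const.sub (continuousAt_const.div continuousAt_id hp0)
  have hc2 : ContinuousAt
      (fun q : ℝ => (1 / ((N + 1 : ℕ) : ℝ)) ^ (1 / p - 1 / q) * H) p :=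
    ContinuousAt.mul
      (ContinuousAt.comp (f := fun q : ℝ => 1 / p - 1 / q)
        (g := fun y : ℝ => (1 / ((N + 1 : ℕ) : ℝ)) ^ y)
        (Real.continuous_const_rpow hw.ne').continuousAt hc1) continuousAt_const
  have hval : (1 / ((N + 1 : ℕ) : ℝ)) ^ (1 / p - 1 / p) * H = H := by
    rw [sub_self, Real.rpow_zero, one_mul]
  have ht : Filter.Tendsto (fun q : ℝ => (1 / ((N + 1 : ℕ) : ℝ)) ^ (1 / p - 1 / q) * H)
      (nhdsWithin p (Set.Ioi p)) (nhds H) := by
    have h1 := hc2.tendsto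
    rw [hval] at h1
    exact h1.mono_left nhdsWithin_le_nhds
  refine le_of_tendsto ht ?_
  filter_upwards [self_mem_nhdsWithin] with q hq
  have hq' : p < q := hq
  calc (1 / ((N + 1 : ℕ) : ℝ)) ^ (1 / p - 1 / q) * H
      ≤ (1 / ((N + 1 : ℕ) : ℝ)) ^ (1 / p - 1 / q) * sg q Z :=
        mul_le_mul_of_nonneg_left (h q hq') (Real.rpow_nonneg hw.le _)
    _ ≤ sg p Z := sg_ge hp hq'.le Z

end Pool.Agent.Lib.c113aaE
end
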