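import Pool.Agent.Lib.c113aaE.Defs

section

set_option autoImplicit false

namespace Pool.Agent.Lib.c113aaE

open Finset Polynomial Pool.MP_c113aa_an.BV

/-- A segment that avoids the constant vectors.  Proof: let `d = Z 0 - Z 1` and `l = d` if `d ≠ 0`,
otherwise `l = 1`.  If `(1 - t) Z k + t e k = c` for all `k`, `t ∈ [0,1]`: for `t = 1` this gives
`l = c = 0`; for `t < 1` all `Z k` with `k ≠ 0` are equal to `c/(1-t)`, and `(1-t) d = - t l`, so
`t = 0` in both cases (`(1 - t) + t = 1 ≠ 0`), and `Z` is constant. -/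
theorem exists_seg {N : ℕ} (hN : 2 ≤ N) (Z : Fin (N + 1) → ℂ) (hc : ¬ ∃ c, ∀ k, Z k = c) :
    ∃ l : ℂ, l ≠ 0 ∧ ∀ t : ℝ, 0 ≤ t → t ≤ 1 →
      ¬ ∃ c, ∀ k : Fin (N + 1), (1 - t : ℂ) * Z k + t * (if k = 0 then l else 0) = c := by
  classical
  have h10 : (⟨1, by omega⟩ : Fin (N + 1)) ≠ 0 := by
    intro h
    have := congrArg Fin.val h
    simp at this
  by_cases hd : Z 0 - Z ⟨1, by omega⟩ = 0
  · refine ⟨1, one_ne_zero, ?_⟩
    rintro t ht0 ht1 ⟨c, hc'⟩
    have e0 := hc' 0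
    have e1 := hc' ⟨1, by omega⟩
    rw [if_pos rfl] at e0
    rw [if_neg h10] at e1
    have ht : (t : ℂ) = 0 := by
      linear_combination e0 - e1 - (1 - (t : ℂ)) * hd
    apply hc
    refine ⟨c, fun k => ?_⟩
    have := hc' k
    rw [ht] at this
    linear_combination this
  · refine ⟨Z 0 - Z ⟨1, by omega⟩, hd, ?_⟩
    rintro t ht0 ht1 ⟨c, hc'⟩
    have e0 := hc' 0
    have e1 := hc' ⟨1, by omega⟩
    rw [if_pos rfl] at e0
    rw [if_neg h10] at e1
    apply hd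
    linear_combination e0 - e1

end Pool.Agent.Lib.c113aaE
end
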