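import Pool.Agent.Lib.c113aaE.Spec
import Pool.Agent.Lib.c113aaE.SgA

section

set_option autoImplicit false

namespace Pool.Agent.Lib.c113aaE

open Finset Polynomial Pool.MP_c113aa_an.BV

/-- The polynomial `(X - l) X ^ N` is not special. -/
private theorem typeB_alg {M : ℕ} {l a b c : ℂ} (hl : l ≠ 0)
    (h : (X - C l) * X ^ (M + 2) = C a * (X - C c) ^ (M + 2 + 1) - C b) : False := by
  have hd := congrArg derivative h
  have he : ∀ x : ℂ, x ^ (M + 2) + (x - l) * (((M : ℂ) + 2) * x ^ (M + 1)) =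
      a * (((M : ℂ) + 2 + 1) * (x - c) ^ (M + 2)) := by
    intro x
    have h1 := congrArg (eval x) hd
    simp only [derivative_mul, derivative_sub, derivative_X, derivative_C, sub_zero, one_mul,
      derivative_X_pow, zero_mul, zero_add, derivative_X_sub_C_pow, eval_add, eval_mul, eval_pow,
      eval_sub, eval_X, eval_C, Nat.add_sub_cancel] at h1
    push_cast at h1
    exact h1
  have ha : a ≠ 0 := by
    rintro rfl
    have h1 := he l
    rw [sub_self, zero_mul, zero_mul, add_zero] at h1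
    exact hl (pow_eq_zero_iff (by omega) |>.1 h1)
  have hM3 : ((M : ℂ) + 2 + 1) ≠ 0 := by
    have : ((M + 2 + 1 : ℕ) : ℂ) ≠ 0 := Nat.cast_ne_zero.2 (by omega)
    push_cast at this
    exact this
  have hM2 : ((M : ℂ) + 2) ≠ 0 := by
    have : ((M + 2 : ℕ) : ℂ) ≠ 0 := Nat.cast_ne_zero.2 (by omega)
    push_cast at this
    exact this
  have hc : c = 0 := by
    have h1 := he 0
    rw [zero_pow (by omega), zero_pow (by omega), mul_zero, mul_zero, add_zero] at h1
    have h2 := (mul_eq_zero.1 h1.symm).resolve_left ha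
    have h3 := (mul_eq_zero.1 h2).resolve_left hM3
    have h4 := pow_eq_zero_iff (by omega) |>.1 h3
    linear_combination -h4
  subst hc
  have hx : ((M : ℂ) + 2 + 1) * (l * ((M : ℂ) + 2) / ((M : ℂ) + 2 + 1)) = l * ((M : ℂ) + 2) := by
    field_simp
  have hx0 : l * ((M : ℂ) + 2) / ((M : ℂ) + 2 + 1) ≠ 0 :=
    div_ne_zero (mul_ne_zero hl hM2) hM3
  generalize l * ((M : ℂ) + 2) / ((M : ℂ) + 2 + 1) = x at hx hx0
  have h1 := he x
  have h2 : x ^ (M + 2) + (x - l) * (((M : ℂ) + 2) * x ^ (M + 1)) = 0 := by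
    have : x ^ (M + 2) + (x - l) * (((M : ℂ) + 2) * x ^ (M + 1)) =
        x ^ (M + 1) * (((M : ℂ) + 2 + 1) * x - l * ((M : ℂ) + 2)) := by
      ring
    rw [this, hx, sub_self, mul_zero]
  rw [h2, sub_zero] at h1
  exact mul_ne_zero ha (mul_ne_zero hM3 (pow_ne_zero _ hx0)) h1.symm

/-- Proof: `c113aaT.main` for `pz Z` (degree `N + 1`, at most two different zeros) gives `≤`, and
equality would give `pz Z = a (X - c)^(N+1) - b`, where `pz Z = (X - C l) X^N`; comparing leading
coefficients `a = 1`; the derivatives at `0` (`N ≥ 2`) give `c = 0`, then the coefficient of `X^N`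
gives `l = 0`.  (`sg` against the multiset sum: as in `c113aaT.main_of`; `roots_prod_X_sub_C` or
`roots_multiset_prod_X_sub_C`.) -/
theorem typeB {N : ℕ} (hN : 2 ≤ N) {p : ℝ} (hp : 1 < p) {l : ℂ} (hl : l ≠ 0) :
    hZ (fun k : Fin (N + 1) => if k = 0 then l else 0) <
      sg p (fun k : Fin (N + 1) => if k = 0 then l else 0) := by
  classical
  set Z : Fin (N + 1) → ℂ := fun k => if k = 0 then l else 0 with hZd
  have hroots : (pz Z).roots = Multiset.map Z Finset.univ.val := by
    have h1 : pz Z = (Multiset.map (fun a => X - C a) (Multiset.map Z Finset.univ.val)).prod := by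
      rw [Multiset.map_map]
      rfl
    rw [h1, roots_multiset_prod_X_sub_C]
  have hdeg : (pz Z).natDegree = N + 1 := by
    rw [pz, natDegree_prod_of_monic _ _ fun k _ => monic_X_sub_C (Z k)]
    simp
  have hcard : (pz Z).roots.toFinset.card ≤ 3 := by
    have h1 : (pz Z).roots.toFinset ⊆ ({l, 0} : Finset ℂ) := by
      intro x hx
      rw [Multiset.mem_toFinset, hroots, Multiset.mem_map] at hx
      obtain ⟨k, _, hk⟩ := hx
      rw [← hk, hZd]
      by_cases h : k = 0
      · simp [h]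
      · simp [h]
    refine (Finset.card_le_card h1).trans (Finset.card_le_two.trans (by omega))
  have hmain := Pool.Agent.Lib.c113aaT.main (N + 1) (by omega) (pz Z) hdeg (Or.inl hcard) p
  have hσ : (⨅ c : ℂ, ((1 / ((N + 1 : ℕ) : ℝ)) *
        ((pz Z).roots.map (fun z => ‖z - c‖ ^ p)).sum) ^ (1 / p)) = sg p Z := by
    refine iInf_congr fun c => ?_
    rw [hroots, Multiset.map_map]
    rfl
  rw [hσ] at hmain
  refine lt_of_le_of_ne (hmain.1 hp.le) fun heq => ?_
  obtain ⟨a, b, c, habc⟩ := (hmain.2 hp).1 heq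
  have hF : pz Z = (X - C l) * X ^ N := by
    rw [pz, Fin.prod_univ_succ]
    have h0 : Z 0 = l := by simp [hZd]
    have h1 : ∀ i : Fin N, Z i.succ = 0 := by
      intro i
      simp [hZd, Fin.succ_ne_zero]
    rw [h0]
    congr 1
    rw [Finset.prod_congr rfl fun i _ => by rw [h1 i, C_0, sub_zero], Finset.prod_const,
      Finset.card_univ, Fintype.card_fin]
  rw [hF] at habc
  obtain ⟨M, rfl⟩ : ∃ M, N = M + 2 := ⟨N - 2, by omega⟩
  exact typeB_alg hl habc

end Pool.Agent.Lib.c113aaE
end
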