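import Pool.Agent.Lib.c113aaE.Near
import Pool.Agent.Lib.c113aaE.Seg
import Pool.Agent.Lib.c113aaE.TypeB
import Pool.Agent.Lib.c113aaE.Cont
import Pool.Agent.Lib.c113aaE.SgB
import Pool.Agent.Lib.c113aaE.Aff

section

set_option autoImplicit false

namespace Pool.Agent.Lib.c113aaE

open Finset Polynomial Pool.MP_c113aa_an.BV

/-- If equality occurs only for the special vectors, then the inequality holds.  Proof: suppose
`sg p Z₀ < hZ Z₀`.  `Z₀` is not constant (`hZ_const`, `sg_nonneg`).  On the segment of `exists_seg`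
the function `D t = sg p (Z_t) - hZ (Z_t)` is continuous (`continuous_sg`, `continuous_hZ`),
`D 0 < 0 < D 1` (`typeB`).  Let `s = sInf {t ∈ [0,1] | 0 ≤ D t}`; then `D s = 0`, `0 < s`, and
`D t < 0` for `t < s`.  By `h` the vector `Z_s` is `Ext`, not constant, so by `near` and
`le_sg_of_sum` `0 ≤ D t` for `t` near `s`, a contradiction. -/
theorem path {N : ℕ} (hN : 3 ≤ N) {p : ℝ} (hp : 1 < p)
    (h : ∀ Z : Fin (N + 1) → ℂ, hZ Z = sg p Z → Ext Z) :
    ∀ Z : Fin (N + 1) → ℂ, hZ Z ≤ sg p Z := by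
  intro Z₀
  by_contra hlt
  rw [not_le] at hlt
  have hp1 : 1 ≤ p := hp.le
  have hc : ¬ ∃ c, ∀ k, Z₀ k = c := by
    rintro ⟨c, hc⟩
    have e : Z₀ = fun _ => c := funext hc
    rw [e, hZ_const (by omega)] at hlt
    exact absurd (sg_nonneg _) (not_le.mpr hlt)
  obtain ⟨l, hl, hseg⟩ := exists_seg (by omega) Z₀ hc
  obtain ⟨γ, hγd⟩ : ∃ γ : ℝ → Fin (N + 1) → ℂ,
      γ = fun (t : ℝ) k => (1 - (t : ℂ)) * Z₀ k + (t : ℂ) * (if k = 0 then l else 0) := ⟨_, rfl⟩
  have hγ : Continuous γ := by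
    rw [hγd]
    refine continuous_pi fun k => ?_
    exact ((continuous_const.sub Complex.continuous_ofReal).mul continuous_const).add
      (Complex.continuous_ofReal.mul continuous_const)
  have hγ0 : γ 0 = Z₀ := by
    rw [hγd]; funext k; simp
  have hγ1 : γ 1 = fun k : Fin (N + 1) => if k = 0 then l else 0 := by
    rw [hγd]; funext k; simp
  obtain ⟨D, hDd⟩ : ∃ D : ℝ → ℝ, D = fun t => sg p (γ t) - hZ (γ t) := ⟨_, rfl⟩
  have hDt : ∀ t, D t = sg p (γ t) - hZ (γ t) := fun t => by rw [hDd]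
  have hD : Continuous D := by
    rw [hDd]
    exact ((continuous_sg hp1).comp hγ).sub ((continuous_hZ (by omega)).comp hγ)
  have h0 : D 0 < 0 := by
    rw [hDt, hγ0]; linarith
  have h1 : 0 < D 1 := by
    have := typeB (N := N) (by omega) hp hl
    rw [hDt, hγ1]; linarith
  obtain ⟨S, hSd⟩ : ∃ S : Set ℝ, S = {t | 0 ≤ t ∧ 0 ≤ D t} := ⟨_, rfl⟩
  have hS : IsClosed S := by
    rw [hSd]
    exact (isClosed_le continuous_const continuous_id).inter (isClosed_le continuous_const hD)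
  have hmem : ∀ t, t ∈ S ↔ 0 ≤ t ∧ 0 ≤ D t := fun t => by rw [hSd]; rfl
  have hb : BddBelow S := ⟨0, fun t ht => ((hmem t).1 ht).1⟩
  have h1S : (1 : ℝ) ∈ S := (hmem 1).2 ⟨zero_le_one, h1.le⟩
  obtain ⟨s, hsd⟩ : ∃ s, s = sInf S := ⟨_, rfl⟩
  have hsS : s ∈ S := by rw [hsd]; exact hS.csInf_mem ⟨1, h1S⟩ hb
  have hs := (hmem s).1 hsS
  have hs1 : s ≤ 1 := by rw [hsd]; exact csInf_le hb h1S
  have hs0 : 0 < s := by
    refine lt_of_le_of_ne hs.1 ?_
    intro e
    rw [← e] at hs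
    exact absurd hs.2 (not_le.mpr h0)
  have hlt' : ∀ t, 0 ≤ t → t < s → D t < 0 := by
    intro t ht hts
    by_contra hh
    have := csInf_le hb ((hmem t).2 ⟨ht, not_lt.mp hh⟩)
    rw [← hsd] at this
    exact absurd this (not_le.mpr hts)
  have hcl : s ∈ closure (Set.Ioo 0 s) := by
    rw [closure_Ioo hs0.ne]; exact ⟨hs0.le, le_rfl⟩
  have hDs : D s ≤ 0 :=
    (closure_minimal (s := Set.Ioo 0 s) (t := {t | D t ≤ 0})
      (fun t ht => (hlt' t ht.1.le ht.2).le) (isClosed_le hD continuous_const)) hcl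
  have hEq : hZ (γ s) = sg p (γ s) := by
    have := hs.2
    rw [hDt] at this hDs
    linarith
  have hnc : ¬ ∃ c, ∀ k, γ s k = c := by
    have := hseg s hs.1 hs1
    rw [hγd]; exact this
  have hnear := near hN (h _ hEq) hnc
  have hev : ∀ᶠ t in nhds s, 0 ≤ D t := by
    filter_upwards [hγ.continuousAt.eventually hnear] with t ht
    have := le_sg_of_sum hp1 (γ t) ht
    rw [hDt]; linarith
  obtain ⟨t, ht, ht'⟩ := mem_closure_iff_nhds.1 hcl _ hev
  exact absurd (hlt' t ht'.1.le ht'.2) (not_lt.mpr ht)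

end Pool.Agent.Lib.c113aaE
end
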