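import Pool.Agent.Lib.c113aaE.Spec
import Pool.Agent.Lib.c113aaE.SgA

section

set_option autoImplicit false

namespace Pool.Agent.Lib.c113aaE

open Finset Polynomial Pool.MP_c113aa_an.BV

private theorem small_roots {N : ℕ} (Z : Fin (N + 1) → ℂ) :
    (pz Z).roots = Multiset.map Z Finset.univ.val := by
  have h : pz Z = ((Multiset.map Z Finset.univ.val).map (fun a => (X - C a : ℂ[X]))).prod := by
    rw [Multiset.map_map]
    rfl
  rw [h, roots_multiset_prod_X_sub_C]

private theorem small_monic {N : ℕ} (Z : Fin (N + 1) → ℂ) : (pz Z).Monic :=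
  monic_prod_of_monic _ _ fun k _ => monic_X_sub_C (Z k)

private theorem small_deg {N : ℕ} (Z : Fin (N + 1) → ℂ) : (pz Z).natDegree = N + 1 := by
  unfold pz
  rw [natDegree_prod_of_monic _ _ fun k _ => monic_X_sub_C (Z k)]
  simp

/-- Degrees 2 and 3, from `c113aaT.main` for `pz Z` (at most three different zeros); for `Ext`
compare the leading coefficients. -/
theorem small {N : ℕ} (hN : 1 ≤ N) (hN3 : N + 1 ≤ 3) (Z : Fin (N + 1) → ℂ) :
    (∀ p : ℝ, 1 ≤ p → hZ Z ≤ sg p Z) ∧ (∀ p : ℝ, 1 < p → hZ Z = sg p Z → Ext Z) := by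
  classical
  have hcard : (pz Z).roots.toFinset.card ≤ 3 := by
    refine (Multiset.toFinset_card_le _).trans ?_
    rw [small_roots]
    simpa using hN3
  have hσ : ∀ p : ℝ, (⨅ c : ℂ, ((1 / ((N + 1 : ℕ) : ℝ)) *
        ((pz Z).roots.map (fun z => ‖z - c‖ ^ p)).sum) ^ (1 / p)) = sg p Z := by
    intro p
    unfold sg
    refine iInf_congr fun c => ?_
    rw [small_roots, Multiset.map_map]
    rfl
  have key := fun p : ℝ => c113aaT.main (N + 1) (by omega) (pz Z) (small_deg Z) (Or.inl hcard) p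
  refine ⟨fun p hp => ?_, fun p hp heq => ?_⟩
  · have h1 := (key p).1 hp
    rw [hσ p] at h1
    exact h1
  · have h1 := (key p).2 hp
    rw [hσ p] at h1
    obtain ⟨a, b, c, hF⟩ := h1.1 heq
    have ha : a = 1 := by
      have h2 : (pz Z).coeff (N + 1) = 1 := by
        have h3 := small_monic Z
        rw [Monic, leadingCoeff, small_deg] at h3
        exact h3
      have h4 : ((X - C c) ^ (N + 1) : ℂ[X]).coeff (N + 1) = 1 := by
        have h5 := (monic_X_sub_C c).pow (N + 1)
        have h6 : ((X - C c) ^ (N + 1) : ℂ[X]).natDegree = N + 1 := by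
          rw [natDegree_pow, natDegree_X_sub_C, mul_one]
        rw [Monic, leadingCoeff, h6] at h5
        exact h5
      rw [hF, coeff_sub, coeff_C_mul, h4, coeff_C] at h2
      simpa using h2
    refine ⟨c, b, ?_⟩
    rw [hF, ha, C_1, one_mul]

end Pool.Agent.Lib.c113aaE
end
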