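import Pool.Agent.Lib.c113aaE.Trans
import Pool.Agent.Lib.c113aaE.ExtEq
import Pool.Agent.Lib.c113aaE.ExtOf
import Pool.Agent.Lib.c113aaE.LimitB
import Pool.Agent.Lib.c113aaE.Path
import Pool.Agent.Lib.c113aaE.Small
import Pool.Agent.Lib.c113aaE.Cpt
import Pool.Agent.Lib.c113aaE.CptB

section

set_option autoImplicit false

namespace Pool.Agent.Lib.c113aaE

open Finset Polynomial Pool.MP_c113aa_an.BV

/-- Vector form of the question for the exponent `p`. -/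
def QZ (N : ℕ) (p : ℝ) : Prop := ∀ Z : Fin (N + 1) → ℂ, hZ Z = sg p Z ↔ Ext Z

/-- Vector form of the inequality. -/
def IZ (N : ℕ) (p : ℝ) : Prop := ∀ Z : Fin (N + 1) → ℂ, hZ Z ≤ sg p Z

/-- Vector form of Sendov's inequality with the extremal polynomials. -/
def PZ (N : ℕ) : Prop := ∀ Z : Fin (N + 1) → ℂ, hZ Z ≤ sI Z ∧ (hZ Z = sI Z ↔ Ext Z)

theorem QZ_iff (N : ℕ) (p : ℝ) :
    (∀ F : ℂ[X], F.natDegree = N + 1 → (hd F = pv (N + 1) p F ↔ Sp (N + 1) F)) ↔ QZ N p := by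
  constructor
  · intro h Z
    have h1 := h (pz Z) (natDegree_pz Z)
    obtain ⟨h2, -, h4⟩ := pz_data Z
    rw [h2 p, h4] at h1
    exact h1
  · intro h F hF
    obtain ⟨Z, h1, h2, -, h4⟩ := trans F hF
    rw [h1, h2 p, h4]
    exact h Z

theorem IZ_iff (N : ℕ) (p : ℝ) :
    (∀ F : ℂ[X], F.natDegree = N + 1 → hd F ≤ pv (N + 1) p F) ↔ IZ N p := by
  constructor
  · intro h Z
    have h1 := h (pz Z) (natDegree_pz Z)
    obtain ⟨h2, -, -⟩ := pz_data Z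
    rw [h2 p] at h1
    exact h1
  · intro h F hF
    obtain ⟨Z, h1, h2, -, -⟩ := trans F hF
    rw [h1, h2 p]
    exact h Z

theorem PZ_iff (N : ℕ) :
    (∀ F : ℂ[X], F.natDegree = N + 1 → hd F ≤ ci F ∧ (hd F = ci F ↔ Sp (N + 1) F)) ↔ PZ N := by
  constructor
  · intro h Z
    have h1 := h (pz Z) (natDegree_pz Z)
    obtain ⟨-, h3, h4⟩ := pz_data Z
    rw [h3, h4] at h1
    exact h1
  · intro h F hF
    obtain ⟨Z, h1, -, h3, h4⟩ := trans F hF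
    rw [h1, h3, h4]
    exact h Z

theorem up {N : ℕ} (hN : 1 ≤ N) {p q : ℝ} (hp : 1 ≤ p) (hpq : p < q) (h : IZ N p) : QZ N q :=
  fun Z => ⟨fun hZ => ext_of_eq hN hp hpq (h Z) hZ, fun hE => (ext_eq hN hE (hp.trans hpq.le)).1⟩

theorem eq_to_ineq {N : ℕ} (hN : 1 ≤ N) {p : ℝ} (hp : 1 < p) (h : QZ N p) : IZ N p := by
  rcases Nat.lt_or_ge N 3 with h3 | h3
  · exact fun Z => (small hN (by omega) Z).1 p hp.le
  · exact path h3 hp (fun Z hZ => (h Z).1 hZ)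

theorem some_iff {N : ℕ} (hN : 1 ≤ N) : (∃ p : ℝ, 1 < p ∧ QZ N p) ↔ PZ N := by
  constructor
  · rintro ⟨p, hp, h⟩ Z
    have h1 := eq_to_ineq hN hp h Z
    have h2 := sg_le_sI hp.le Z
    exact ⟨h1.trans h2, fun h3 => (h Z).1 (le_antisymm h1 (h2.trans h3.ge)),
      fun hE => (ext_eq hN hE hp.le).2⟩
  · intro h
    rcases Nat.lt_or_ge N 3 with h3 | h3
    · refine ⟨2, by norm_num, fun Z => ⟨(small hN (by omega) Z).2 2 (by norm_num),
        fun hE => (ext_eq hN hE (by norm_num)).1⟩⟩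
    · obtain ⟨p, hp, h4⟩ := cpt h3 fun Z => ⟨(h Z).1, (h Z).2.1⟩
      exact ⟨p + 1, by linarith, up hN hp (by linarith) h4⟩

theorem local_eq {N : ℕ} (hN : 1 ≤ N) {Z₀ : Fin (N + 1) → ℂ} (h : Ext Z₀)
    (hc : ¬ ∃ c, ∀ k, Z₀ k = c) :
    ∀ᶠ Z in nhds Z₀, (∀ p : ℝ, 1 ≤ p → hZ Z ≤ sg p Z) ∧
      (∀ p : ℝ, 1 < p → (hZ Z = sg p Z ↔ Ext Z)) := by
  have h1 : ∀ᶠ Z in nhds Z₀, ∀ p : ℝ, 1 ≤ p → hZ Z ≤ sg p Z := by
    rcases Nat.lt_or_ge N 3 with h3 | h3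
    · exact Filter.Eventually.of_forall fun Z => (small hN (by omega) Z).1
    · exact (near h3 h hc).mono fun Z hZ p hp => le_sg_of_sum hp Z hZ
  refine h1.mono fun Z hZ' => ⟨hZ', fun p hp => ⟨fun h2 => ?_, fun hE => (ext_eq hN hE hp.le).1⟩⟩
  exact ext_of_eq hN le_rfl hp (hZ' 1 le_rfl) h2

theorem mono {N : ℕ} {p q : ℝ} (hp : 1 ≤ p) (hpq : p ≤ q) (h : IZ N p) : IZ N q :=
  fun Z => (h Z).trans (sg_mono hp hpq Z)

theorem open_lem {N : ℕ} (hN : 1 ≤ N) {p : ℝ} (hp : 1 < p) (h : QZ N p) :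
    ∃ q : ℝ, 1 ≤ q ∧ q < p ∧ IZ N q := by
  rcases Nat.lt_or_ge N 3 with h3 | h3
  · exact ⟨1, le_rfl, hp, fun Z => (small hN (by omega) Z).1 1 le_rfl⟩
  · have h1 := eq_to_ineq hN hp h
    exact cptB h3 hp fun Z => ⟨h1 Z, (h Z).1⟩

theorem threshold {N : ℕ} (hN : 1 ≤ N) : ∃ t : EReal, 1 ≤ t ∧
    (∀ p : ℝ, 1 ≤ p → (IZ N p ↔ t ≤ (p : EReal))) ∧
    (∀ p : ℝ, 1 < p → (QZ N p ↔ t < (p : EReal))) ∧
    (PZ N ↔ t < ⊤) := by
  refine ⟨sInf {x : EReal | ∃ p : ℝ, 1 ≤ p ∧ IZ N p ∧ x = (p : EReal)}, ?_, ?_, ?_, ?_⟩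
  · refine le_sInf ?_
    rintro x ⟨p, hp, -, rfl⟩
    exact_mod_cast hp
  · intro p hp
    constructor
    · intro h
      exact sInf_le ⟨p, hp, h, rfl⟩
    · intro h Z
      refine le_sg_lim hp fun q hq => ?_
      have h1 : (p : EReal) < (q : EReal) := by exact_mod_cast hq
      obtain ⟨x, ⟨r, hr, hI, rfl⟩, hx⟩ := sInf_lt_iff.1 (h.trans_lt h1)
      have h2 : r < q := by exact_mod_cast hx
      exact mono hr h2.le hI Z
  · intro p hp
    constructor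
    · intro h
      obtain ⟨q, hq, hqp, hI⟩ := open_lem hN hp h
      have h1 : (q : EReal) < (p : EReal) := by exact_mod_cast hqp
      refine lt_of_le_of_lt (sInf_le ?_) h1
      exact ⟨q, hq, hI, rfl⟩
    · intro h
      obtain ⟨x, ⟨r, hr, hI, rfl⟩, hx⟩ := sInf_lt_iff.1 h
      have h2 : r < p := by exact_mod_cast hx
      exact up hN hr h2 hI
  · rw [← some_iff hN]
    constructor
    · rintro ⟨p, hp, h⟩
      refine lt_of_le_of_lt (sInf_le ?_) (EReal.coe_lt_top p)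
      exact ⟨p, hp.le, eq_to_ineq hN hp h, rfl⟩
    · intro h
      obtain ⟨x, ⟨r, hr, hI, rfl⟩, -⟩ := sInf_lt_iff.1 h
      exact ⟨r + 1, by linarith, up hN hr (by linarith) hI⟩

/-- The theorem. -/
theorem final (n : ℕ) (hn : 2 ≤ n) :
    (∃ t : EReal, 1 ≤ t ∧
      (∀ p : ℝ, 1 ≤ p →
        ((∀ F : ℂ[X], F.natDegree = n → hd F ≤ pv n p F) ↔ t ≤ (p : EReal))) ∧
      (∀ p : ℝ, 1 < p →
        ((∀ F : ℂ[X], F.natDegree = n → (hd F = pv n p F ↔ Sp n F)) ↔ t < (p : EReal))) ∧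
      ((∀ F : ℂ[X], F.natDegree = n → hd F ≤ ci F ∧ (hd F = ci F ↔ Sp n F)) ↔ t < ⊤)) ∧
    (∀ (Z₀ : Fin n → ℂ) (c b : ℂ), b ≠ 0 → ∏ k, (X - C (Z₀ k)) = (X - C c) ^ n - C b →
      ∃ ε : ℝ, 0 < ε ∧ ∀ Z : Fin n → ℂ, (∀ k, ‖Z k - Z₀ k‖ < ε) → ∀ p : ℝ,
        (1 ≤ p → hd (∏ k, (X - C (Z k))) ≤ pv n p (∏ k, (X - C (Z k)))) ∧
        (1 < p → (hd (∏ k, (X - C (Z k))) = pv n p (∏ k, (X - C (Z k))) ↔
          Sp n (∏ k, (X - C (Z k)))))) := by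
  obtain ⟨N, rfl⟩ : ∃ N, n = N + 1 := ⟨n - 1, by omega⟩
  have hN : 1 ≤ N := by omega
  refine ⟨?_, ?_⟩
  · obtain ⟨t, h1, h2, h3, h4⟩ := threshold hN
    refine ⟨t, h1, fun p hp => ?_, fun p hp => ?_, ?_⟩
    · rw [IZ_iff]; exact h2 p hp
    · rw [QZ_iff]; exact h3 p hp
    · rw [PZ_iff]; exact h4
  · intro Z₀ c b hb h0
    have hc : ¬ ∃ c, ∀ k, Z₀ k = c := by
      rintro ⟨d, hd'⟩
      have e : (∏ k, (X - C (Z₀ k)) : ℂ[X]) = (X - C d) ^ (N + 1) := by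
        rw [Finset.prod_congr rfl fun k _ => by rw [hd' k]]
        rw [Finset.prod_const, Finset.card_univ, Fintype.card_fin]
      rw [e] at h0
      have h1 := congrArg derivative h0
      rw [derivative_sub, derivative_C, sub_zero, derivative_pow, derivative_pow,
        derivative_X_sub_C, derivative_X_sub_C, mul_one, mul_one, Nat.add_sub_cancel] at h1
      have h2 := congrArg (Polynomial.eval c) h1
      simp only [eval_mul, eval_C, eval_pow, eval_sub, eval_X, sub_self] at h2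
      rw [zero_pow (by omega), mul_zero, mul_eq_zero] at h2
      have h3 : c - d = 0 := by
        rcases h2 with h2 | h2
        · exfalso
          have : ((N + 1 : ℕ) : ℂ) ≠ 0 := by exact_mod_cast Nat.succ_ne_zero N
          exact this h2
        · exact pow_eq_zero_iff (by omega) |>.1 h2
      rw [sub_eq_zero.1 h3] at h0
      have h4 := congrArg (Polynomial.eval d) h0
      simp only [eval_pow, eval_sub, eval_X, eval_C, sub_self] at h4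
      rw [zero_pow (by omega), zero_sub] at h4
      exact hb (neg_eq_zero.1 h4.symm)
    have h1 := local_eq hN ⟨c, b, h0⟩ hc
    rw [Metric.eventually_nhds_iff] at h1
    obtain ⟨ε, hε, h2⟩ := h1
    refine ⟨ε, hε, fun Z hZ' p => ?_⟩
    have h3 : dist Z Z₀ < ε := by
      rw [dist_pi_lt_iff hε]
      intro k
      rw [dist_eq_norm]
      exact hZ' k
    obtain ⟨h4, h5⟩ := h2 h3
    obtain ⟨h6, -, h7⟩ := pz_data Z
    rw [show (∏ k, (X - C (Z k)) : ℂ[X]) = pz Z from rfl, h6 p, h7]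
    exact ⟨h4 p, h5 p⟩

end Pool.Agent.Lib.c113aaE
end
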