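import Pool.Agent.Lib.c113aaE.Four
import Pool.Agent.Lib.c113aaE.ExtEq

section

set_option autoImplicit false

namespace Pool.Agent.Lib.c113aaE

open Finset Polynomial Pool.MP_c113aa_an.BV

/-- The circumcentre exists.  Proof: `c ↦ ⨆ k, ‖Z k - c‖` is continuous and tends to infinity
(`Continuous.exists_forall_le`, compare `exists_minimizer`). -/
theorem sI_attained {N : ℕ} (Z : Fin (N + 1) → ℂ) : ∃ c : ℂ, ∀ k, ‖Z k - c‖ ≤ sI Z := by
  have hle : ∀ (c : ℂ) (k : Fin (N + 1)), ‖Z k - c‖ ≤ ⨆ k, ‖Z k - c‖ := fun c k =>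
    le_ciSup (f := fun k => ‖Z k - c‖) (Set.finite_range _).bddAbove k
  have hlip : LipschitzWith 1 (fun c : ℂ => ⨆ k, ‖Z k - c‖) := by
    refine LipschitzWith.of_le_add fun c c' => ciSup_le fun k => ?_
    have h1 : Z k - c = (Z k - c') + (c' - c) := by ring
    calc ‖Z k - c‖ = ‖(Z k - c') + (c' - c)‖ := by rw [h1]
      _ ≤ ‖Z k - c'‖ + ‖c' - c‖ := norm_add_le _ _
      _ ≤ (⨆ k, ‖Z k - c'‖) + dist c c' := by
          rw [dist_comm, dist_eq_norm]
          exact add_le_add (hle c' k) le_rfl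
  have htend : Filter.Tendsto (fun c : ℂ => ⨆ k, ‖Z k - c‖) (Filter.cocompact ℂ) Filter.atTop := by
    have h1 : Filter.Tendsto (fun c : ℂ => ‖Z 0 - c‖) (Filter.cocompact ℂ) Filter.atTop :=
      (tendsto_norm_cocompact_atTop (E := ℂ)).comp
        (Homeomorph.subLeft (Z 0)).isClosedEmbedding.tendsto_cocompact
    exact Filter.tendsto_atTop_mono (fun c => hle c 0) h1
  obtain ⟨c, hc⟩ := hlip.continuous.exists_forall_le htend
  exact ⟨c, fun k => (hle c k).trans (le_ciInf fun c' => hc c')⟩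

/-- Sendov's inequality and its equality cases in degree 4.  Proof: let `w` be critical points
(`exists_crit`), `c` from `sI_attained`, `R = sI Z`.  If `R ≤ 0` then `Z k = c` for all `k`, `Z` is
`Ext` (`b = 0`).  If `R > 0` and `R ≤ hZ Z`, then with `k₀` from `hZ_spec` and `CritOf.affine` (for
`c`, `R`) `four_core` gives `w j = c`, and `CritOf.special` gives `Ext Z`.  So `sI Z ≤ hZ Z`
implies `Ext Z`, and then `hZ Z = sI Z` by `ext_eq` (for `p = 1`). -/
theorem four (Z : Fin (3 + 1) → ℂ) : hZ Z ≤ sI Z ∧ (hZ Z = sI Z ↔ Ext Z) := by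
  obtain ⟨w, hw⟩ := exists_crit Z
  obtain ⟨c, hc⟩ := sI_attained Z
  have h3 : 1 ≤ 3 := by norm_num
  have hkey : sI Z ≤ hZ Z → Ext Z := by
    intro hle
    by_cases hR : 0 < sI Z
    · obtain ⟨⟨k₀, hk₀⟩, -⟩ := hZ_spec h3 hw
      have hRC : ((sI Z : ℝ) : ℂ) ≠ 0 := by exact_mod_cast hR.ne'
      have hA := hw.affine c ((sI Z : ℝ) : ℂ) hRC
      have hnR : ‖((sI Z : ℝ) : ℂ)‖ = sI Z := by
        rw [Complex.norm_real, Real.norm_eq_abs, abs_of_pos hR]
      have h0 := four_core hA (fun k => by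
          rw [norm_div, hnR, div_le_one hR]
          exact hc k) k₀ (fun j => by
          have e : (Z k₀ - c) / ((sI Z : ℝ) : ℂ) - (w j - c) / ((sI Z : ℝ) : ℂ) =
              (Z k₀ - w j) / ((sI Z : ℝ) : ℂ) := by ring
          show 1 ≤ ‖(Z k₀ - c) / ((sI Z : ℝ) : ℂ) - (w j - c) / ((sI Z : ℝ) : ℂ)‖
          rw [e, norm_div, hnR, le_div_iff₀ hR, one_mul]
          exact hle.trans (hk₀ j))
      have hwc : ∀ j, w j = c := by
        intro j
        have h1 := h0 j
        rw [div_eq_zero_iff] at h1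
        exact sub_eq_zero.mp (h1.resolve_right hRC)
      obtain ⟨b, hb⟩ := hw.special c hwc
      exact ⟨c, b, hb⟩
    · have hz : ∀ k, Z k = c := by
        intro k
        have h1 := hc k
        have h2 : ‖Z k - c‖ = 0 := le_antisymm (h1.trans (not_lt.mp hR)) (norm_nonneg _)
        exact sub_eq_zero.mp (norm_eq_zero.mp h2)
      refine ⟨c, 0, ?_⟩
      unfold pz
      rw [Finset.prod_congr rfl fun k _ => by rw [hz k], Finset.prod_const, Finset.card_univ,
        Fintype.card_fin, C_0, sub_zero]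
  have heq : Ext Z → hZ Z = sI Z := fun h => (ext_eq h3 h (p := 1) le_rfl).2
  refine ⟨?_, fun h => hkey h.ge, heq⟩
  by_contra hlt
  rw [not_le] at hlt
  exact hlt.ne' (heq (hkey hlt.le))

end Pool.Agent.Lib.c113aaE
end
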