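import Pool.Agent.Lib.c113aaE.FiveE
import Pool.Agent.Lib.c113aaE.FourB

section

set_option autoImplicit false

namespace Pool.Agent.Lib.c113aaE

open Finset Polynomial Pool.MP_c113aa_an.BV

/-- From the core statement to the inequality with its equality cases (compare `four`). -/
theorem pr_of_core {N : ℕ} (h3 : 1 ≤ N)
    (hcore : ∀ {Z : Fin (N + 1) → ℂ} {w : Fin N → ℂ}, CritOf Z w → (∀ k, ‖Z k‖ ≤ 1) →
      ∀ k₀ : Fin (N + 1), (∀ j, 1 ≤ ‖Z k₀ - w j‖) → ∀ j, w j = 0)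
    (Z : Fin (N + 1) → ℂ) : hZ Z ≤ sI Z ∧ (hZ Z = sI Z ↔ Ext Z) := by
  obtain ⟨w, hw⟩ := exists_crit Z
  obtain ⟨c, hc⟩ := sI_attained Z
  have hkey : sI Z ≤ hZ Z → Ext Z := by
    intro hle
    by_cases hR : 0 < sI Z
    · obtain ⟨⟨k₀, hk₀⟩, -⟩ := hZ_spec h3 hw
      have hRC : ((sI Z : ℝ) : ℂ) ≠ 0 := by exact_mod_cast hR.ne'
      have hA := hw.affine c ((sI Z : ℝ) : ℂ) hRC
      have hnR : ‖((sI Z : ℝ) : ℂ)‖ = sI Z := by
        rw [Complex.norm_real, Real.norm_eq_abs, abs_of_pos hR]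
      have h0 := hcore hA (fun k => by
          rw [norm_div, hnR, div_le_one hR]
          exact hc k) k₀ (fun j => by
          have e : (Z k₀ - c) / ((sI Z : ℝ) : ℂ) - (w j - c) / ((sI Z : ℝ) : ℂ) =
              (Z k₀ - w j) / ((sI Z : ℝ) : ℂ) := by ring
          show 1 ≤ ‖(Z k₀ - c) / ((sI Z : ℝ) : ℂ) - (w j - c) / ((sI Z : ℝ) : ℂ)‖
          rw [e, norm_div, hnR, le_div_iff₀ hR, one_mul]
          exact hle.trans (hk₀ j))
      have hwc : ∀ j, w j = c := by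
        intro j
        have h1 := h0 j
        rw [div_eq_zero_iff] at h1
        exact sub_eq_zero.mp (h1.resolve_right hRC)
      obtain ⟨b, hb⟩ := hw.special c hwc
      exact ⟨c, b, hb⟩
    · have hz : ∀ k, Z k = c := by
        intro k
        have h1 := hc k
        have h2 : ‖Z k - c‖ = 0 := le_antisymm (h1.trans (not_lt.mp hR)) (norm_nonneg _)
        exact sub_eq_zero.mp (norm_eq_zero.mp h2)
      refine ⟨c, 0, ?_⟩
      unfold pz
      rw [Finset.prod_congr rfl fun k _ => by rw [hz k], Finset.prod_const, Finset.card_univ,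
        Fintype.card_fin, C_0, sub_zero]
  have heq : Ext Z → hZ Z = sI Z := fun h => (ext_eq h3 h (p := 1) le_rfl).2
  refine ⟨?_, fun h => hkey h.ge, heq⟩
  by_contra hlt
  rw [not_le] at hlt
  exact hlt.ne' (heq (hkey hlt.le))

/-- Sendov's inequality and its equality cases in degree 5. -/
theorem five (Z : Fin (4 + 1) → ℂ) : hZ Z ≤ sI Z ∧ (hZ Z = sI Z ↔ Ext Z) :=
  pr_of_core (by norm_num) (fun h h1 k₀ hw => five_core h h1 k₀ hw) Z

end Pool.Agent.Lib.c113aaE
end
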