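import Pool.Agent.Lib.c113aaE.Defs

section

set_option autoImplicit false

namespace Pool.Agent.Lib.c113aaE

open Finset Polynomial Pool.MP_c113aa_an.BV

private lemma grc_norm (a x : ℂ) {ρ : ℝ} (hρ : 0 < ρ) (hx : ‖x‖ = ρ) :
    ‖(ρ : ℂ) * (starRingEnd ℂ) a - x / ρ‖ = ‖1 - x * a‖ := by
  have hρ' : (ρ : ℂ) ≠ 0 := by exact_mod_cast hρ.ne'
  obtain ⟨u, hu⟩ : ∃ u, u = x / (ρ : ℂ) := ⟨_, rfl⟩
  have hx' : x = ρ * u := by rw [hu, mul_div_cancel₀ _ hρ']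
  have hun : ‖u‖ = 1 := by
    rw [hu, norm_div, hx, Complex.norm_real, Real.norm_of_nonneg hρ.le, div_self hρ.ne']
  have huu : u * (starRingEnd ℂ) u = 1 := by
    rw [Complex.mul_conj, Complex.normSq_eq_norm_sq, hun]; simp
  rw [← hu, hx']
  have e : (ρ : ℂ) * (starRingEnd ℂ) a - u =
      - (u * (starRingEnd ℂ) (1 - (ρ : ℂ) * u * a)) := by
    rw [map_sub, map_mul, map_mul, map_one, Complex.conj_ofReal]
    linear_combination (-((ρ : ℂ) * (starRingEnd ℂ) a)) * huu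
  rw [e, norm_neg, norm_mul, hun, one_mul, RCLike.norm_conj]

private lemma grc_rho {M : ℕ} (a : Fin M → ℂ) (Q : ℂ → ℂ) (hd : Differentiable ℂ Q)
    (h0 : ∀ x : ℂ, ‖x‖ < 1 → Q x ≠ 0)
    (h1 : ∀ x : ℂ, ‖x‖ < 1 → ‖∏ k, (1 - x * a k)‖ ≤ ‖Q x‖) {ρ : ℝ} (hρ : 0 < ρ)
    (hρ1 : ρ < 1) :
    ∏ k, (if ‖a k‖ ≤ 1 then (1 : ℝ) else ρ * ‖a k‖) ≤ ‖Q 0‖ := by
  obtain ⟨P, hP⟩ : ∃ P : Fin M → ℂ → ℂ, P = fun k x =>
      if ‖a k‖ ≤ 1 then 1 - x * a k else (ρ : ℂ) * (starRingEnd ℂ) (a k) - x / ρ := ⟨_, rfl⟩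
  have hPd : ∀ k, Differentiable ℂ (P k) := by
    intro k
    rw [hP]
    by_cases hk : ‖a k‖ ≤ 1
    · simp only [if_pos hk]; fun_prop
    · simp only [if_neg hk]; fun_prop
  have hFd : DifferentiableOn ℂ (fun x => (∏ k, P k x) / Q x)
      (closure (Metric.ball (0 : ℂ) ρ)) := by
    rw [closure_ball _ hρ.ne']
    intro x hx
    have hx' : ‖x‖ < 1 := lt_of_le_of_lt (mem_closedBall_zero_iff.1 hx) hρ1
    refine DifferentiableAt.differentiableWithinAt ?_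
    refine DifferentiableAt.div ?_ (hd x) (h0 x hx')
    have : Differentiable ℂ (fun x => ∏ k, P k x) := by fun_prop
    exact this x
  have hbd : ∀ z ∈ frontier (Metric.ball (0 : ℂ) ρ), ‖(∏ k, P k z) / Q z‖ ≤ 1 := by
    intro z hz
    rw [frontier_ball _ hρ.ne', mem_sphere_zero_iff_norm] at hz
    have hz1 : ‖z‖ < 1 := by rw [hz]; exact hρ1
    rw [norm_div, div_le_one (norm_pos_iff.2 (h0 z hz1))]
    refine le_trans (le_of_eq ?_) (h1 z hz1)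
    rw [norm_prod, norm_prod]
    refine Finset.prod_congr rfl fun k _ => ?_
    rw [hP]
    dsimp only
    split_ifs
    · rfl
    · exact grc_norm _ _ hρ hz
  have h2 := Complex.norm_le_of_forall_mem_frontier_norm_le Metric.isBounded_ball
    hFd.diffContOnCl hbd (subset_closure (Metric.mem_ball_self hρ))
  rw [norm_div, div_le_one (norm_pos_iff.2 (h0 0 (by simp)))] at h2
  refine le_trans (le_of_eq ?_) h2
  rw [norm_prod]
  refine Finset.prod_congr rfl fun k _ => ?_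
  rw [hP]
  dsimp only
  split_ifs
  · simp
  · rw [zero_div, sub_zero, norm_mul, RCLike.norm_conj, Complex.norm_real,
      Real.norm_of_nonneg hρ.le]

/-- Jensen's inequality for a product.  Proof: let
`P x = ∏_{‖a k‖ ≤ 1} (1 - x a k) * ∏_{‖a k‖ > 1} (conj (a k) - x)`, so that
`‖P 0‖ = ∏ max 1 ‖a k‖`.  `P / Q` is analytic in the open disk.  For `‖x‖ = ρ < 1` near `1` (so that
`1 - x a k ≠ 0` for the `k` with `‖a k‖ > 1`):
`‖P x‖ = ‖∏ (1 - x a k)‖ * ∏_{‖a k‖ > 1} ‖conj (a k) - x‖ / ‖1 - x a k‖ ≤ ‖Q x‖ * R(ρ)` with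
`R(ρ) → 1` for `ρ → 1` (on `‖x‖ = 1` each factor is `1`; e.g. by uniform continuity, or
`‖conj a - x‖^2 - ‖1 - x a‖^2 = (‖a‖^2 - 1)(1 - ρ^2)` and `‖1 - x a‖ ≥ ρ ‖a‖ - 1 ≥ (‖a‖ - 1)/2`);
the maximum principle gives `‖P 0‖ ≤ ‖Q 0‖ R(ρ)`; let `ρ → 1`. -/
theorem prod_le_of_comp {M : ℕ} (a : Fin M → ℂ) (Q : ℂ → ℂ) (hd : Differentiable ℂ Q)
    (h0 : ∀ x : ℂ, ‖x‖ < 1 → Q x ≠ 0)
    (h1 : ∀ x : ℂ, ‖x‖ < 1 → ‖∏ k, (1 - x * a k)‖ ≤ ‖Q x‖) :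
    ∏ k, max 1 ‖a k‖ ≤ ‖Q 0‖ := by
  have hcont : Filter.Tendsto
      (fun ρ : ℝ => ∏ k, (if ‖a k‖ ≤ 1 then (1 : ℝ) else ρ * ‖a k‖))
      (nhdsWithin 1 (Set.Iio 1)) (nhds (∏ k, max 1 ‖a k‖)) := by
    have hc : Continuous (fun ρ : ℝ => ∏ k, (if ‖a k‖ ≤ 1 then (1 : ℝ) else ρ * ‖a k‖)) := by
      refine continuous_finset_prod _ fun k _ => ?_
      split_ifs <;> fun_prop
    have ht := hc.tendsto 1
    have e : ∏ k, (if ‖a k‖ ≤ 1 then (1 : ℝ) else 1 * ‖a k‖) = ∏ k, max 1 ‖a k‖ := by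
      refine Finset.prod_congr rfl fun k _ => ?_
      split_ifs with h
      · exact (max_eq_left h).symm
      · rw [one_mul]; exact (max_eq_right (not_le.1 h).le).symm
    rw [← e]
    exact ht.mono_left nhdsWithin_le_nhds
  refine le_of_tendsto hcont ?_
  filter_upwards [self_mem_nhdsWithin,
    mem_nhdsWithin_of_mem_nhds (lt_mem_nhds (zero_lt_one (α := ℝ)))] with ρ h2 h3
  exact grc_rho a Q hd h0 h1 h3 h2

end Pool.Agent.Lib.c113aaE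
end
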