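import Pool.Agent.Lib.c113aaE.GrA

section

set_option autoImplicit false

namespace Pool.Agent.Lib.c113aaE

open Finset Polynomial Pool.MP_c113aa_an.BV

/-- Grace's theorem.  Proof: induction on `N`; for `N + 1` use `Fin.prod_univ_castSucc` and the
induction hypothesis for the functional `q ↦ L (q * (1 - C (b (Fin.last N)) * X))`
(`L.comp (LinearMap.mulRight ...)` or `L ∘ₗ LinearMap.mul' ...`), whose hypothesis is `laguerre`. -/
theorem grace (N : ℕ) : ∀ L : ℂ[X] →ₗ[ℂ] ℂ,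
    (∀ b : ℂ, ‖b‖ < 1 → L ((1 - C b * X) ^ N) ≠ 0) →
    ∀ b : Fin N → ℂ, (∀ j, ‖b j‖ < 1) → L (∏ j, (1 - C (b j) * X)) ≠ 0 := by
  induction N with
  | zero =>
    intro L hL b _
    have h1 := hL 0 (by simp)
    rw [pow_zero] at h1
    rw [Finset.univ_eq_empty, Finset.prod_empty]
    exact h1
  | succ N ih =>
    intro L hL b hb
    rw [Fin.prod_univ_castSucc]
    have h1 := ih (L ∘ₗ LinearMap.mulRight ℂ (1 - C (b (Fin.last N)) * X)) (fun β hβ => by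
      rw [LinearMap.comp_apply, LinearMap.mulRight_apply]
      exact laguerre N L hL hβ (hb _)) (fun j => b j.castSucc) (fun j => hb _)
    rw [LinearMap.comp_apply, LinearMap.mulRight_apply] at h1
    exact h1

/-- Comparison (Bernstein, de Bruijn).  Proof: for `‖l‖ > 1` the functional `l • L₂ - L₁` satisfies the
hypothesis of `grace`, so `l * L₂ (∏ ...) ≠ L₁ (∏ ...)`; also `L₂ (∏ ...) ≠ 0` by `grace`; take
`l = L₁ (∏ ...) / L₂ (∏ ...)`. -/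
theorem grace_comp (N : ℕ) (L₁ L₂ : ℂ[X] →ₗ[ℂ] ℂ)
    (h : ∀ b : ℂ, ‖b‖ < 1 → L₂ ((1 - C b * X) ^ N) ≠ 0 ∧
      ‖L₁ ((1 - C b * X) ^ N)‖ ≤ ‖L₂ ((1 - C b * X) ^ N)‖)
    (b : Fin N → ℂ) (hb : ∀ j, ‖b j‖ < 1) :
    L₂ (∏ j, (1 - C (b j) * X)) ≠ 0 ∧
      ‖L₁ (∏ j, (1 - C (b j) * X))‖ ≤ ‖L₂ (∏ j, (1 - C (b j) * X))‖ := by
  have h2 := grace N L₂ (fun β hβ => (h β hβ).1) b hb
  refine ⟨h2, ?_⟩
  by_contra hn
  rw [not_le] at hn
  obtain ⟨l, hl⟩ : ∃ l : ℂ, l = L₁ (∏ j, (1 - C (b j) * X)) / L₂ (∏ j, (1 - C (b j) * X)) :=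
    ⟨_, rfl⟩
  have hl1 : 1 < ‖l‖ := by
    rw [hl, norm_div, one_lt_div (norm_pos_iff.2 h2)]
    exact hn
  have h3 := grace N (l • L₂ - L₁) (fun β hβ => by
    obtain ⟨h4, h5⟩ := h β hβ
    rw [LinearMap.sub_apply, LinearMap.smul_apply, smul_eq_mul]
    intro h6
    have h7 : ‖l‖ * ‖L₂ ((1 - C β * X) ^ N)‖ = ‖L₁ ((1 - C β * X) ^ N)‖ := by
      rw [← norm_mul, sub_eq_zero.1 h6]
    have h8 : 0 < ‖L₂ ((1 - C β * X) ^ N)‖ := norm_pos_iff.2 h4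
    nlinarith) b hb
  apply h3
  rw [LinearMap.sub_apply, LinearMap.smul_apply, smul_eq_mul, hl, div_mul_cancel₀ _ h2, sub_self]

end Pool.Agent.Lib.c113aaE
end
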