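import Pool.Agent.Lib.c113aaE.FiveX
import Pool.Agent.Lib.c113aaE.Grace
import Pool.Agent.Lib.c113aaE.GrC

section

set_option autoImplicit false

namespace Pool.Agent.Lib.c113aaE

open Finset Polynomial Pool.MP_c113aa_an.BV

private theorem fiveA_deg (α : Fin 4 → ℂ) : (∏ k, (1 - C (α k) * X) : ℂ[X]).natDegree < 5 := by
  have h1 : ∀ k, (1 - C (α k) * X : ℂ[X]).natDegree ≤ 1 := fun k => by
    refine (natDegree_sub_le _ _).trans (max_le ?_ ?_)
    · rw [natDegree_one]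
      exact Nat.zero_le _
    · exact (natDegree_C_mul_le _ _).trans natDegree_X_le
  have h2 := (natDegree_prod_le (Finset.univ : Finset (Fin 4)) fun k => (1 - C (α k) * X : ℂ[X])).trans
    (Finset.sum_le_sum fun k _ => h1 k)
  have h3 : ∑ _k : Fin 4, 1 = 4 := by simp
  omega

/-- Proof: compare the coefficients of `X^j` in `h` (`coeff_derivative`, `coeff_X_mul`):
`(j + 1) (∏ (1 - C (α k) * X)).coeff j = (∏ (1 - C (β j) * X)).coeff j`; substitute `x s` for `X`:
`(∏ (1 - C (x β j) X)).coeff j = x^j (∏ (1 - C (β j) X)).coeff j` (`scaleRoots` or `comp (C x * X)`),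
and `∏ (1 - r x α k) = ∑_j (r x)^j (∏ (1 - C (α k) X)).coeff j`. -/
theorem lf_prod {α β : Fin 4 → ℂ}
    (h : derivative (X * ∏ k, (1 - C (α k) * X) : ℂ[X]) = ∏ j, (1 - C (β j) * X)) (r : ℝ) (x : ℂ) :
    lf r (∏ j, (1 - C (x * β j) * X)) = ∏ k, (1 - x * (r * α k)) := by
  have hc : ∀ j, (∏ j, (1 - C (β j) * X) : ℂ[X]).coeff j =
      (∏ k, (1 - C (α k) * X) : ℂ[X]).coeff j * ((j : ℂ) + 1) := by
    intro j
    rw [← h, coeff_derivative, coeff_X_mul]
  have hq : (∏ j, (1 - C (x * β j) * X) : ℂ[X]) = (∏ j, (1 - C (β j) * X) : ℂ[X]).comp (C x * X) := by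
    rw [Polynomial.prod_comp]
    refine Finset.prod_congr rfl fun j _ => ?_
    rw [sub_comp, one_comp, mul_comp, C_comp, X_comp, C_mul]
    ring
  have he : (∏ k, (1 - x * (r * α k)) : ℂ) = (∏ k, (1 - C (α k) * X) : ℂ[X]).eval (x * r) := by
    rw [eval_prod]
    refine Finset.prod_congr rfl fun k _ => ?_
    rw [eval_sub, eval_one, eval_mul, eval_C, eval_X]
    ring
  rw [he, eval_eq_sum_range' (fiveA_deg α)]
  have hl : lf r (∏ j, (1 - C (x * β j) * X)) = ∑ j ∈ Finset.range 5,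
      ((r : ℂ) ^ j / ((j : ℂ) + 1)) * (∏ j, (1 - C (x * β j) * X) : ℂ[X]).coeff j := by
    simp only [lf, LinearMap.sum_apply, LinearMap.smul_apply, lcoeff_apply, smul_eq_mul]
  rw [hl]
  refine Finset.sum_congr rfl fun j _ => ?_
  have hj : ((j : ℂ) + 1) ≠ 0 := by
    exact_mod_cast Nat.succ_ne_zero j
  rw [hq, comp_C_mul_X_coeff, hc, mul_pow]
  field_simp

end Pool.Agent.Lib.c113aaE
end
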