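import Pool.Agent.Lib.c113aaE.FiveA

section

set_option autoImplicit false

namespace Pool.Agent.Lib.c113aaE

open Finset Polynomial Pool.MP_c113aa_an.BV

private theorem fiveB_quad {r c : ℝ} (hc : 0 < c) (hr : r ^ 2 < 4 * c) {b : ℂ}
    (h : 1 - (r : ℂ) * b + (c : ℂ) * b ^ 2 = 0) : c * ‖b‖ ^ 2 = 1 := by
  have hre : 1 - r * b.re + c * (b.re ^ 2 - b.im ^ 2) = 0 := by
    have := congrArg Complex.re h
    simp [pow_two, Complex.mul_re, Complex.mul_im] at this
    nlinarith [this]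
  have him : -(r * b.im) + c * (2 * b.re * b.im) = 0 := by
    have := congrArg Complex.im h
    simp [pow_two, Complex.mul_re, Complex.mul_im] at this
    nlinarith [this]
  have hn : ‖b‖ ^ 2 = b.re ^ 2 + b.im ^ 2 := by
    rw [← Complex.normSq_eq_norm_sq, Complex.normSq_apply]
    ring
  rw [hn]
  by_cases hv : b.im = 0
  · exfalso
    rw [hv] at hre
    nlinarith [sq_nonneg (2 * c * b.re - r)]
  · have h2 : 2 * c * b.re = r := by
      have : b.im * (2 * c * b.re - r) = 0 := by linarith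
      rcases mul_eq_zero.1 this with h3 | h3
      · exact absurd h3 hv
      · linarith
    rw [← h2] at hre
    linarith

private theorem fiveB_fac {r κ : ℝ} (hr : 0 < r) (hκ : 1 / 4 < κ) (h1 : κ * r ^ 2 ≤ 1) {b : ℂ}
    (hb : ‖b‖ < 1) : 1 - (r : ℂ) * b + (κ : ℂ) * ((r : ℂ) * b) ^ 2 ≠ 0 := by
  intro h
  have hc : 0 < κ * r ^ 2 := by positivity
  have hr2 : r ^ 2 < 4 * (κ * r ^ 2) := by nlinarith [sq_pos_of_pos hr]
  have h' : 1 - (r : ℂ) * b + ((κ * r ^ 2 : ℝ) : ℂ) * b ^ 2 = 0 := by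
    rw [← h]
    push_cast
    ring
  have h2 := fiveB_quad hc hr2 h'
  have h3 : ‖b‖ ^ 2 < 1 := by
    have := norm_nonneg b
    nlinarith
  nlinarith [sq_nonneg ‖b‖]

/-- First bound (Walsh).  Proof: `r = 1/√cX`, `r^2 cX = 1`.  For `‖b‖ < 1` the number
`lf r ((1 - C b * X)^4) = (1 - r b + b^2)(1 - r b + (cY/cX) b^2)` is not zero: both quadratic
polynomials have real coefficients and negative discriminants (`r^2 < 4`, `r^2 < 4 cY / cX`), so
their zeros have the squared moduli `1` and `cX/cY > 1`.  If `‖α k‖^2 > cX` for some `k`, then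
`x = 1/(r α k)` has `‖x‖ < 1` and the product in `lf_prod` is zero, against `grace` for the numbers
`x * β j`. -/
theorem five_le {α β : Fin 4 → ℂ}
    (h : derivative (X * ∏ k, (1 - C (α k) * X) : ℂ[X]) = ∏ j, (1 - C (β j) * X))
    (hβ : ∀ j, ‖β j‖ ≤ 1) (k : Fin 4) : ‖α k‖ ^ 2 ≤ cX := by
  obtain ⟨-, -, hY0, hYX, hY4, hX4, -, -⟩ := cXY
  have hX0 : 0 < cX := by linarith
  by_contra hcon
  push Not at hcon
  have hs : 0 < Real.sqrt cX := Real.sqrt_pos.2 hX0
  set r : ℝ := 1 / Real.sqrt cX with hr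
  have hr0 : 0 < r := by positivity
  have hrX : cX * r ^ 2 = 1 := by
    rw [hr, div_pow, one_pow, Real.sq_sqrt hX0.le]
    field_simp
  have hα : α k ≠ 0 := by
    intro h0
    rw [h0, norm_zero] at hcon
    norm_num at hcon
    linarith
  have hL : ∀ b : ℂ, ‖b‖ < 1 → lf r ((1 - C b * X) ^ 4) ≠ 0 := by
    intro b hb
    rw [lf_pow]
    refine mul_ne_zero (fiveB_fac hr0 hX4 hrX.le hb) (fiveB_fac hr0 hY4 ?_ hb)
    have : cY * r ^ 2 ≤ cX * r ^ 2 := by
      apply mul_le_mul_of_nonneg_right hYX.le (sq_nonneg r)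
    linarith
  have hrα : (r : ℂ) * α k ≠ 0 := mul_ne_zero (by exact_mod_cast hr0.ne') hα
  have hx : ‖((r : ℂ) * α k)⁻¹‖ < 1 := by
    rw [norm_inv, norm_mul, Complex.norm_real, Real.norm_of_nonneg hr0.le]
    apply inv_lt_one_of_one_lt₀
    have h1 : 1 < (r * ‖α k‖) ^ 2 := by
      rw [mul_pow]
      have : r ^ 2 * cX < r ^ 2 * ‖α k‖ ^ 2 := mul_lt_mul_of_pos_left hcon (by positivity)
      linarith [mul_comm cX (r ^ 2)]
    have h2 : 0 ≤ r * ‖α k‖ := by positivity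
    nlinarith
  have hg := grace 4 (lf r) hL (fun j => ((r : ℂ) * α k)⁻¹ * β j) (fun j => by
    rw [norm_mul]
    calc ‖((r : ℂ) * α k)⁻¹‖ * ‖β j‖ ≤ ‖((r : ℂ) * α k)⁻¹‖ * 1 :=
          mul_le_mul_of_nonneg_left (hβ j) (norm_nonneg _)
      _ < 1 := by rw [mul_one]; exact hx)
  apply hg
  have hp := lf_prod h r (((r : ℂ) * α k)⁻¹)
  rw [hp]
  apply Finset.prod_eq_zero (Finset.mem_univ k)
  rw [inv_mul_cancel₀ hrα, sub_self]

end Pool.Agent.Lib.c113aaE
end
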