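import Pool.Agent.Lib.c113aaE.FiveA

section

set_option autoImplicit false

namespace Pool.Agent.Lib.c113aaE

open Finset Polynomial Pool.MP_c113aa_an.BV

private theorem fiveC_quad {c r : ℝ} (hc : 1 ≤ c) (hd : r ^ 2 < 4 * c) {b : ℂ}
    (hb : ‖b‖ < 1) : (c : ℂ) - r * b + b ^ 2 ≠ 0 := by
  intro h0
  have hn : b.re ^ 2 + b.im ^ 2 < 1 := by
    have h1 : ‖b‖ ^ 2 = b.re ^ 2 + b.im ^ 2 := by
      rw [Complex.sq_norm, Complex.normSq_apply]
      ring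
    rw [← h1]
    have h2 := norm_nonneg b
    nlinarith
  have hre := congrArg Complex.re h0
  have him := congrArg Complex.im h0
  simp only [pow_two, Complex.add_re, Complex.sub_re, Complex.mul_re, Complex.ofReal_re,
    Complex.ofReal_im, Complex.zero_re, zero_mul, sub_zero, Complex.add_im, Complex.sub_im,
    Complex.mul_im, Complex.zero_im, add_zero, zero_sub] at hre him
  have h3 : b.im * (2 * b.re - r) = 0 := by linarith
  rcases mul_eq_zero.1 h3 with h4 | h4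
  · rw [h4] at hre
    nlinarith [sq_nonneg (2 * b.re - r)]
  · have h5 : r = 2 * b.re := by linarith
    rw [h5] at hre
    nlinarith

private theorem fiveC_cmp {q r : ℝ} (hq : 1 < q) (hr : 0 < r) (hrq : r ^ 2 = q + 1) {b : ℂ}
    (hb : ‖b‖ < 1) : ‖(1 : ℂ) - r * b + q * b ^ 2‖ ≤ ‖(q : ℂ) - r * b + b ^ 2‖ := by
  have hn : b.re ^ 2 + b.im ^ 2 < 1 := by
    have h1 : ‖b‖ ^ 2 = b.re ^ 2 + b.im ^ 2 := by
      rw [Complex.sq_norm, Complex.normSq_apply]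
      ring
    rw [← h1]
    have h2 := norm_nonneg b
    nlinarith
  have hr1 : 1 ≤ r := by nlinarith
  have h5 : 0 ≤ (q + 1) * (1 + (b.re ^ 2 + b.im ^ 2)) - 2 * r * b.re := by
    rw [← hrq]
    have h6 : 2 * b.re ≤ 1 + (b.re ^ 2 + b.im ^ 2) := by
      nlinarith [sq_nonneg (b.re - 1), sq_nonneg b.im]
    have h7 : 0 ≤ b.re ^ 2 + b.im ^ 2 := by positivity
    have h8 : r * (2 * b.re) ≤ r * (1 + (b.re ^ 2 + b.im ^ 2)) :=
      mul_le_mul_of_nonneg_left h6 hr.le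
    have h9 : r * (1 + (b.re ^ 2 + b.im ^ 2)) ≤ r ^ 2 * (1 + (b.re ^ 2 + b.im ^ 2)) := by
      apply mul_le_mul_of_nonneg_right _ (by linarith)
      nlinarith
    linarith
  refine le_of_sq_le_sq ?_ (norm_nonneg _)
  rw [Complex.sq_norm, Complex.sq_norm, Complex.normSq_apply, Complex.normSq_apply]
  simp only [pow_two, Complex.add_re, Complex.sub_re, Complex.mul_re, Complex.ofReal_re,
    Complex.ofReal_im, Complex.one_re, Complex.one_im, zero_mul, sub_zero, Complex.add_im,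
    Complex.sub_im, Complex.mul_im, add_zero, zero_sub]
  have h10 : 0 ≤ (q - 1) * (1 - (b.re ^ 2 + b.im ^ 2)) *
      ((q + 1) * (1 + (b.re ^ 2 + b.im ^ 2)) - 2 * r * b.re) :=
    mul_nonneg (mul_nonneg (by linarith) (by linarith)) h5
  have h11 : (q - 1) * (1 - (b.re ^ 2 + b.im ^ 2)) *
      ((q + 1) * (1 + (b.re ^ 2 + b.im ^ 2)) - 2 * r * b.re) =
      ((q - r * b.re + (b.re * b.re - b.im * b.im)) *
        (q - r * b.re + (b.re * b.re - b.im * b.im)) +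
      (-(r * b.im) + (b.re * b.im + b.im * b.re)) *
        (-(r * b.im) + (b.re * b.im + b.im * b.re))) -
      ((1 - r * b.re + q * (b.re * b.re - b.im * b.im)) *
        (1 - r * b.re + q * (b.re * b.re - b.im * b.im)) +
      (-(r * b.im) + q * (b.re * b.im + b.im * b.re)) *
        (-(r * b.im) + q * (b.re * b.im + b.im * b.re))) := by
    ring
  linarith

private noncomputable def fiveC_L (q r : ℝ) : ℂ[X] →ₗ[ℂ] ℂ :=
  (q : ℂ) • Polynomial.lcoeff ℂ 0 + ((r : ℂ) * (q + 1) / 4) • Polynomial.lcoeff ℂ 1 +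
    (((q : ℂ) + 1 + r ^ 2) / 6) • Polynomial.lcoeff ℂ 2 + ((r : ℂ) / 2) • Polynomial.lcoeff ℂ 3 +
    Polynomial.lcoeff ℂ 4

private theorem fiveC_L_apply (q r : ℝ) (P : ℂ[X]) : fiveC_L q r P =
    (q : ℂ) * P.coeff 0 + ((r : ℂ) * (q + 1) / 4) * P.coeff 1 +
    (((q : ℂ) + 1 + r ^ 2) / 6) * P.coeff 2 + ((r : ℂ) / 2) * P.coeff 3 + P.coeff 4 := by
  simp only [fiveC_L, LinearMap.add_apply, LinearMap.smul_apply, Polynomial.lcoeff_apply,
    smul_eq_mul]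

private theorem fiveC_pow_coeff (b : ℂ) :
    ((1 - C b * X : ℂ[X]) ^ 4).coeff 0 = 1 ∧ ((1 - C b * X : ℂ[X]) ^ 4).coeff 1 = -(4 * b) ∧
    ((1 - C b * X : ℂ[X]) ^ 4).coeff 2 = 6 * b ^ 2 ∧
    ((1 - C b * X : ℂ[X]) ^ 4).coeff 3 = -(4 * b ^ 3) ∧
    ((1 - C b * X : ℂ[X]) ^ 4).coeff 4 = b ^ 4 := by
  have h1 : ((1 : ℂ[X]) - C b * X) ^ 4 = C 1 + C (-(4 * b)) * X + C (6 * b ^ 2) * X ^ 2 +
      C (-(4 * b ^ 3)) * X ^ 3 + C (b ^ 4) * X ^ 4 := by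
    have e4 : (C (4 : ℂ) : ℂ[X]) = 4 := rfl
    have e6 : (C (6 : ℂ) : ℂ[X]) = 6 := rfl
    rw [C_neg, C_neg, C_mul, C_mul, C_mul, C_pow, C_pow, C_pow, C_1, e4, e6]
    ring
  rw [h1]
  refine ⟨?_, ?_, ?_, ?_, ?_⟩ <;>
  simp only [coeff_add, coeff_C_mul, coeff_X_pow, coeff_X, coeff_C] <;> norm_num

private theorem fiveC_L_pow (q r : ℝ) (b : ℂ) : fiveC_L q r ((1 - C b * X) ^ 4) =
    ((q : ℂ) - r * b + b ^ 2) * (1 - r * b + b ^ 2) := by
  obtain ⟨h0, h1, h2, h3, h4⟩ := fiveC_pow_coeff b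
  rw [fiveC_L_apply, h0, h1, h2, h3, h4]
  ring
private theorem fiveC_coeff (β : Fin 4 → ℂ) (x : ℂ) (i : ℕ) :
    (∏ j, (1 - C (x * β j) * X) : ℂ[X]).coeff i =
      (∏ j, (1 - C (β j) * X) : ℂ[X]).coeff i * x ^ i := by
  have h : (∏ j, (1 - C (x * β j) * X) : ℂ[X]) = (∏ j, (1 - C (β j) * X) : ℂ[X]).comp (C x * X) := by
    rw [Polynomial.prod_comp]
    refine Finset.prod_congr rfl fun j _ => ?_
    rw [sub_comp, one_comp, mul_comp, C_comp, X_comp, C_mul]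
    ring
  rw [h, Polynomial.comp_C_mul_X_coeff]

/-- Second bound (Mahler measure).  Proof: `r = 1/√cY`, `q = cX/cY > 1`, `r^2 = q + 1`.  Let `L₁ = lf r`,
so `L₁ ((1 - C b * X)^4) = (1 - r b + q b^2)(1 - r b + b^2)`, and let `L₂` be the functional with
`L₂ ((1 - C b * X)^4) = (q - r b + b^2)(1 - r b + b^2) = q - r (q + 1) b + (q + 1 + r^2) b^2 - 2 r b^3
+ b^4`, that is `L₂ (X^j) = (-1)^j c_j / C(4,j)`, with `c = (q, -r (q+1), q + 1 + r^2, -2 r, 1)`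
(similarly to `lf`).  For `‖b‖ < 1` the right side is not zero (discriminants `r^2 - 4 q < 0`,
`r^2 - 4 < 0`, zeros of squared moduli `q > 1` and `1`), and
`‖q - r b + b^2‖^2 - ‖1 - r b + q b^2‖^2 = (q - 1)(1 - ‖b‖^2)((q + 1)(1 + ‖b‖^2) - 2 r re b) ≥ 0`,
as `q + 1 = r^2 ≥ r`.  By `grace_comp`, for `‖x‖ < 1`, `Q x = L₂ (∏ (1 - C (x * β j) * X))` (a
polynomial in `x`) is not zero and `‖∏ (1 - x (r α k))‖ ≤ ‖Q x‖` (`lf_prod`); `Q 0 = L₂ 1 = q`; so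
`prod_le_of_comp` gives the claim. -/
theorem five_prod {α β : Fin 4 → ℂ}
    (h : derivative (X * ∏ k, (1 - C (α k) * X) : ℂ[X]) = ∏ j, (1 - C (β j) * X))
    (hβ : ∀ j, ‖β j‖ ≤ 1) : ∏ k, max 1 (‖α k‖ / Real.sqrt cY) ≤ cX / cY := by
  obtain ⟨e1, e2, e3, e4, e5, e6, e7, e8⟩ := cXY
  have hs : 0 < Real.sqrt cY := Real.sqrt_pos.2 e3
  have hs2 : Real.sqrt cY ^ 2 = cY := Real.sq_sqrt e3.le
  set r : ℝ := 1 / Real.sqrt cY with hr
  set q : ℝ := cX / cY with hq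
  have hr0 : 0 < r := by positivity
  have hr2 : r ^ 2 = 1 / cY := by rw [hr, div_pow, one_pow, hs2]
  have hrq : r ^ 2 = q + 1 := by
    have e9 : 1 / cY = (cX + cY) / cY := by rw [e1]
    rw [hr2, hq, e9, add_div, div_self e3.ne']
  have hq1 : 1 < q := by rw [hq, lt_div_iff₀ e3]; linarith
  have hr4 : r ^ 2 < 4 * 1 := by
    rw [hr2, div_lt_iff₀ e3]
    linarith
  have hcX : cX * r ^ 2 = q := by rw [hr2, hq]; field_simp
  have hcY : cY * r ^ 2 = 1 := by rw [hr2]; field_simp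
  have hcXc : (cX : ℂ) * (r : ℂ) ^ 2 = q := by rw [← hcX]; push_cast; rfl
  have hcYc : (cY : ℂ) * (r : ℂ) ^ 2 = 1 := by
    rw [← Complex.ofReal_pow, ← Complex.ofReal_mul, hcY, Complex.ofReal_one]
  have hL1 : ∀ b : ℂ, lf r ((1 - C b * X) ^ 4) =
      (1 - r * b + q * b ^ 2) * (1 - r * b + b ^ 2) := by
    intro b
    rw [lf_pow, mul_pow, ← mul_assoc, ← mul_assoc, hcXc, hcYc, one_mul]
  have hcomp : ∀ b : ℂ, ‖b‖ < 1 → fiveC_L q r ((1 - C b * X) ^ 4) ≠ 0 ∧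
      ‖lf r ((1 - C b * X) ^ 4)‖ ≤ ‖fiveC_L q r ((1 - C b * X) ^ 4)‖ := by
    intro b hb
    rw [hL1, fiveC_L_pow]
    have h1 : (q : ℂ) - r * b + b ^ 2 ≠ 0 := fiveC_quad hq1.le (by nlinarith) hb
    have h2 : (1 : ℂ) - r * b + b ^ 2 ≠ 0 := by
      have h3 := fiveC_quad (c := 1) (r := r) le_rfl hr4 hb
      rwa [Complex.ofReal_one] at h3
    refine ⟨mul_ne_zero h1 h2, ?_⟩
    rw [norm_mul, norm_mul]
    exact mul_le_mul_of_nonneg_right (fiveC_cmp hq1 hr0 hrq hb) (norm_nonneg _)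
  have hkey : ∀ x : ℂ, ‖x‖ < 1 → fiveC_L q r (∏ j, (1 - C (x * β j) * X)) ≠ 0 ∧
      ‖∏ k, (1 - x * ((r : ℂ) * α k))‖ ≤ ‖fiveC_L q r (∏ j, (1 - C (x * β j) * X))‖ := by
    intro x hx
    have h1 := grace_comp 4 (lf r) (fiveC_L q r) hcomp (fun j => x * β j) (fun j => by
      rw [norm_mul]
      have h2 := mul_le_mul_of_nonneg_left (hβ j) (norm_nonneg x)
      linarith)
    rw [lf_prod h r x] at h1
    exact h1
  have hfin := prod_le_of_comp (fun k => (r : ℂ) * α k)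
    (fun x => fiveC_L q r (∏ j, (1 - C (x * β j) * X))) (by
      simp only [fiveC_L_apply, fiveC_coeff]
      fun_prop) (fun x hx => (hkey x hx).1) (fun x hx => (hkey x hx).2)
  have h0 : fiveC_L q r (∏ j, (1 - C ((0 : ℂ) * β j) * X)) = q := by
    rw [fiveC_L_apply]
    simp [coeff_one]
  have hfin2 : ∏ k, max 1 ‖(r : ℂ) * α k‖ ≤ ‖fiveC_L q r (∏ j, (1 - C ((0 : ℂ) * β j) * X))‖ :=
    hfin
  rw [h0, Complex.norm_real, Real.norm_of_nonneg (by linarith)] at hfin2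
  have h1 : ∀ k, max 1 (‖α k‖ / Real.sqrt cY) = max 1 ‖(r : ℂ) * α k‖ := by
    intro k
    rw [norm_mul, Complex.norm_real, Real.norm_of_nonneg hr0.le, hr]
    congr 1
    ring
  simp only [h1]
  exact hfin2

end Pool.Agent.Lib.c113aaE
end
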