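import Pool.Agent.Lib.c113aaE.FiveA

section

set_option autoImplicit false

namespace Pool.Agent.Lib.c113aaE

open Finset Polynomial Pool.MP_c113aa_an.BV

private theorem fiveD_conc {q v : ℝ} (hq : 1 < q) (h1 : 1 ≤ v) (h2 : v ≤ q) :
    (v - 1) / (q - 1) * Real.log q ≤ Real.log v := by
  have hq1 : 0 < q - 1 := by linarith
  have hb0 : 0 ≤ (v - 1) / (q - 1) := div_nonneg (by linarith) hq1.le
  have hb1 : (v - 1) / (q - 1) ≤ 1 := (div_le_one hq1).2 (by linarith)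
  have h := (strictConcaveOn_log_Ioi.concaveOn).2 (Set.mem_Ioi.2 (one_pos : (0 : ℝ) < 1))
    (Set.mem_Ioi.2 (by linarith : (0 : ℝ) < q)) (by linarith : 0 ≤ 1 - (v - 1) / (q - 1)) hb0
    (by ring)
  simp only [smul_eq_mul, Real.log_one, mul_zero, zero_add] at h
  have e : (1 - (v - 1) / (q - 1)) * 1 + (v - 1) / (q - 1) * q = v := by
    field_simp
    ring
  rw [e] at h
  exact h

/-- Proof: let `q = cX / cY`, `v k = max 1 (y k / cY) ∈ [1, q]`, `∏ v k ≤ q^2` (as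
`max 1 (y / cY) = (max 1 √(y/cY))^2`).  Concavity of `log` on `[1, q]`:
`log (v k) ≥ (v k - 1)/(q - 1) * log q`; summing, `∑ (v k - 1) ≤ 2 (q - 1)`, so
`∑ y k ≤ cY ∑ v k ≤ cY (4 + 2 (q - 1)) = 2 (cY + cX) = 2`. -/
theorem five_real {y : Fin 4 → ℝ} (h0 : ∀ k, 0 ≤ y k) (h1 : ∀ k, y k ≤ cX)
    (h2 : ∏ k, max 1 (Real.sqrt (y k) / Real.sqrt cY) ≤ cX / cY) : ∑ k, y k ≤ 2 := by
  obtain ⟨c1, -, c3, c4, -⟩ := cXY
  have hq : 1 < cX / cY := (one_lt_div c3).2 c4
  set q : ℝ := cX / cY with hqd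
  have hv1 : ∀ k, 1 ≤ (max 1 (Real.sqrt (y k) / Real.sqrt cY)) ^ 2 := fun k =>
    one_le_pow₀ (le_max_left _ _)
  have hyv : ∀ k, y k ≤ cY * (max 1 (Real.sqrt (y k) / Real.sqrt cY)) ^ 2 := by
    intro k
    have h3 : (Real.sqrt (y k) / Real.sqrt cY) ^ 2 = y k / cY := by
      rw [div_pow, Real.sq_sqrt (h0 k), Real.sq_sqrt c3.le]
    have h4 : (Real.sqrt (y k) / Real.sqrt cY) ^ 2 ≤
        (max 1 (Real.sqrt (y k) / Real.sqrt cY)) ^ 2 :=
      pow_le_pow_left₀ (by positivity) (le_max_right _ _) 2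
    rw [h3, div_le_iff₀ c3] at h4
    linarith [mul_comm cY ((max 1 (Real.sqrt (y k) / Real.sqrt cY)) ^ 2)]
  have hvq : ∀ k, (max 1 (Real.sqrt (y k) / Real.sqrt cY)) ^ 2 ≤ q := by
    intro k
    rcases le_total 1 (Real.sqrt (y k) / Real.sqrt cY) with h5 | h5
    · rw [max_eq_right h5, div_pow, Real.sq_sqrt (h0 k), Real.sq_sqrt c3.le]
      exact div_le_div_of_nonneg_right (h1 k) c3.le
    · rw [max_eq_left h5]
      linarith
  have hprod : ∏ k, (max 1 (Real.sqrt (y k) / Real.sqrt cY)) ^ 2 ≤ q ^ 2 := by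
    rw [Finset.prod_pow]
    exact pow_le_pow_left₀ (Finset.prod_nonneg fun k _ => by positivity) h2 2
  have hlq : 0 < Real.log q := Real.log_pos hq
  have hlog : ∑ k, Real.log ((max 1 (Real.sqrt (y k) / Real.sqrt cY)) ^ 2) ≤ 2 * Real.log q := by
    rw [← Real.log_prod (fun k _ => by have := hv1 k; positivity)]
    have h6 := Real.log_le_log (Finset.prod_pos fun k _ => lt_of_lt_of_le one_pos (hv1 k)) hprod
    rw [Real.log_pow] at h6
    exact_mod_cast h6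
  have hsum : ∑ k, ((max 1 (Real.sqrt (y k) / Real.sqrt cY)) ^ 2 - 1) / (q - 1) * Real.log q ≤
      2 * Real.log q :=
    (Finset.sum_le_sum fun k _ => fiveD_conc hq (hv1 k) (hvq k)).trans hlog
  rw [← Finset.sum_mul, ← Finset.sum_div] at hsum
  have h7 := le_of_mul_le_mul_right hsum hlq
  have hq1 : 0 < q - 1 := by linarith
  rw [div_le_iff₀ hq1, Finset.sum_sub_distrib] at h7
  simp only [Finset.sum_const, Finset.card_univ, Fintype.card_fin, nsmul_eq_mul, mul_one] at h7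
  have h8 : ∑ k, y k ≤ cY * ∑ k, (max 1 (Real.sqrt (y k) / Real.sqrt cY)) ^ 2 := by
    rw [Finset.mul_sum]
    exact Finset.sum_le_sum fun k _ => hyv k
  have h9 : cY * q = cX := by
    rw [hqd]
    field_simp
  have h10 : cY * ∑ k, (max 1 (Real.sqrt (y k) / Real.sqrt cY)) ^ 2 ≤ cY * (2 * (q - 1) + 4) := by
    refine mul_le_mul_of_nonneg_left ?_ c3.le
    push_cast at h7
    linarith
  nlinarith
  
end Pool.Agent.Lib.c113aaE
end
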