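import Pool.Agent.Lib.c113aaE.Defs

section

set_option autoImplicit false

namespace Pool.Agent.Lib.c113aaE

open Finset Polynomial Pool.MP_c113aa_an.BV

private theorem recip_coeff {ι : Type*} (s : Finset ι) (c : ι → ℂ) :
    (∏ i ∈ s, (1 - C (c i) * X) : ℂ[X]).coeff 0 = 1 ∧
      (∏ i ∈ s, (1 - C (c i) * X) : ℂ[X]).coeff 1 = -∑ i ∈ s, c i := by
  classical
  induction s using Finset.induction_on with
  | empty => simp [coeff_one]
  | insert a s ha ih =>
    rw [Finset.prod_insert ha, Finset.sum_insert ha]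
    have h0 : (1 - C (c a) * X : ℂ[X]).coeff 0 = 1 := by simp
    have h1 : (1 - C (c a) * X : ℂ[X]).coeff 1 = -c a := by
      rw [coeff_sub, coeff_C_mul, coeff_X_one, coeff_one]
      simp
    refine ⟨?_, ?_⟩
    · rw [mul_coeff_zero, h0, ih.1, one_mul]
    · rw [mul_coeff_one, h0, h1, ih.1, ih.2]
      ring

private theorem recip_prod {n : ℕ} (A : Fin n → ℂ) (hA : ∀ k, A k ≠ 0) :
    (∏ k, (C (A k) - X) : ℂ[X]) = C (∏ k, A k) * ∏ k, (1 - C (A k)⁻¹ * X) := by
  rw [map_prod, ← Finset.prod_mul_distrib]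
  refine Finset.prod_congr rfl fun k _ => ?_
  rw [mul_sub, mul_one, ← mul_assoc, ← C_mul, mul_inv_cancel₀ (hA k), C_1, one_mul]

/-- Reciprocal form.  Proof: put `a = Z k₀`, `A k = a - Z (k₀.succAbove k)` (not zero by
`c113aaT.simple_zero`), `B j = a - w j` (not zero).  `F (a - x) = -x ∏ (A k - x)`
(`Fin.prod_univ_succAbove`), and differentiating (or substituting `C a - X` into `critOf_iff`)
`d/dx [x ∏ (A k - x)] = (N + 1) ∏ (B j - x)`, that is
`(∏ A k) d/dx [x ∏ (1 - x / A k)] = (N+1) (∏ B j) ∏ (1 - x / B j)`; at `x = 0` this gives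
`∏ A k = (N+1) ∏ B j`, not zero; divide.  The last two statements: compare the coefficients of `X`
in the first (or `rec_id`), and the constant coefficients. -/
theorem recip {N : ℕ} {Z : Fin (N + 1) → ℂ} {w : Fin N → ℂ} (h : CritOf Z w)
    (k₀ : Fin (N + 1)) {D : ℝ} (hD : 0 < D) (hw : ∀ j, D ≤ ‖Z k₀ - w j‖) :
    derivative (X * ∏ k, (1 - C (Z k₀ - Z (k₀.succAbove k))⁻¹ * X) : ℂ[X]) =
        ∏ j, (1 - C (Z k₀ - w j)⁻¹ * X) ∧
      ∑ j, (Z k₀ - w j)⁻¹ = 2 * ∑ k, (Z k₀ - Z (k₀.succAbove k))⁻¹ ∧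
      ∀ k, Z k₀ ≠ Z (k₀.succAbove k) := by
  have hne : ∀ k, Z k₀ ≠ Z (k₀.succAbove k) := fun k =>
    (c113aaT.simple_zero h k₀ hD hw _ (Fin.succAbove_ne k₀ k)).symm
  set a : ℂ := Z k₀ with ha
  set A : Fin N → ℂ := fun k => a - Z (k₀.succAbove k) with hA
  set B : Fin N → ℂ := fun j => a - w j with hB
  have hA0 : ∀ k, A k ≠ 0 := fun k => sub_ne_zero.2 (hne k)
  have hB0 : ∀ j, B j ≠ 0 := fun j hj => by
    have h1 := hw j
    have h2 : a - w j = 0 := hj
    rw [h2, norm_zero] at h1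
    linarith
  have h1 := (critOf_iff Z w).1 h
  have e1 : (∏ k, (X - C (Z k)) : ℂ[X]).comp (C a - X) = -(X * ∏ k, (C (A k) - X)) := by
    rw [Polynomial.prod_comp, Fin.prod_univ_succAbove _ k₀, ← neg_mul]
    congr 1
    · rw [sub_comp, X_comp, C_comp, ← ha]
      ring
    · refine Finset.prod_congr rfl fun k _ => ?_
      rw [sub_comp, X_comp, C_comp, hA]
      simp only [C_sub]
      ring
  have e2 : (C ((N : ℂ) + 1) * ∏ j, (X - C (w j)) : ℂ[X]).comp (C a - X) =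
      C ((N : ℂ) + 1) * ∏ j, (C (B j) - X) := by
    rw [mul_comp, C_comp, Polynomial.prod_comp]
    congr 1
    refine Finset.prod_congr rfl fun j _ => ?_
    rw [sub_comp, X_comp, C_comp, hB]
    simp only [C_sub]
    ring
  have e3 : derivative (X * ∏ k, (C (A k) - X) : ℂ[X]) =
      C ((N : ℂ) + 1) * ∏ j, (C (B j) - X) := by
    have h2 := derivative_comp (∏ k, (X - C (Z k)) : ℂ[X]) (C a - X)
    rw [e1, h1, e2, derivative_neg, derivative_sub, derivative_C, derivative_X, zero_sub,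
      neg_mul, one_mul] at h2
    exact neg_injective h2
  rw [recip_prod A hA0, recip_prod B hB0] at e3
  have e4 : C (∏ k, A k) * derivative (X * ∏ k, (1 - C (A k)⁻¹ * X) : ℂ[X]) =
      C (((N : ℂ) + 1) * ∏ j, B j) * ∏ j, (1 - C (B j)⁻¹ * X) := by
    rw [← derivative_C_mul, C_mul, mul_assoc, ← e3]
    congr 1
    ring
  have hAp : ∏ k, A k ≠ 0 := Finset.prod_ne_zero_iff.2 fun k _ => hA0 k
  have e5 : (derivative (X * ∏ k, (1 - C (A k)⁻¹ * X) : ℂ[X])).coeff 0 = 1 := by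
    rw [coeff_derivative, coeff_X_mul, (recip_coeff Finset.univ fun k => (A k)⁻¹).1]
    simp
  have e6 : ∏ k, A k = ((N : ℂ) + 1) * ∏ j, B j := by
    have h2 := congrArg (fun p : ℂ[X] => p.coeff 0) e4
    simp only [coeff_C_mul] at h2
    rw [e5, (recip_coeff Finset.univ fun j => (B j)⁻¹).1, mul_one, mul_one] at h2
    exact h2
  have e7 : derivative (X * ∏ k, (1 - C (A k)⁻¹ * X) : ℂ[X]) = ∏ j, (1 - C (B j)⁻¹ * X) := by
    rw [← e6] at e4
    exact mul_left_cancel₀ (C_ne_zero.2 hAp) e4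
  refine ⟨e7, ?_, hne⟩
  have h3 := congrArg (fun p : ℂ[X] => p.coeff 1) e7
  rw [coeff_derivative, coeff_X_mul, (recip_coeff Finset.univ fun k => (A k)⁻¹).2,
    (recip_coeff Finset.univ fun j => (B j)⁻¹).2] at h3
  push_cast at h3
  have h4 : ∑ j, (B j)⁻¹ = 2 * ∑ k, (A k)⁻¹ := by linear_combination h3
  exact h4

end Pool.Agent.Lib.c113aaE
end
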