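import Pool.Agent.Lib.c113aaE.FiveB
import Pool.Agent.Lib.c113aaE.FiveC
import Pool.Agent.Lib.c113aaE.FiveD
import Pool.Agent.Lib.c113aaE.Recip

section

set_option autoImplicit false

namespace Pool.Agent.Lib.c113aaE

open Finset Polynomial Pool.MP_c113aa_an.BV

private theorem fiveE_eq_one {u : ℂ} (h1 : 1 ≤ u.re) (h2 : ‖u‖ ≤ 1) : u = 1 := by
  have h3 : u.re * u.re + u.im * u.im = ‖u‖ ^ 2 := by
    rw [← Complex.normSq_apply, Complex.normSq_eq_norm_sq]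
  have h4 : ‖u‖ ^ 2 ≤ 1 := by
    have := norm_nonneg u
    nlinarith
  have h5 : u.im * u.im ≤ 0 := by nlinarith
  have h6 : u.im = 0 := by
    have := mul_self_nonneg u.im
    exact mul_self_eq_zero.mp (le_antisymm h5 this)
  have h7 : u.re = 1 := by
    have : u.re * u.re ≤ 1 := by nlinarith
    nlinarith
  apply Complex.ext
  · rw [h7, Complex.one_re]
  · rw [h6, Complex.one_im]

private theorem fiveE_step {a z : ℂ} (hne : a ≠ z) (hz : ‖z‖ ≤ 1) :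
    1 ≤ (1 - ‖a‖ ^ 2) * ‖(a - z)⁻¹‖ ^ 2 + 2 * (a * (a - z)⁻¹).re := by
  have hd : a - z ≠ 0 := sub_ne_zero.mpr hne
  have e1 : z * (a - z)⁻¹ = a * (a - z)⁻¹ - 1 := by
    field_simp
    ring
  have e2 : ‖a * (a - z)⁻¹ - 1‖ ^ 2 ≤ ‖(a - z)⁻¹‖ ^ 2 := by
    rw [← e1, norm_mul, mul_pow]
    have h1 : ‖z‖ ^ 2 ≤ 1 := by
      have := norm_nonneg z
      nlinarith
    have h2 : 0 ≤ ‖(a - z)⁻¹‖ ^ 2 := sq_nonneg _
    nlinarith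
  have e3 : ‖a * (a - z)⁻¹ - 1‖ ^ 2 = ‖a * (a - z)⁻¹‖ ^ 2 - 2 * (a * (a - z)⁻¹).re + 1 := by
    generalize a * (a - z)⁻¹ = u
    rw [← Complex.normSq_eq_norm_sq, ← Complex.normSq_eq_norm_sq, Complex.normSq_apply,
      Complex.normSq_apply, Complex.sub_re, Complex.sub_im, Complex.one_re, Complex.one_im]
    ring
  have e4 : ‖a * (a - z)⁻¹‖ ^ 2 = ‖a‖ ^ 2 * ‖(a - z)⁻¹‖ ^ 2 := by
    rw [norm_mul, mul_pow]
  rw [e3, e4] at e2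
  linarith

/-- Sendov's inequality with equality cases in degree 5.  Proof: let `a = Z k₀`,
`α k = 1/(a - Z (k₀.succAbove k))`, `β j = 1/(a - w j)`, `‖β j‖ ≤ 1`; by `recip` (with `D = 1`)
`∑ β = 2 ∑ α`, and by `five_le`, `five_prod`, `five_real`: `∑ ‖α k‖^2 ≤ 2`.  Dividing
`‖a - (a - Z k)‖^2 = ‖Z k‖^2 ≤ 1` by `‖a - Z k‖^2`: `1 ≤ (1 - ‖a‖^2) ‖α k‖^2 + 2 re (a α k)`; summing:
`4 ≤ (1 - ‖a‖^2) ∑ ‖α k‖^2 + re (a ∑ β j) ≤ 2 (1 - ‖a‖^2) + 4 ‖a‖`, so `(1 - ‖a‖)^2 ≤ 0`, `‖a‖ = 1`,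
and then `re (a ∑ β j) ≥ 4` with `‖a β j‖ ≤ 1`, so `a β j = 1` and `w j = 0`. -/
theorem five_core {Z : Fin (4 + 1) → ℂ} {w : Fin 4 → ℂ} (h : CritOf Z w)
    (hZ1 : ∀ k, ‖Z k‖ ≤ 1) (k₀ : Fin (4 + 1)) (hw : ∀ j, 1 ≤ ‖Z k₀ - w j‖) : ∀ j, w j = 0 := by
  obtain ⟨hder, hsum, hne⟩ := recip h k₀ one_pos hw
  have hβ : ∀ j, ‖(Z k₀ - w j)⁻¹‖ ≤ 1 := by
    intro j
    rw [norm_inv]
    exact inv_le_one_of_one_le₀ (hw j)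
  have h2 : ∑ k, ‖(Z k₀ - Z (k₀.succAbove k))⁻¹‖ ^ 2 ≤ 2 := by
    refine five_real (y := fun k => ‖(Z k₀ - Z (k₀.succAbove k))⁻¹‖ ^ 2)
      (fun k => sq_nonneg _) (fun k => five_le hder hβ k) ?_
    have e : ∀ k, Real.sqrt (‖(Z k₀ - Z (k₀.succAbove k))⁻¹‖ ^ 2)
        = ‖(Z k₀ - Z (k₀.succAbove k))⁻¹‖ := fun k => Real.sqrt_sq (norm_nonneg _)
    simp only [e]
    exact five_prod hder hβ
  have h3 : (4 : ℝ) ≤ (1 - ‖Z k₀‖ ^ 2) * ∑ k, ‖(Z k₀ - Z (k₀.succAbove k))⁻¹‖ ^ 2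
      + 2 * ∑ k, (Z k₀ * (Z k₀ - Z (k₀.succAbove k))⁻¹).re := by
    have : ∑ _k : Fin 4, (1 : ℝ) ≤ ∑ k : Fin 4,
        ((1 - ‖Z k₀‖ ^ 2) * ‖(Z k₀ - Z (k₀.succAbove k))⁻¹‖ ^ 2
          + 2 * (Z k₀ * (Z k₀ - Z (k₀.succAbove k))⁻¹).re) :=
      Finset.sum_le_sum (fun k _ => fiveE_step (hne k) (hZ1 _))
    rw [Finset.sum_add_distrib, ← Finset.mul_sum, ← Finset.mul_sum] at this
    simpa using this
  have h4 : 2 * ∑ k, (Z k₀ * (Z k₀ - Z (k₀.succAbove k))⁻¹).re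
      = ∑ j, (Z k₀ * (Z k₀ - w j)⁻¹).re := by
    have e1 : ∑ k, (Z k₀ * (Z k₀ - Z (k₀.succAbove k))⁻¹).re
        = (Z k₀ * ∑ k, (Z k₀ - Z (k₀.succAbove k))⁻¹).re := by
      rw [Finset.mul_sum, Complex.re_sum]
    have e2 : ∑ j, (Z k₀ * (Z k₀ - w j)⁻¹).re = (Z k₀ * ∑ j, (Z k₀ - w j)⁻¹).re := by
      rw [Finset.mul_sum, Complex.re_sum]
    rw [e1, e2, hsum]
    have e3 : Z k₀ * (2 * ∑ k, (Z k₀ - Z (k₀.succAbove k))⁻¹)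
        = ((2 : ℝ) : ℂ) * (Z k₀ * ∑ k, (Z k₀ - Z (k₀.succAbove k))⁻¹) := by
      push_cast
      ring
    rw [e3, Complex.re_ofReal_mul]
  have ha1 : ‖Z k₀‖ ≤ 1 := hZ1 k₀
  have ha0 : 0 ≤ ‖Z k₀‖ := norm_nonneg _
  have h5 : ∀ j, (Z k₀ * (Z k₀ - w j)⁻¹).re ≤ ‖Z k₀‖ := by
    intro j
    calc (Z k₀ * (Z k₀ - w j)⁻¹).re ≤ ‖Z k₀ * (Z k₀ - w j)⁻¹‖ := Complex.re_le_norm _
      _ = ‖Z k₀‖ * ‖(Z k₀ - w j)⁻¹‖ := norm_mul _ _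
      _ ≤ ‖Z k₀‖ * 1 := mul_le_mul_of_nonneg_left (hβ j) ha0
      _ = ‖Z k₀‖ := mul_one _
  have h6 : ∑ j, (Z k₀ * (Z k₀ - w j)⁻¹).re ≤ 4 * ‖Z k₀‖ := by
    have : ∑ j, (Z k₀ * (Z k₀ - w j)⁻¹).re ≤ ∑ _j : Fin 4, ‖Z k₀‖ :=
      Finset.sum_le_sum (fun j _ => h5 j)
    simpa using this
  have h7 : (1 - ‖Z k₀‖ ^ 2) * ∑ k, ‖(Z k₀ - Z (k₀.succAbove k))⁻¹‖ ^ 2
      ≤ (1 - ‖Z k₀‖ ^ 2) * 2 := by
    apply mul_le_mul_of_nonneg_left h2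
    nlinarith
  have h8 : ‖Z k₀‖ = 1 := by
    have h9 : (1 - ‖Z k₀‖) ^ 2 ≤ 0 := by nlinarith
    have h10 : (1 - ‖Z k₀‖) ^ 2 = 0 := le_antisymm h9 (sq_nonneg _)
    have h11 : 1 - ‖Z k₀‖ = 0 := by
      exact pow_eq_zero_iff (two_ne_zero) |>.mp h10
    linarith
  have h9 : (4 : ℝ) ≤ ∑ j, (Z k₀ * (Z k₀ - w j)⁻¹).re := by
    rw [h4, h8] at h3
    linarith
  intro j
  have h10 : 1 ≤ (Z k₀ * (Z k₀ - w j)⁻¹).re := by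
    by_contra hc
    push Not at hc
    have : ∑ j, (Z k₀ * (Z k₀ - w j)⁻¹).re < ∑ _j : Fin 4, (1 : ℝ) := by
      apply Finset.sum_lt_sum
      · intro i _
        have := h5 i
        rw [h8] at this
        exact this
      · exact ⟨j, Finset.mem_univ j, hc⟩
    have e : ∑ _j : Fin 4, (1 : ℝ) = 4 := by simp
    rw [e] at this
    linarith
  have h11 : ‖Z k₀ * (Z k₀ - w j)⁻¹‖ ≤ 1 := by
    rw [norm_mul, h8, one_mul]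
    exact hβ j
  have h12 : Z k₀ * (Z k₀ - w j)⁻¹ = 1 := fiveE_eq_one h10 h11
  have h13 : Z k₀ - w j ≠ 0 := by
    intro h0
    have := hw j
    rw [h0, norm_zero] at this
    linarith
  have h14 : Z k₀ = Z k₀ - w j := by
    have := congrArg (fun t => t * (Z k₀ - w j)) h12
    simp only [one_mul] at this
    rw [mul_assoc, inv_mul_cancel₀ h13, mul_one] at this
    exact this
  have h15 : w j = Z k₀ - (Z k₀ - w j) := by ring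
  rw [h15, ← h14, sub_self]

end Pool.Agent.Lib.c113aaE
end
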