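import Pool.Agent.Lib.c113aaE.Defs

section

set_option autoImplicit false

namespace Pool.Agent.Lib.c113aaE

open Finset Polynomial Pool.MP_c113aa_an.BV

/-- `X₅ = (1 + 1/√5)/2`. -/
noncomputable def cX : ℝ := (1 + 1 / Real.sqrt 5) / 2

/-- `Y₅ = (1 - 1/√5)/2`. -/
noncomputable def cY : ℝ := (1 - 1 / Real.sqrt 5) / 2

theorem cXY : cX + cY = 1 ∧ cX * cY = 1 / 5 ∧ 0 < cY ∧ cY < cX ∧ 1 / 4 < cY ∧ 1 / 4 < cX ∧
    cX ^ 2 < 4 * cX * cY ∧ cX < 1 := by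
  have h5 : (0 : ℝ) < Real.sqrt 5 := Real.sqrt_pos.2 (by norm_num)
  have h5' : Real.sqrt 5 * Real.sqrt 5 = 5 := Real.mul_self_sqrt (by norm_num)
  obtain ⟨s, hs⟩ : ∃ s : ℝ, s = 1 / Real.sqrt 5 := ⟨_, rfl⟩
  have hs0 : 0 < s := by
    rw [hs]
    positivity
  have hs2 : s * s = 1 / 5 := by
    rw [hs, div_mul_div_comm, h5']
    norm_num
  have hs1 : s < 1 / 2 := by nlinarith
  have hX : cX = (1 + s) / 2 := by rw [cX, hs]
  have hY : cY = (1 - s) / 2 := by rw [cY, hs]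
  rw [hX, hY]
  refine ⟨by ring, by nlinarith, by linarith, by linarith, by linarith, by linarith, by nlinarith,
    by linarith⟩

/-- The functional `q ↦ ∫_0^1 q (r s) ds` on polynomials of degree at most 4. -/
noncomputable def lf (r : ℝ) : ℂ[X] →ₗ[ℂ] ℂ :=
  ∑ j ∈ Finset.range 5, ((r : ℂ) ^ j / ((j : ℂ) + 1)) • Polynomial.lcoeff ℂ j

/-- Proof: expand; `1 - 2 y + 2 y^2 - y^3 + y^4/5 = (1 - y + cX y^2)(1 - y + cY y^2)` with `y = r b`
(`cXY`). -/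
theorem lf_pow (r : ℝ) (b : ℂ) : lf r ((1 - C b * X) ^ 4) =
    (1 - r * b + cX * (r * b) ^ 2) * (1 - r * b + cY * (r * b) ^ 2) := by
  obtain ⟨h1, h2, -⟩ := cXY
  have h1' : (cX : ℂ) + cY = 1 := by exact_mod_cast h1
  have h2' : (cX : ℂ) * cY = 1 / 5 := by
    have h3 : (((cX * cY : ℝ)) : ℂ) = ((1 / 5 : ℝ) : ℂ) := by rw [h2]
    push_cast at h3
    exact h3
  have hexp : (1 - C b * X : ℂ[X]) ^ 4 = C 1 + C (-4 * b) * X + C (6 * b ^ 2) * X ^ 2 +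
      C (-4 * b ^ 3) * X ^ 3 + C (b ^ 4) * X ^ 4 := by
    simp only [map_one, map_mul, map_pow, map_neg, map_ofNat]
    ring
  have key : ∀ p : ℂ[X], lf r p = ∑ j ∈ Finset.range 5, ((r : ℂ) ^ j / ((j : ℂ) + 1)) * p.coeff j := by
    intro p
    simp [lf]
  rw [key, hexp]
  set P : ℂ[X] := C 1 + C (-4 * b) * X + C (6 * b ^ 2) * X ^ 2 + C (-4 * b ^ 3) * X ^ 3 +
    C (b ^ 4) * X ^ 4 with hP
  have k0 : P.coeff 0 = 1 := by
    simp only [hP, coeff_add, coeff_C_mul, coeff_X_pow, coeff_X, coeff_C]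
    norm_num
  have k1 : P.coeff 1 = -4 * b := by
    simp only [hP, coeff_add, coeff_C_mul, coeff_X_pow, coeff_X, coeff_C]
    norm_num
  have k2 : P.coeff 2 = 6 * b ^ 2 := by
    simp only [hP, coeff_add, coeff_C_mul, coeff_X_pow, coeff_X, coeff_C]
    norm_num
  have k3 : P.coeff 3 = -4 * b ^ 3 := by
    simp only [hP, coeff_add, coeff_C_mul, coeff_X_pow, coeff_X, coeff_C]
    norm_num
  have k4 : P.coeff 4 = b ^ 4 := by
    simp only [hP, coeff_add, coeff_C_mul, coeff_X_pow, coeff_X, coeff_C]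
    norm_num
  simp only [Finset.sum_range_succ, Finset.sum_range_zero, k0, k1, k2, k3, k4]
  push_cast
  linear_combination (-(r * b) ^ 2 + (r * b) ^ 3) * h1' - (r * b) ^ 4 * h2'

end Pool.Agent.Lib.c113aaE
end
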