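import Pool.Agent.Lib.c113aaE.Rec

section

set_option autoImplicit false

namespace Pool.Agent.Lib.c113aaE

open Finset Polynomial Pool.MP_c113aa_an.BV

/-- Three numbers with a lower bound and a bound for the product.  Proof: `(x₁ - m)(x₂ - m) ≥ 0` gives
`x₁ + x₂ ≤ m + x₁ x₂ / m`, and the same for `y = x₁ x₂ / m ≥ m` and `x₃`. -/
theorem three_le {m x₁ x₂ x₃ P : ℝ} (hm : 0 < m) (h1 : m ≤ x₁) (h2 : m ≤ x₂) (h3 : m ≤ x₃)
    (hP : x₁ * x₂ * x₃ ≤ P) : x₁ + x₂ + x₃ ≤ 2 * m + P / m ^ 2 := by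
  have hm2 : (0 : ℝ) < m ^ 2 := by positivity
  have key : ∀ u v : ℝ, m ≤ u → m ≤ v → u + v ≤ m + u * v / m := by
    intro u v hu hv
    have e : m + u * v / m - (u + v) = (u - m) * (v - m) / m := by
      field_simp
      ring
    have h0 : 0 ≤ (u - m) * (v - m) / m :=
      div_nonneg (mul_nonneg (sub_nonneg.2 hu) (sub_nonneg.2 hv)) hm.le
    linarith
  have hy : m ≤ x₁ * x₂ / m := by
    rw [le_div_iff₀ hm]
    exact mul_le_mul h1 h2 hm.le (hm.le.trans h1)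
  have a1 := key x₁ x₂ h1 h2
  have a2 := key (x₁ * x₂ / m) x₃ hy h3
  have a3 : x₁ * x₂ / m * x₃ / m ≤ P / m ^ 2 := by
    have e : x₁ * x₂ / m * x₃ / m = (x₁ * x₂ * x₃) / m ^ 2 := by
      field_simp
    rw [e]
    exact (div_le_div_iff_of_pos_right hm2).2 hP
  linarith

/-- `b^6 - 48 b + 32 = (b - 2)(b^5 + 2 b^4 + 4 b^3 + 8 b^2 + 16 b - 16)`. -/
theorem b_lt {b : ℝ} (h1 : 1 ≤ b) (h2 : b < 2) : 2 / b ^ 2 + b ^ 4 / 16 < 3 / b := by
  have hb : 0 < b := by linarith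
  have e : 3 / b - (2 / b ^ 2 + b ^ 4 / 16) =
      (2 - b) * (b ^ 5 + 2 * b ^ 4 + 4 * b ^ 3 + 8 * b ^ 2 + 16 * b - 16) / (16 * b ^ 2) := by
    field_simp
    ring
  have h3 : 0 < b ^ 5 + 2 * b ^ 4 + 4 * b ^ 3 + 8 * b ^ 2 + 16 * b - 16 := by
    have : 0 < b ^ 5 + 2 * b ^ 4 + 4 * b ^ 3 + 8 * b ^ 2 := by positivity
    nlinarith
  have h4 : 0 < (2 - b) * (b ^ 5 + 2 * b ^ 4 + 4 * b ^ 3 + 8 * b ^ 2 + 16 * b - 16) /
      (16 * b ^ 2) := div_pos (mul_pos (by linarith) h3) (by positivity)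
  linarith

private theorem four_x {a z : ℂ} (hz : ‖z‖ ≤ 1) (h : a - z ≠ 0) :
    1 ≤ (1 - ‖a‖ ^ 2) * ‖(a - z)⁻¹‖ ^ 2 + 2 * (a * (a - z)⁻¹).re := by
  have hu : 0 < Complex.normSq (a - z) := Complex.normSq_pos.2 h
  have e1 : ‖(a - z)⁻¹‖ ^ 2 = 1 / Complex.normSq (a - z) := by
    rw [norm_inv, inv_pow, ← Complex.normSq_eq_norm_sq, one_div]
  have e2 : (a * (a - z)⁻¹).re =
      (a.re * (a - z).re + a.im * (a - z).im) / Complex.normSq (a - z) := by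
    rw [Complex.mul_re, Complex.inv_re, Complex.inv_im]
    ring
  have e3 : ‖a‖ ^ 2 = a.re ^ 2 + a.im ^ 2 := by
    rw [← Complex.normSq_eq_norm_sq, Complex.normSq_apply]
    ring
  have e4 : z.re ^ 2 + z.im ^ 2 ≤ 1 := by
    have e := Complex.normSq_eq_norm_sq z
    rw [Complex.normSq_apply] at e
    nlinarith [norm_nonneg z]
  rw [e1, e2, e3]
  have e5 : (1 - (a.re ^ 2 + a.im ^ 2)) * (1 / Complex.normSq (a - z)) +
      2 * ((a.re * (a - z).re + a.im * (a - z).im) / Complex.normSq (a - z)) =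
      ((1 - (a.re ^ 2 + a.im ^ 2)) + 2 * (a.re * (a - z).re + a.im * (a - z).im)) /
        Complex.normSq (a - z) := by ring
  rw [e5, le_div_iff₀ hu, one_mul, Complex.normSq_apply]
  simp only [Complex.sub_re, Complex.sub_im]
  nlinarith

private theorem four_one {c : ℂ} (h1 : ‖c‖ ≤ 1) (h2 : 1 ≤ c.re) : c = 1 := by
  have e := Complex.normSq_eq_norm_sq c
  rw [Complex.normSq_apply] at e
  have h3 : c.re * c.re + c.im * c.im ≤ 1 := by
    rw [e]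
    nlinarith [norm_nonneg c]
  have h4 : c.re = 1 := by nlinarith [mul_self_nonneg c.im]
  have h5 : c.im = 0 := by
    have : c.im * c.im ≤ 0 := by nlinarith
    exact mul_self_eq_zero.1 (le_antisymm this (mul_self_nonneg _))
  exact Complex.ext h4 h5

/-- Sendov's inequality with equality cases in degree 4.  Proof: let `a = Z k₀`,
`α k = 1/(a - Z k)` for `k ≠ k₀`, `β j = 1/(a - w j)`, `‖β j‖ ≤ 1`; by `rec_id` (with `D = 1`)
`∑ β = 2 ∑ α` and `∏ ‖α‖ = (1/4) ∏ ‖β‖ ≤ 1/4`.  With `x k = ‖α k‖^2`, dividing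
`‖a - (a - Z k)‖^2 = ‖Z k‖^2 ≤ 1` by `‖a - Z k‖^2`: `1 ≤ (1 - ‖a‖^2) x k + 2 re (a α k)`; summing:
`3 ≤ (1 - ‖a‖^2) ∑ x k + re (a ∑ β j)`, `re (a ∑ β j) ≤ 3 ‖a‖`.  If `‖a‖ = 1` then
`re (a β j) ≤ 1` for the three `j` with sum at least `3`, so `a β j = 1` and `w j = 0`.  If
`‖a‖ < 1`: with `b = 1 + ‖a‖` this gives `∑ x k ≥ 3/b`; `x k ≥ 1/b^2` (as `‖a - Z k‖ ≤ b`),
`∏ x k ≤ 1/16`, so `∑ x k ≤ 2/b^2 + b^4/16 < 3/b` by `three_le` (`m = 1/b^2`, `P = 1/16`) and `b_lt`,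
a contradiction. -/
theorem four_core {Z : Fin (3 + 1) → ℂ} {w : Fin 3 → ℂ} (h : CritOf Z w)
    (hZ1 : ∀ k, ‖Z k‖ ≤ 1) (k₀ : Fin (3 + 1)) (hw : ∀ j, 1 ≤ ‖Z k₀ - w j‖) : ∀ j, w j = 0 := by
  classical
  obtain ⟨hprod, hsum⟩ := rec_id h k₀ one_pos hw
  have hcard : (univ.erase k₀ : Finset (Fin (3 + 1))).card = 3 := by
    rw [Finset.card_erase_of_mem (Finset.mem_univ _), Finset.card_univ, Fintype.card_fin]
  obtain ⟨k1, k2, k3, h12, h13, h23, hs⟩ := Finset.card_eq_three.1 hcard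
  have hn1 : k1 ∉ ({k2, k3} : Finset (Fin (3 + 1))) := by simp [h12, h13]
  have hn2 : k2 ∉ ({k3} : Finset (Fin (3 + 1))) := by simp [h23]
  rw [hs, Finset.prod_insert hn1, Finset.prod_insert hn2, Finset.prod_singleton,
    Fin.prod_univ_three] at hprod
  rw [hs, Finset.sum_insert hn1, Finset.sum_insert hn2, Finset.sum_singleton,
    Fin.sum_univ_three] at hsum
  have ha1 : ‖Z k₀‖ ≤ 1 := hZ1 k₀
  generalize Z k₀ = a at hprod hsum hw ha1 ⊢
  have hnw : ∀ j, a - w j ≠ 0 := fun j hj => by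
    have := hw j
    rw [hj, norm_zero] at this
    linarith
  have hne : (a - Z k1) * ((a - Z k2) * (a - Z k3)) ≠ 0 := by
    rw [hprod]
    refine mul_ne_zero ?_ (mul_ne_zero (mul_ne_zero (hnw 0) (hnw 1)) (hnw 2))
    norm_num
  have hd1 : a - Z k1 ≠ 0 := left_ne_zero_of_mul hne
  have hd2 : a - Z k2 ≠ 0 := left_ne_zero_of_mul (right_ne_zero_of_mul hne)
  have hd3 : a - Z k3 ≠ 0 := right_ne_zero_of_mul (right_ne_zero_of_mul hne)
  have hnorm : 4 ≤ ‖a - Z k1‖ * (‖a - Z k2‖ * ‖a - Z k3‖) := by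
    have e := congrArg norm hprod
    simp only [norm_mul] at e
    have e4 : ‖((3 : ℕ) : ℂ) + 1‖ = 4 := by
      norm_num
    rw [e4] at e
    rw [e]
    have h01 : 1 ≤ ‖a - w 0‖ * ‖a - w 1‖ := one_le_mul_of_one_le_of_one_le (hw 0) (hw 1)
    have h012 : 1 ≤ ‖a - w 0‖ * ‖a - w 1‖ * ‖a - w 2‖ := one_le_mul_of_one_le_of_one_le h01 (hw 2)
    linarith
  have hx1 := four_x (hZ1 k1) hd1
  have hx2 := four_x (hZ1 k2) hd2
  have hx3 := four_x (hZ1 k3) hd3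
  -- the sum of the real parts
  have hre : 2 * (a * (a - Z k1)⁻¹).re + 2 * (a * (a - Z k2)⁻¹).re + 2 * (a * (a - Z k3)⁻¹).re =
      (a * (a - w 0)⁻¹).re + (a * (a - w 1)⁻¹).re + (a * (a - w 2)⁻¹).re := by
    have e := congrArg (fun t => (a * t).re) hsum
    simp only [mul_add, Complex.add_re] at e
    have e' : (a * (2 * (a - Z k1)⁻¹ + (2 * (a - Z k2)⁻¹ + 2 * (a - Z k3)⁻¹))).re =
        2 * (a * (a - Z k1)⁻¹).re + 2 * (a * (a - Z k2)⁻¹).re + 2 * (a * (a - Z k3)⁻¹).re := by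
      have : a * (2 * (a - Z k1)⁻¹ + (2 * (a - Z k2)⁻¹ + 2 * (a - Z k3)⁻¹)) =
          ((2 : ℝ) : ℂ) * (a * (a - Z k1)⁻¹) + ((2 : ℝ) : ℂ) * (a * (a - Z k2)⁻¹) +
            ((2 : ℝ) : ℂ) * (a * (a - Z k3)⁻¹) := by
        push_cast
        ring
      rw [this]
      simp only [Complex.add_re, Complex.re_ofReal_mul]
    rw [← e']
    simp only [mul_add, Complex.add_re]
    linarith
  have hb : ∀ j, ‖(a - w j)⁻¹‖ ≤ 1 := fun j => by
    rw [norm_inv]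
    exact inv_le_one_of_one_le₀ (hw j)
  have hr : ∀ j, (a * (a - w j)⁻¹).re ≤ ‖a‖ := fun j => by
    refine (Complex.re_le_norm _).trans ?_
    rw [norm_mul]
    exact mul_le_of_le_one_right (norm_nonneg _) (hb j)
  rcases eq_or_lt_of_le ha1 with h1 | h1
  · rw [h1] at hx1 hx2 hx3
    have hs3 : 3 ≤ (a * (a - w 0)⁻¹).re + (a * (a - w 1)⁻¹).re + (a * (a - w 2)⁻¹).re := by
      rw [← hre]
      linarith
    have hr0 := hr 0
    have hr1 := hr 1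
    have hr2 := hr 2
    rw [h1] at hr0 hr1 hr2
    have hall : ∀ j, 1 ≤ (a * (a - w j)⁻¹).re := by
      intro j
      fin_cases j
      · show 1 ≤ (a * (a - w 0)⁻¹).re
        linarith
      · show 1 ≤ (a * (a - w 1)⁻¹).re
        linarith
      · show 1 ≤ (a * (a - w 2)⁻¹).re
        linarith
    intro j
    have e := four_one (c := a * (a - w j)⁻¹) (by
      rw [norm_mul, h1, one_mul]
      exact hb j) (hall j)
    have e2 : a = a - w j := by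
      have := congrArg (fun t => t * (a - w j)) e
      simpa [mul_assoc, inv_mul_cancel₀ (hnw j)] using this
    have e3 : w j = a - (a - w j) := by ring
    rw [e3, ← e2, sub_self]
  · exfalso
    have ha0 : 0 ≤ ‖a‖ := norm_nonneg a
    have hr0 := hr 0
    have hr1 := hr 1
    have hr2 := hr 2
    set b := 1 + ‖a‖ with hbdef
    have hb1 : 1 ≤ b := by linarith
    have hb2 : b < 2 := by linarith
    have hb0 : 0 < b := by linarith
    set X1 := ‖(a - Z k1)⁻¹‖ ^ 2 with hX1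
    set X2 := ‖(a - Z k2)⁻¹‖ ^ 2 with hX2
    set X3 := ‖(a - Z k3)⁻¹‖ ^ 2 with hX3
    have hS : 3 * (1 - ‖a‖) ≤ (1 - ‖a‖ ^ 2) * (X1 + X2 + X3) := by
      have : 3 ≤ (1 - ‖a‖ ^ 2) * (X1 + X2 + X3) + 3 * ‖a‖ := by
        nlinarith
      linarith
    have hS2 : 3 / b ≤ X1 + X2 + X3 := by
      rw [div_le_iff₀ hb0]
      have e : (1 - ‖a‖ ^ 2) * (X1 + X2 + X3) = (1 - ‖a‖) * ((X1 + X2 + X3) * b) := by
        rw [hbdef]
        ring
      rw [e, mul_comm (3 : ℝ)] at hS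
      exact le_of_mul_le_mul_left hS (by linarith)
    have hlow : ∀ k, a - Z k ≠ 0 → 1 / b ^ 2 ≤ ‖(a - Z k)⁻¹‖ ^ 2 := by
      intro k hk
      have h5 : ‖a - Z k‖ ≤ b := by
        refine (norm_sub_le _ _).trans ?_
        have := hZ1 k
        linarith
      have h6 : 0 < ‖a - Z k‖ := norm_pos_iff.2 hk
      rw [norm_inv, inv_pow, ← one_div]
      exact one_div_le_one_div_of_le (by positivity) (pow_le_pow_left₀ h6.le h5 2)
    have hP : X1 * X2 * X3 ≤ 1 / 16 := by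
      have e : X1 * X2 * X3 = 1 / (‖a - Z k1‖ * (‖a - Z k2‖ * ‖a - Z k3‖)) ^ 2 := by
        rw [hX1, hX2, hX3, norm_inv, norm_inv, norm_inv]
        rw [one_div, mul_pow, mul_pow, mul_inv, mul_inv, inv_pow, inv_pow, inv_pow, mul_assoc]
      rw [e]
      refine one_div_le_one_div_of_le (by norm_num) ?_
      nlinarith
    have h7 := three_le (m := 1 / b ^ 2) (by positivity) (hlow k1 hd1) (hlow k2 hd2) (hlow k3 hd3) hP
    have h8 : 2 * (1 / b ^ 2) + 1 / 16 / (1 / b ^ 2) ^ 2 = 2 / b ^ 2 + b ^ 4 / 16 := by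
      field_simp
    rw [h8] at h7
    have h9 := b_lt hb1 hb2
    linarith

end Pool.Agent.Lib.c113aaE
end
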