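import Pool.Agent.Lib.c113aaE.Final
import Pool.Agent.Lib.c113aaE.Five
import Pool.Agent.Lib.c113aaP.MainO

section

set_option autoImplicit false

namespace Pool.Agent.Lib.c113aaE

open Finset Polynomial Pool.MP_c113aa_an.BV

/-- The supremum of finitely many thresholds. -/
theorem sup_aux (t : ℕ → EReal) (n₀ : ℕ) (h : ∀ n, 2 ≤ n → n₀ ≤ n → t n ≤ 1) :
    ∃ T : EReal, 1 ≤ T ∧ (∀ n, 2 ≤ n → t n ≤ T) ∧
      (∀ a : EReal, 1 ≤ a → (∀ n, 2 ≤ n → t n ≤ a) → T ≤ a) ∧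
      (∀ a : EReal, 1 < a → (∀ n, 2 ≤ n → t n < a) → T < a) := by
  classical
  refine ⟨((Finset.range n₀).filter (fun n => 2 ≤ n)).sup t ⊔ 1, le_sup_right, ?_, ?_, ?_⟩
  · intro n hn
    rcases Nat.lt_or_ge n n₀ with h0 | h0
    · exact le_sup_of_le_left (Finset.le_sup (f := t)
        (Finset.mem_filter.2 ⟨Finset.mem_range.2 h0, hn⟩))
    · exact le_sup_of_le_right (h n hn h0)
  · intro a ha hn
    refine sup_le (Finset.sup_le fun n hn' => ?_) ha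
    exact hn n (Finset.mem_filter.1 hn').2
  · intro a ha hn
    refine max_lt ?_ ha
    rw [Finset.sup_lt_iff (lt_of_le_of_lt bot_le ha)]
    intro n hn'
    exact hn n (Finset.mem_filter.1 hn').2

/-- The thresholds, degree by degree and for all degrees. -/
theorem global :
    (∃ t : ℕ → EReal,
      (∀ n : ℕ, 2 ≤ n → 1 ≤ t n ∧
        (∀ p : ℝ, 1 ≤ p →
          ((∀ F : ℂ[X], F.natDegree = n → hd F ≤ pv n p F) ↔ t n ≤ (p : EReal))) ∧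
        (∀ p : ℝ, 1 < p →
          ((∀ F : ℂ[X], F.natDegree = n → (hd F = pv n p F ↔ Sp n F)) ↔ t n < (p : EReal))) ∧
        ((∀ F : ℂ[X], F.natDegree = n → hd F ≤ ci F ∧ (hd F = ci F ↔ Sp n F)) ↔ t n < ⊤)) ∧
      t 2 = 1 ∧ t 3 = 1 ∧ t 4 < ⊤ ∧ t 5 < ⊤ ∧ (∃ n₀ : ℕ, ∀ n : ℕ, n₀ ≤ n → t n = 1)) ∧
    (∃ T : EReal, 1 ≤ T ∧
      (∀ p : ℝ, 1 ≤ p → ((∀ n : ℕ, 2 ≤ n → ∀ F : ℂ[X], F.natDegree = n → hd F ≤ pv n p F) ↔
        T ≤ (p : EReal))) ∧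
      (∀ p : ℝ, 1 < p → ((∀ n : ℕ, 2 ≤ n → ∀ F : ℂ[X], F.natDegree = n →
        (hd F = pv n p F ↔ Sp n F)) ↔ T < (p : EReal))) ∧
      ((∀ n : ℕ, 2 ≤ n → ∀ F : ℂ[X], F.natDegree = n →
        hd F ≤ ci F ∧ (hd F = ci F ↔ Sp n F)) ↔ T < ⊤)) := by
  classical
  have h0 : ∀ n : ℕ, ∃ t : EReal, 2 ≤ n → 1 ≤ t ∧
      (∀ p : ℝ, 1 ≤ p →
        ((∀ F : ℂ[X], F.natDegree = n → hd F ≤ pv n p F) ↔ t ≤ (p : EReal))) ∧
      (∀ p : ℝ, 1 < p →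
        ((∀ F : ℂ[X], F.natDegree = n → (hd F = pv n p F ↔ Sp n F)) ↔ t < (p : EReal))) ∧
      ((∀ F : ℂ[X], F.natDegree = n → hd F ≤ ci F ∧ (hd F = ci F ↔ Sp n F)) ↔ t < ⊤) := by
    intro n
    by_cases hn : 2 ≤ n
    · obtain ⟨t, ht⟩ := (final n hn).1
      exact ⟨t, fun _ => ht⟩
    · exact ⟨1, fun h => absurd h hn⟩
  choose t ht using h0
  obtain ⟨n₀, hn₀⟩ := Pool.MP_c113aa_an.B1.main_one
  have hone : ∀ n, 2 ≤ n → n₀ ≤ n → t n ≤ 1 := by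
    intro n hn hn'
    have h1 := ((ht n hn).2.1 1 le_rfl).1 fun F hF => (hn₀ n hn' F hF).1 1 le_rfl
    exact_mod_cast h1
  obtain ⟨T, hT1, hT2, hT3, hT4⟩ := sup_aux t n₀ hone
  have hsmall : ∀ N : ℕ, 1 ≤ N → N + 1 ≤ 3 → t (N + 1) = 1 := by
    intro N hN hN3
    refine le_antisymm ?_ (ht (N + 1) (by omega)).1
    have h1 := ((ht (N + 1) (by omega)).2.1 1 le_rfl).1
      ((IZ_iff N 1).2 fun Z => (small hN hN3 Z).1 1 le_rfl)
    exact_mod_cast h1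
  refine ⟨⟨t, ht, hsmall 1 le_rfl (by norm_num), hsmall 2 (by norm_num) le_rfl,
    (ht 4 (by norm_num)).2.2.2.1 ((PZ_iff 3).2 four),
    (ht 5 (by norm_num)).2.2.2.1 ((PZ_iff 4).2 five), max n₀ 2, fun n hn => ?_⟩,
    T, hT1, ?_, ?_, ?_⟩
  · have h2 : 2 ≤ n := (le_max_right _ _).trans hn
    exact le_antisymm (hone n h2 ((le_max_left _ _).trans hn)) (ht n h2).1
  · intro p hp
    constructor
    · intro h
      refine hT3 _ (by exact_mod_cast hp) fun n hn => ((ht n hn).2.1 p hp).1 (h n hn)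
    · intro h n hn
      exact ((ht n hn).2.1 p hp).2 ((hT2 n hn).trans h)
  · intro p hp
    constructor
    · intro h
      refine hT4 _ (by exact_mod_cast hp) fun n hn => ((ht n hn).2.2.1 p hp).1 (h n hn)
    · intro h n hn
      exact ((ht n hn).2.2.1 p hp).2 ((hT2 n hn).trans_lt h)
  · constructor
    · intro h
      refine hT4 _ (by exact_mod_cast EReal.coe_lt_top 1) fun n hn => (ht n hn).2.2.2.1 (h n hn)
    · intro h n hn
      exact (ht n hn).2.2.2.2 ((hT2 n hn).trans_lt h)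

end Pool.Agent.Lib.c113aaE
end
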