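import Pool.Agent.Lib.c113aaE.HalfPlane

section

set_option autoImplicit false

namespace Pool.Agent.Lib.c113aaE

open Finset Polynomial Pool.MP_c113aa_an.BV

/-- The polynomial `φ(β) = L ((1 - β X)^(N+1))`. -/
private noncomputable def grA_phi (N : ℕ) (L : ℂ[X] →ₗ[ℂ] ℂ) : ℂ[X] :=
  ∑ k ∈ range (N + 2), C (((N + 1).choose k : ℂ) * (-1) ^ k * L (X ^ k)) * X ^ k

private theorem grA_L_pow (M : ℕ) (L : ℂ[X] →ₗ[ℂ] ℂ) (j : ℕ) (β : ℂ) :
    L (X ^ j * (1 - C β * X) ^ M) =
      ∑ k ∈ range (M + 1), (M.choose k : ℂ) * (-1) ^ k * β ^ k * L (X ^ (j + k)) := by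
  have h1 : (X ^ j * (1 - C β * X) ^ M : ℂ[X]) =
      ∑ k ∈ range (M + 1), ((M.choose k : ℂ) * (-1) ^ k * β ^ k) • (X ^ (j + k) : ℂ[X]) := by
    rw [sub_eq_add_neg, add_comm, add_pow, mul_sum]
    refine sum_congr rfl fun k _ => ?_
    rw [one_pow, mul_one, smul_eq_C_mul, C_mul, C_mul, C_pow, C_pow, C_neg, C_1, pow_add,
      neg_pow, mul_pow, C_eq_natCast]
    ring
  rw [h1, map_sum]
  refine sum_congr rfl fun k _ => ?_
  rw [map_smul, smul_eq_mul]

private theorem grA_eval (N : ℕ) (L : ℂ[X] →ₗ[ℂ] ℂ) (β : ℂ) :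
    (grA_phi N L).eval β = L ((1 - C β * X) ^ (N + 1)) := by
  have h1 := grA_L_pow (N + 1) L 0 β
  rw [pow_zero, one_mul] at h1
  rw [h1, grA_phi, eval_finsetSum]
  refine sum_congr rfl fun k _ => ?_
  rw [eval_mul, eval_C, eval_pow, eval_X, zero_add]
  ring

private theorem grA_deriv (N : ℕ) (L : ℂ[X] →ₗ[ℂ] ℂ) (β : ℂ) :
    (derivative (grA_phi N L)).eval β = -((N + 1 : ℕ) : ℂ) * L (X * (1 - C β * X) ^ N) := by
  have h1 := grA_L_pow N L 1 β
  rw [pow_one] at h1
  rw [h1, grA_phi, derivative_sum, eval_finsetSum, sum_range_succ', mul_sum]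
  simp only [derivative_C_mul_X_pow, eval_mul, eval_C, eval_pow, eval_X, Nat.cast_zero, mul_zero,
    zero_mul, add_zero, Nat.add_sub_cancel]
  refine sum_congr rfl fun k _ => ?_
  have h2 : ((N + 1 : ℕ) : ℂ) * (N.choose k : ℂ) =
      ((N + 1).choose (k + 1) : ℂ) * ((k + 1 : ℕ) : ℂ) := by
    exact_mod_cast Nat.add_one_mul_choose_eq N k
  rw [add_comm 1 k, pow_succ (-1 : ℂ) k]
  linear_combination (-1 : ℂ) ^ k * β ^ k * L (X ^ (k + 1)) * h2

private theorem grA_natDegree (N : ℕ) (L : ℂ[X] →ₗ[ℂ] ℂ) : (grA_phi N L).natDegree ≤ N + 1 := by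
  refine natDegree_sum_le_of_forall_le _ _ fun k hk => ?_
  rw [mem_range] at hk
  exact (natDegree_C_mul_X_pow_le _ _).trans (by omega)

private theorem grA_sum_pos (w : ℂ) (f : ℂ → ℂ) (s : Multiset ℂ)
    (h : ∀ σ ∈ s, 0 < (w * f σ).re) : 0 ≤ (w * (s.map f).sum).re := by
  induction s using Multiset.induction_on with
  | empty => simp
  | cons a t ih =>
    rw [Multiset.map_cons, Multiset.sum_cons, mul_add, Complex.add_re]
    have h1 := h a (Multiset.mem_cons_self a t)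
    have h2 := ih fun σ hσ => h σ (Multiset.mem_cons_of_mem hσ)
    linarith

private theorem grA_sum_pos' (w : ℂ) (f : ℂ → ℂ) (s : Multiset ℂ) (hs : s ≠ 0)
    (h : ∀ σ ∈ s, 0 < (w * f σ).re) : (s.map f).sum ≠ 0 := by
  obtain ⟨a, ha⟩ := Multiset.exists_mem_of_ne_zero hs
  obtain ⟨t, rfl⟩ := Multiset.exists_cons_of_mem ha
  intro h0
  have h1 := h a (Multiset.mem_cons_self a t)
  have h2 := grA_sum_pos w f t fun σ hσ => h σ (Multiset.mem_cons_of_mem hσ)
  have h3 : (w * ((a ::ₘ t).map f).sum).re = 0 := by rw [h0, mul_zero, Complex.zero_re]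
  rw [Multiset.map_cons, Multiset.sum_cons, mul_add, Complex.add_re] at h3
  linarith

/-- Laguerre's theorem.  Proof: for `N = 0` the value is `L 1`, not zero by hypothesis, and there is
nothing to do; let the exponent be `N + 1`.  `φ(β) = L ((1 - β X)^(N+1))` is a polynomial in `β` of
degree at most `N + 1` (`φ(β) = ∑_k C(N+1,k) (-β)^k L(X^k)`), without zeros in the open disk, so
`φ(β) = φ(0) ∏_{i < N+1} (1 - σ_i β)`, `‖σ_i‖ ≤ 1` (the `σ_i` are the inverses of the zeros, filled up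
with zeros).  `φ'(β) = -(N+1) L (X (1 - β X)^N)`, so
`L ((1 - β X)^N (1 - ζ X)) = φ(β) + (β - ζ) L (X (1 - β X)^N) = φ(β) - (β - ζ) φ'(β)/(N+1)
 = (φ(β)/(N+1)) ∑_i (1 - ζ σ_i)/(1 - β σ_i)`, not zero by `half_plane`. -/
theorem laguerre (N : ℕ) (L : ℂ[X] →ₗ[ℂ] ℂ)
    (h : ∀ b : ℂ, ‖b‖ < 1 → L ((1 - C b * X) ^ (N + 1)) ≠ 0) {β ζ : ℂ} (hβ : ‖β‖ < 1)
    (hζ : ‖ζ‖ < 1) : L ((1 - C β * X) ^ N * (1 - C ζ * X)) ≠ 0 := by
  set P := grA_phi N L with hP
  have hev : ∀ b : ℂ, ‖b‖ < 1 → P.eval b ≠ 0 := by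
    intro b hb
    rw [hP, grA_eval]
    exact h b hb
  have hP0 : P ≠ 0 := by
    intro h0
    apply hev 0 (by simp)
    rw [h0, eval_zero]
  have hroots : ∀ r ∈ P.roots, 1 ≤ ‖r‖ := by
    intro r hr
    by_contra hn
    exact hev r (not_le.mp hn) ((mem_roots hP0).mp hr)
  have hcard : P.roots.card ≤ N + 1 := (card_roots' P).trans (grA_natDegree N L)
  have hder := (IsAlgClosed.splits P).eval_derivative_eq_eval_mul_sum (hev β hβ)
  have hd := grA_deriv N L β
  rw [← hP] at hd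
  have hN : ((N + 1 : ℕ) : ℂ) ≠ 0 := Nat.cast_ne_zero.mpr (Nat.succ_ne_zero N)
  have hval : L ((1 - C β * X) ^ N * (1 - C ζ * X)) =
      P.eval β + (β - ζ) * L (X * (1 - C β * X) ^ N) := by
    have h1 : (β - ζ) * L (X * (1 - C β * X) ^ N) = L ((β - ζ) • (X * (1 - C β * X) ^ N)) := by
      rw [map_smul, smul_eq_mul]
    rw [hP, grA_eval, h1, ← map_add]
    congr 1
    rw [smul_eq_C_mul, C_sub]
    ring
  set f : ℂ → ℂ := fun σ => (1 - ζ * σ) / (1 - β * σ) with hf
  set s : Multiset ℂ := P.roots.map (fun r => r⁻¹) + Multiset.replicate (N + 1 - P.roots.card) 0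
    with hs
  have hcs : s.card = N + 1 := by
    rw [hs, Multiset.card_add, Multiset.card_map, Multiset.card_replicate]
    omega
  have hs0 : s ≠ 0 := by
    intro h0
    rw [h0, Multiset.card_zero] at hcs
    omega
  have hpos : ∀ σ ∈ s, 0 < (starRingEnd ℂ (1 - ζ * starRingEnd ℂ β) * f σ).re := by
    intro σ hσ
    refine half_plane hβ hζ ?_
    rw [hs, Multiset.mem_add] at hσ
    rcases hσ with hσ | hσ
    · rw [Multiset.mem_map] at hσ
      obtain ⟨r, hr, rfl⟩ := hσ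
      rw [norm_inv]
      exact inv_le_one_of_one_le₀ (hroots r hr)
    · rw [Multiset.eq_of_mem_replicate hσ, norm_zero]
      exact zero_le_one
  have hne := grA_sum_pos' _ f s hs0 hpos
  have hsum : (s.map f).sum = ((N + 1 : ℕ) : ℂ) -
      (β - ζ) * (P.roots.map fun r => 1 / (β - r)).sum := by
    rw [hs, Multiset.map_add, Multiset.sum_add, Multiset.map_map, Multiset.map_replicate,
      Multiset.sum_replicate, ← Multiset.sum_map_mul_left]
    have h1 : f 0 = 1 := by simp [hf]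
    have h2 : (P.roots.map (f ∘ fun r => r⁻¹)).sum =
        (P.roots.map (fun r => (1 : ℂ) - (β - ζ) * (1 / (β - r)))).sum := by
      congr 1
      refine Multiset.map_congr rfl fun r hr => ?_
      have h3 := hroots r hr
      have h4 : r ≠ 0 := by
        intro h5
        rw [h5, norm_zero] at h3
        linarith
      have h6 : β - r ≠ 0 := by
        intro h5
        rw [sub_eq_zero.mp h5] at hβ
        linarith
      have h7 : 1 - β * r⁻¹ ≠ 0 := by
        intro h5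
        apply h6
        have h8 : (1 - β * r⁻¹) * r = 0 := by rw [h5, zero_mul]
        rw [sub_mul, one_mul, mul_assoc, inv_mul_cancel₀ h4, mul_one] at h8
        linear_combination -h8
      have h9 : (1 - β * r⁻¹) * r = r - β := by
        rw [sub_mul, one_mul, mul_assoc, inv_mul_cancel₀ h4, mul_one]
      have h10 : (1 - ζ * r⁻¹) * r = r - ζ := by
        rw [sub_mul, one_mul, mul_assoc, inv_mul_cancel₀ h4, mul_one]
      have h11 : r - β ≠ 0 := by
        intro h5
        apply h6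
        linear_combination -h5
      change (1 - ζ * r⁻¹) / (1 - β * r⁻¹) = _
      rw [← mul_div_mul_right _ _ h4, h9, h10]
      field_simp
      ring
    rw [h2, Multiset.sum_map_sub, h1]
    simp only [Multiset.map_const', Multiset.sum_replicate, nsmul_eq_mul, mul_one]
    rw [Nat.cast_sub hcard]
    ring
  have hfin : ((N + 1 : ℕ) : ℂ) * L ((1 - C β * X) ^ N * (1 - C ζ * X)) =
      P.eval β * (s.map f).sum := by
    rw [hval, hsum, mul_add]
    rw [hder] at hd
    linear_combination (β - ζ) * hd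
  intro h0
  rw [h0, mul_zero] at hfin
  rcases mul_eq_zero.mp hfin.symm with h1 | h1
  · exact hev β hβ h1
  · exact hne h1

end Pool.Agent.Lib.c113aaE
end
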