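import Pool.Agent.Lib.c113aaE.Defs

section

set_option autoImplicit false

namespace Pool.Agent.Lib.c113aaE

open Finset Polynomial Pool.MP_c113aa_an.BV

private theorem halfPlane_id1 (x y : ℂ) :
    ‖1 - x * starRingEnd ℂ y‖ ^ 2 - ‖x - y‖ ^ 2 = (1 - ‖x‖ ^ 2) * (1 - ‖y‖ ^ 2) := by
  simp only [Complex.sq_norm, Complex.normSq_apply, Complex.sub_re, Complex.sub_im,
    Complex.mul_re, Complex.mul_im, Complex.conj_re, Complex.conj_im, Complex.one_re,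
    Complex.one_im]
  ring

private theorem halfPlane_id2 (x y : ℂ) :
    ‖1 - x * y‖ ^ 2 - ‖starRingEnd ℂ x - y‖ ^ 2 = (1 - ‖x‖ ^ 2) * (1 - ‖y‖ ^ 2) := by
  simp only [Complex.sq_norm, Complex.normSq_apply, Complex.sub_re, Complex.sub_im,
    Complex.mul_re, Complex.mul_im, Complex.conj_re, Complex.conj_im, Complex.one_re,
    Complex.one_im]
  ring

/-- The values of a Mobius map of the closed unit disk lie in an open half plane.  Proof: with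
`T = (1 - ζ σ)/(1 - β σ)` one has
`(1 - ‖β‖^2) T = (1 - ζ conj β) + (ζ - β)(conj β - σ)/(1 - β σ)`, where
`‖conj β - σ‖ ≤ ‖1 - β σ‖` and `‖ζ - β‖ < ‖1 - ζ conj β‖`
(`‖1 - ζ conj β‖^2 - ‖ζ - β‖^2 = (1 - ‖ζ‖^2)(1 - ‖β‖^2)`, and similarly for the other). -/
theorem half_plane {β ζ σ : ℂ} (hβ : ‖β‖ < 1) (hζ : ‖ζ‖ < 1) (hσ : ‖σ‖ ≤ 1) :
    0 < (starRingEnd ℂ (1 - ζ * starRingEnd ℂ β) * ((1 - ζ * σ) / (1 - β * σ))).re := by
  have nβ := norm_nonneg β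
  have nζ := norm_nonneg ζ
  have nσ := norm_nonneg σ
  have hβ2 : 0 < 1 - ‖β‖ ^ 2 := by nlinarith
  have hζ2 : 0 < 1 - ‖ζ‖ ^ 2 := by nlinarith
  have hσ2 : 0 ≤ 1 - ‖σ‖ ^ 2 := by nlinarith
  have hD : (1 : ℂ) - β * σ ≠ 0 := by
    intro h
    have h1 : β * σ = 1 := by linear_combination -h
    have h2 := congrArg norm h1
    rw [norm_mul, norm_one] at h2
    nlinarith
  have hDn : 0 < ‖(1 : ℂ) - β * σ‖ := norm_pos_iff.2 hD
  have h1 : ‖ζ - β‖ < ‖1 - ζ * starRingEnd ℂ β‖ := by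
    have e := halfPlane_id1 ζ β
    have h2 : 0 < (1 - ‖ζ‖ ^ 2) * (1 - ‖β‖ ^ 2) := mul_pos hζ2 hβ2
    refine lt_of_pow_lt_pow_left₀ 2 (norm_nonneg _) ?_
    linarith
  have h2 : ‖starRingEnd ℂ β - σ‖ ≤ ‖1 - β * σ‖ := by
    have e := halfPlane_id2 β σ
    have h3 : 0 ≤ (1 - ‖β‖ ^ 2) * (1 - ‖σ‖ ^ 2) := mul_nonneg hβ2.le hσ2
    refine le_of_sq_le_sq ?_ (norm_nonneg _)
    linarith
  obtain ⟨a, ha⟩ : ∃ a : ℂ, a = 1 - ζ * starRingEnd ℂ β := ⟨_, rfl⟩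
  obtain ⟨W, hW⟩ : ∃ W : ℂ, W = (ζ - β) * (starRingEnd ℂ β - σ) / (1 - β * σ) := ⟨_, rfl⟩
  rw [← ha] at h1 ⊢
  have hWn : ‖W‖ ≤ ‖ζ - β‖ := by
    rw [hW, norm_div, norm_mul, div_le_iff₀ hDn]
    exact mul_le_mul_of_nonneg_left h2 (norm_nonneg _)
  have hββ : β * starRingEnd ℂ β = ((‖β‖ ^ 2 : ℝ) : ℂ) := by
    rw [Complex.mul_conj, Complex.normSq_eq_norm_sq]
  have hid : ((1 - ‖β‖ ^ 2 : ℝ) : ℂ) * ((1 - ζ * σ) / (1 - β * σ)) = a + W := by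
    rw [hW, ha]
    push_cast
    push_cast at hββ
    rw [← hββ]
    field_simp
    ring
  have hre : (1 - ‖β‖ ^ 2) * (starRingEnd ℂ a * ((1 - ζ * σ) / (1 - β * σ))).re =
      ‖a‖ ^ 2 + (starRingEnd ℂ a * W).re := by
    have h4 : ((1 - ‖β‖ ^ 2 : ℝ) : ℂ) * (starRingEnd ℂ a * ((1 - ζ * σ) / (1 - β * σ))) =
        ((‖a‖ ^ 2 : ℝ) : ℂ) + starRingEnd ℂ a * W := by
      have h5 : starRingEnd ℂ a * a = ((‖a‖ ^ 2 : ℝ) : ℂ) := by
        rw [mul_comm, Complex.mul_conj, Complex.normSq_eq_norm_sq]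
      rw [← h5]
      linear_combination (starRingEnd ℂ a) * hid
    have h6 := congrArg Complex.re h4
    rw [Complex.re_ofReal_mul, Complex.add_re, Complex.ofReal_re] at h6
    exact h6
  have hlow : -(‖a‖ * ‖W‖) ≤ (starRingEnd ℂ a * W).re := by
    have h7 := Complex.abs_re_le_norm (starRingEnd ℂ a * W)
    rw [norm_mul, Complex.norm_conj] at h7
    exact (abs_le.1 h7).1
  have hapos : 0 < ‖a‖ := lt_of_le_of_lt (norm_nonneg _) h1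
  have hfin : 0 < (1 - ‖β‖ ^ 2) * (starRingEnd ℂ a * ((1 - ζ * σ) / (1 - β * σ))).re := by
    rw [hre]
    nlinarith
  exact (mul_pos_iff_of_pos_left hβ2).1 hfin

end Pool.Agent.Lib.c113aaE
end
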