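import Pool.Agent.Lib.c113aaE.Spec
import Pool.Agent.Lib.c113aaE.SgA

section

set_option autoImplicit false

namespace Pool.Agent.Lib.c113aaE

open Finset Polynomial Pool.MP_c113aa_an.BV

/-- For fixed `c` the power mean `((1/(N+1)) ∑ ‖Z k - c‖^p)^(1/p)` tends to the mean of the
`‖Z k - c‖`, as `p → 1` (continuity of `rpow` in the exponent at positive bases; a term with
`‖Z k - c‖ = 0` is constant), and `hZ Z ≤ sg p Z ≤` this power mean. -/
theorem le_sg_one {N : ℕ} {Z : Fin (N + 1) → ℂ} (h : ∀ p : ℝ, 1 < p → hZ Z ≤ sg p Z) :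
    hZ Z ≤ sg 1 Z := by
  unfold sg
  refine le_ciInf fun c => ?_
  have hc : ContinuousAt
      (fun p : ℝ => ((1 / ((N + 1 : ℕ) : ℝ)) * ∑ k, ‖Z k - c‖ ^ p) ^ (1 / p)) 1 := by
    refine ContinuousAt.rpow ?_ ?_ ?_
    · refine ContinuousAt.mul continuousAt_const ?_
      exact tendsto_finsetSum _ fun k _ => Real.continuousAt_const_rpow' one_ne_zero
    · exact continuousAt_const.div continuousAt_id one_ne_zero
    · right
      norm_num
  have ht := hc.tendsto.mono_left (nhdsWithin_le_nhds (s := Set.Ioi (1 : ℝ)))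
  refine ge_of_tendsto ht ?_
  filter_upwards [self_mem_nhdsWithin] with p hp
  exact (h p hp).trans (sg_le p Z c)

end Pool.Agent.Lib.c113aaE
end
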