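import Pool.Agent.Lib.c113aaE.Defs

section

set_option autoImplicit false

namespace Pool.Agent.Lib.c113aaE

open Finset Polynomial Pool.MP_c113aa_an.BV

private theorem realL_pow {η : ℝ} (h0 : 0 < η) (h1 : η ≤ 1) : η ^ 3 ≤ η ^ 2 ∧ η ^ 4 ≤ η ^ 3 := by
  have h2 : 0 < η ^ 2 := by positivity
  have h3 : 0 < η ^ 3 := by positivity
  constructor <;> nlinarith

/-- Proof: all terms but `- x j` are `O(η^2)` (for `η ≤ 1`), so `x j ≤ C₁ η^2` for all `j` and by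
`∑ x = 0` `|x j| ≤ N C₁ η^2`, `∑ x^2 ≤ C₂ η^4`.  Summing the hypotheses over `j`:
`0 ≤ (N/(2(N-1))) ∑ x^2 - (1/(2(N-1))) ∑ y^2 + N C η^3`; and `∑ y^2 ≥ η^2 - C₂ η^4`. -/
theorem realL {N : ℕ} (hN : 2 ≤ N) (C : ℝ) (hC : 0 ≤ C) : ∃ η₀ : ℝ, 0 < η₀ ∧
    ∀ (x y : Fin N → ℝ) (η : ℝ), 0 < η → η ≤ η₀ → ∑ j, x j = 0 →
    (∀ j, x j ^ 2 + y j ^ 2 ≤ η ^ 2) → (∃ j, x j ^ 2 + y j ^ 2 = η ^ 2) →
    (∀ j, 0 ≤ 1 / (2 * ((N : ℝ) - 1)) * ∑ i, (x i ^ 2 - y i ^ 2) - x j + y j ^ 2 / 2 +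
      C * η ^ 3) → False := by
  have hn : (2 : ℝ) ≤ (N : ℝ) := by exact_mod_cast hN
  set n : ℝ := (N : ℝ) with hndef
  set C₁ : ℝ := n / 2 + 1 / 2 + C with hC1
  have hC1pos : 0 < C₁ := by rw [hC1]; linarith
  set K : ℝ := (n + 1) * (n ^ 3 * C₁ ^ 2) + 2 * (n - 1) * n * C with hK
  have hKnn : 0 ≤ K := by
    have h1 : 0 ≤ (n + 1) * (n ^ 3 * C₁ ^ 2) := by positivity
    have h2 : 0 ≤ 2 * (n - 1) * n * C := by
      have : 0 ≤ n - 1 := by linarith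
      positivity
    rw [hK]; linarith
  refine ⟨min 1 (1 / (K + 1)), by positivity, ?_⟩
  intro x y η hη hη0 hsum hle hex hyp
  have hη1 : η ≤ 1 := le_trans hη0 (min_le_left _ _)
  have hηK : η ≤ 1 / (K + 1) := le_trans hη0 (min_le_right _ _)
  obtain ⟨h32, h43⟩ := realL_pow hη hη1
  have hn1 : 0 < n - 1 := by linarith
  set a : ℝ := 1 / (2 * (n - 1)) with ha
  have hapos : 0 < a := by rw [ha]; positivity
  have hmul : a * (2 * (n - 1)) = 1 := by rw [ha]; field_simp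
  have ha2 : a ≤ 1 / 2 := by nlinarith
  have hη2 : 0 < η ^ 2 := by positivity
  -- the sum is at most `n η^2`
  have hS : ∑ i, (x i ^ 2 - y i ^ 2) ≤ n * η ^ 2 := by
    have : ∑ i : Fin N, (x i ^ 2 - y i ^ 2) ≤ ∑ _i : Fin N, η ^ 2 := by
      refine Finset.sum_le_sum (fun i _ => ?_)
      have := hle i
      nlinarith [sq_nonneg (y i)]
    simpa [hndef] using this
  have haS : a * ∑ i, (x i ^ 2 - y i ^ 2) ≤ n / 2 * η ^ 2 := by
    have h1 : a * ∑ i, (x i ^ 2 - y i ^ 2) ≤ a * (n * η ^ 2) :=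
      mul_le_mul_of_nonneg_left hS hapos.le
    have h2 : a * (n * η ^ 2) ≤ 1 / 2 * (n * η ^ 2) :=
      mul_le_mul_of_nonneg_right ha2 (by positivity)
    linarith
  have hub : ∀ j, x j ≤ C₁ * η ^ 2 := by
    intro j
    have h1 := hyp j
    have h2 := hle j
    have h3 : C * η ^ 3 ≤ C * η ^ 2 := mul_le_mul_of_nonneg_left h32 hC
    have h4 : y j ^ 2 / 2 ≤ 1 / 2 * η ^ 2 := by nlinarith [sq_nonneg (x j)]
    rw [hC1]
    nlinarith
  have hlb : ∀ j, -(n * (C₁ * η ^ 2)) ≤ x j := by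
    intro j
    have h1 : ∑ i ∈ Finset.univ.erase j, x i ≤ ∑ i ∈ Finset.univ.erase j, C₁ * η ^ 2 :=
      Finset.sum_le_sum (fun i _ => hub i)
    have h2 : ∑ i ∈ Finset.univ.erase j, C₁ * η ^ 2 ≤ ∑ _i : Fin N, C₁ * η ^ 2 :=
      Finset.sum_le_sum_of_subset_of_nonneg (Finset.subset_univ _)
        (fun i _ _ => by positivity)
    have h3 : ∑ _i : Fin N, C₁ * η ^ 2 = n * (C₁ * η ^ 2) := by
      simp [hndef]
    have h4 : x j + ∑ i ∈ Finset.univ.erase j, x i = ∑ i, x i :=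
      Finset.add_sum_erase _ _ (Finset.mem_univ j)
    linarith
  have hsq : ∀ j, x j ^ 2 ≤ n ^ 2 * C₁ ^ 2 * η ^ 4 := by
    intro j
    have h1 := hub j
    have h2 := hlb j
    have h3 : x j ≤ n * (C₁ * η ^ 2) := by
      have : 0 ≤ C₁ * η ^ 2 := by positivity
      nlinarith
    have h4 : x j ^ 2 ≤ (n * (C₁ * η ^ 2)) ^ 2 := sq_le_sq' h2 h3
    calc x j ^ 2 ≤ (n * (C₁ * η ^ 2)) ^ 2 := h4
      _ = n ^ 2 * C₁ ^ 2 * η ^ 4 := by ring
  have hX : ∑ i, x i ^ 2 ≤ n ^ 3 * C₁ ^ 2 * η ^ 4 := by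
    have : ∑ i : Fin N, x i ^ 2 ≤ ∑ _i : Fin N, n ^ 2 * C₁ ^ 2 * η ^ 4 :=
      Finset.sum_le_sum (fun i _ => hsq i)
    have h3 : ∑ _i : Fin N, n ^ 2 * C₁ ^ 2 * η ^ 4 = n ^ 3 * C₁ ^ 2 * η ^ 4 := by
      simp [hndef]; ring
    linarith
  -- lower bound of `∑ y^2`
  have hY : η ^ 2 - ∑ i, x i ^ 2 ≤ ∑ i, y i ^ 2 := by
    obtain ⟨j, hj⟩ := hex
    have h1 : x j ^ 2 ≤ ∑ i, x i ^ 2 :=
      Finset.single_le_sum (f := fun i => x i ^ 2) (fun i _ => sq_nonneg _) (Finset.mem_univ j)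
    have h2 : y j ^ 2 ≤ ∑ i, y i ^ 2 :=
      Finset.single_le_sum (f := fun i => y i ^ 2) (fun i _ => sq_nonneg _) (Finset.mem_univ j)
    linarith
  -- sum of the hypotheses
  have hsumh : 0 ≤ n * (a * (∑ i, x i ^ 2 - ∑ i, y i ^ 2)) - 0 + (∑ i, y i ^ 2) / 2 +
      n * (C * η ^ 3) := by
    have h1 : 0 ≤ ∑ j : Fin N, (a * ∑ i, (x i ^ 2 - y i ^ 2) - x j + y j ^ 2 / 2 +
      C * η ^ 3) := Finset.sum_nonneg (fun j _ => hyp j)
    have h2 : ∑ j : Fin N, (a * ∑ i, (x i ^ 2 - y i ^ 2) - x j + y j ^ 2 / 2 + C * η ^ 3) =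
      n * (a * (∑ i, x i ^ 2 - ∑ i, y i ^ 2)) - 0 + (∑ i, y i ^ 2) / 2 + n * (C * η ^ 3) := by
      rw [Finset.sum_add_distrib, Finset.sum_add_distrib, Finset.sum_sub_distrib, hsum,
        ← Finset.sum_div, Finset.sum_sub_distrib]
      simp [hndef]
    rw [← h2]; exact h1
  set X : ℝ := ∑ i, x i ^ 2 with hXdef
  set Y : ℝ := ∑ i, y i ^ 2 with hYdef
  have hna : n * a = a + 1 / 2 := by linarith [hmul]
  -- `a Y ≤ n a X + n C η^3`
  have h5 : a * Y ≤ n * a * X + n * (C * η ^ 3) := by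
    have e : n * (a * (X - Y)) = n * a * X - (a + 1 / 2) * Y := by rw [← hna]; ring
    rw [e] at hsumh
    linarith
  have h6 : Y ≤ n * X + 2 * (n - 1) * n * C * η ^ 3 := by
    have h7 : a * Y * (2 * (n - 1)) ≤ (n * a * X + n * (C * η ^ 3)) * (2 * (n - 1)) :=
      mul_le_mul_of_nonneg_right h5 (by positivity)
    have e1 : a * Y * (2 * (n - 1)) = Y := by
      calc a * Y * (2 * (n - 1)) = (a * (2 * (n - 1))) * Y := by ring
        _ = Y := by rw [hmul, one_mul]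
    have e2 : (n * a * X + n * (C * η ^ 3)) * (2 * (n - 1)) =
        n * X + 2 * (n - 1) * n * C * η ^ 3 := by
      calc (n * a * X + n * (C * η ^ 3)) * (2 * (n - 1)) =
          (a * (2 * (n - 1))) * (n * X) + 2 * (n - 1) * n * C * η ^ 3 := by ring
        _ = n * X + 2 * (n - 1) * n * C * η ^ 3 := by rw [hmul, one_mul]
    linarith
  have h8 : η ^ 2 ≤ (n + 1) * X + 2 * (n - 1) * n * C * η ^ 3 := by linarith
  have h9 : (n + 1) * X ≤ (n + 1) * (n ^ 3 * C₁ ^ 2) * η ^ 3 := by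
    have h10 : X ≤ n ^ 3 * C₁ ^ 2 * η ^ 3 :=
      le_trans hX (mul_le_mul_of_nonneg_left h43 (by positivity))
    calc (n + 1) * X ≤ (n + 1) * (n ^ 3 * C₁ ^ 2 * η ^ 3) :=
          mul_le_mul_of_nonneg_left h10 (by linarith)
      _ = _ := by ring
  have h11 : η ^ 2 ≤ K * η ^ 3 := by
    rw [hK]
    linarith
  have h12 : (K + 1) * η ≤ 1 := by
    rw [le_div_iff₀ (by positivity)] at hηK
    linarith
  have h13 : K * η ^ 3 = (K * η) * η ^ 2 := by ring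
  have h14 : (K * η) * η ^ 2 < 1 * η ^ 2 := by
    refine mul_lt_mul_of_pos_right ?_ hη2
    linarith
  linarith

end Pool.Agent.Lib.c113aaE
end
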