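import Pool.Agent.Lib.c113aaE.Dual
import Pool.Agent.Lib.c113aaE.RealL
import Pool.Agent.Lib.c113aaE.Dist

section

set_option autoImplicit false

namespace Pool.Agent.Lib.c113aaE

open Finset Polynomial Pool.MP_c113aa_an.BV

/-- The real part of `(-((n + 1)/(2 (n - 1))) s) v`. -/
private theorem loc0_re {N : ℕ} (hN : 3 ≤ N) (w : Fin N → ℂ) {a : ℂ} (ha : 0 < ‖a‖) :
    -(1 / ((N : ℝ) + 1) * (cA w * (starRingEnd ℂ a) ^ 2).re) =
      1 / (2 * ((N : ℝ) - 1)) * (‖a‖ ^ 2 * ∑ i, ((w i * starRingEnd ℂ a / (‖a‖ : ℂ)).re ^ 2 -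
        (w i * starRingEnd ℂ a / (‖a‖ : ℂ)).im ^ 2)) := by
  have hN' : (3 : ℝ) ≤ (N : ℝ) := by exact_mod_cast hN
  have hane : (‖a‖ : ℂ) ≠ 0 := by exact_mod_cast ha.ne'
  have e1 : ∀ i, (w i * starRingEnd ℂ a / (‖a‖ : ℂ)).re ^ 2 -
      (w i * starRingEnd ℂ a / (‖a‖ : ℂ)).im ^ 2 =
      ((w i * starRingEnd ℂ a / (‖a‖ : ℂ)) ^ 2).re := by
    intro i
    rw [pow_two (w i * starRingEnd ℂ a / (‖a‖ : ℂ)), Complex.mul_re]
    ring
  have e2 : ‖a‖ ^ 2 * ∑ i, ((w i * starRingEnd ℂ a / (‖a‖ : ℂ)).re ^ 2 -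
        (w i * starRingEnd ℂ a / (‖a‖ : ℂ)).im ^ 2) =
      ((∑ i, w i ^ 2) * (starRingEnd ℂ a) ^ 2).re := by
    rw [Finset.sum_congr rfl fun i _ => e1 i, ← Complex.re_sum, ← Complex.re_ofReal_mul]
    congr 1
    push_cast
    rw [Finset.mul_sum, Finset.sum_mul]
    refine Finset.sum_congr rfl fun i _ => ?_
    field_simp
  have e3 : cA w * (starRingEnd ℂ a) ^ 2 =
      ((-(((N : ℝ) + 1) / (2 * ((N : ℝ) - 1))) : ℝ) : ℂ) *
        ((∑ i, w i ^ 2) * (starRingEnd ℂ a) ^ 2) := by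
    rw [cA]
    push_cast
    ring
  rw [e2, e3, Complex.re_ofReal_mul]
  have h1 : (N : ℝ) + 1 ≠ 0 := by linarith
  have h2 : (N : ℝ) - 1 ≠ 0 := by linarith
  field_simp

/-- The squares of the rotated vector. -/
private theorem loc0_sq (w : ℂ) {a : ℂ} (ha : 0 < ‖a‖) :
    (w * starRingEnd ℂ a / (‖a‖ : ℂ)).re ^ 2 + (w * starRingEnd ℂ a / (‖a‖ : ℂ)).im ^ 2 =
      ‖w‖ ^ 2 := by
  have h1 : (w * starRingEnd ℂ a / (‖a‖ : ℂ)).re ^ 2 +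
      (w * starRingEnd ℂ a / (‖a‖ : ℂ)).im ^ 2 = ‖w * starRingEnd ℂ a / (‖a‖ : ℂ)‖ ^ 2 := by
    rw [← Complex.normSq_eq_norm_sq, Complex.normSq_apply]
    ring
  rw [h1, norm_div, norm_mul, RCLike.norm_conj, Complex.norm_real, Real.norm_eq_abs,
    abs_of_pos ha, mul_div_assoc, div_self ha.ne', mul_one]

/-- The local theorem.  Proof: let `η = max ‖w j‖` (so `Nrm Z w η`), constants from `zeros`, `dual`,
`dist_est`.  Suppose `(N+1) D > ∑ ‖Z k - m‖ ≥ N + 1 - C η^3`; so `D ≥ 1 - C η^3`.  If `η = 0` then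
`D ≤ ‖Z k₀‖ = 1` by `zeros`, a contradiction.  If `η > 0`: with `a = Z k₀`,
`x j + i y j = w j conj a / ‖a‖` one has `∑ x = 0`, `x j^2 + y j^2 = ‖w j‖^2`, and for each `j`
`1 - C η^3 ≤ D ≤ ‖a - w j‖ ≤ ‖a‖ - x j + (y j)^2/2 + C' η^3` and
`‖a‖ ≤ 1 - (1/(N+1)) re (cA w (conj a)^2) + C'' η^3`, where
`-(1/(N+1)) re (cA w (conj a)^2) = (1/(2(N-1))) ‖a‖^2 ∑ (x i^2 - y i^2)` (exactly), and
`|‖a‖^2 - 1| ≤ C''' η^2`; so `realL` applies. -/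
theorem loc0 {N : ℕ} (hN : 3 ≤ N) : ∃ η₀ : ℝ, 0 < η₀ ∧
    ∀ (Z : Fin (N + 1) → ℂ) (w : Fin N → ℂ), Nrm Z w η₀ →
    ∀ (k₀ : Fin (N + 1)) (D : ℝ), (∀ j, D ≤ ‖Z k₀ - w j‖) → ∀ m : ℂ,
    ((N : ℝ) + 1) * D ≤ ∑ k, ‖Z k - m‖ := by
  have hN' : (3 : ℝ) ≤ (N : ℝ) := by exact_mod_cast hN
  obtain ⟨C₁, η₁, hC₁, hη₁, hη₁', hz⟩ := zeros hN
  obtain ⟨C₂, η₂, hC₂, hη₂, hη₂', hd⟩ := dual hN
  obtain ⟨C₃, η₃, hC₃, hη₃, hη₃', hde⟩ := dist_est C₁ hC₁.le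
  obtain ⟨η₄, hη₄, hr⟩ := realL (N := N) (by omega) (C₁ + C₂ + C₃ + 3 * C₁ * N) (by positivity)
  refine ⟨min (min η₁ η₂) (min (min η₃ η₄) (1 / (2 * (C₁ + 1)))), by positivity, ?_⟩
  intro Z w hNrm k₀ D hD m
  have : Nonempty (Fin N) := ⟨⟨0, by omega⟩⟩
  obtain ⟨j₀, hj₀⟩ := Finite.exists_max fun j => ‖w j‖
  set η : ℝ := ‖w j₀‖ with hη
  have h0 : 0 ≤ η := norm_nonneg _
  have hle : η ≤ min (min η₁ η₂) (min (min η₃ η₄) (1 / (2 * (C₁ + 1)))) := hNrm.le j₀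
  have hNη : Nrm Z w η := ⟨hNrm.crit, hNrm.sum, hNrm.prod, h0, hj₀⟩
  have l1 : η ≤ η₁ := hle.trans ((min_le_left _ _).trans (min_le_left _ _))
  have l2 : η ≤ η₂ := hle.trans ((min_le_left _ _).trans (min_le_right _ _))
  have l3 : η ≤ η₃ := hle.trans ((min_le_right _ _).trans ((min_le_left _ _).trans (min_le_left _ _)))
  have l4 : η ≤ η₄ := hle.trans ((min_le_right _ _).trans ((min_le_left _ _).trans (min_le_right _ _)))
  have l5 : η ≤ 1 / (2 * (C₁ + 1)) := hle.trans ((min_le_right _ _).trans (min_le_right _ _))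
  have l6 : η ≤ 1 := l1.trans hη₁'
  have p2 : 0 ≤ η ^ 2 := sq_nonneg _
  have p3 : 0 ≤ η ^ 3 := by positivity
  have q2 : η ^ 2 ≤ η := by nlinarith
  have q4 : η ^ 4 ≤ η ^ 3 := by
    have : η ^ 4 = η ^ 3 * η := by ring
    rw [this]; nlinarith
  by_contra hcon
  push Not at hcon
  have hdual := hd Z w η hNη l2 m
  have hD1 : 1 - C₂ * η ^ 3 ≤ D := by
    have h1 : 0 ≤ C₂ * η ^ 3 := by positivity
    have h2 : (N : ℝ) + 1 - C₂ * η ^ 3 < ((N : ℝ) + 1) * D := lt_of_le_of_lt hdual hcon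
    by_contra h3
    push Not at h3
    have h4 : ((N : ℝ) + 1) * D ≤ ((N : ℝ) + 1) * (1 - C₂ * η ^ 3) :=
      mul_le_mul_of_nonneg_left h3.le (by linarith)
    have h5 : (0 : ℝ) ≤ (N : ℝ) * (C₂ * η ^ 3) := by positivity
    nlinarith
  obtain ⟨z1, z2, z3⟩ := hz Z w η hNη l1 k₀
  rcases h0.eq_or_lt with h | h
  · -- all critical points are `0`
    have e : w j₀ = 0 := by rw [← norm_eq_zero, ← hη, ← h]
    have h1 := hD j₀
    rw [e, sub_zero] at h1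
    have h2 : ‖Z k₀‖ ≤ 1 := by
      rw [← h] at z2
      have := (abs_le.1 z2).2
      nlinarith
    rw [← h] at hdual
    have h3 : (N : ℝ) + 1 < ((N : ℝ) + 1) * D := by
      refine lt_of_le_of_lt ?_ hcon
      calc (N : ℝ) + 1 = (N : ℝ) + 1 - C₂ * 0 ^ 3 := by ring
        _ ≤ _ := hdual
    nlinarith
  · have hC1η : C₁ * η ^ 2 ≤ 1 / 2 := by
      have h1 : C₁ * η ^ 2 ≤ C₁ * η := mul_le_mul_of_nonneg_left q2 hC₁.le
      have h2 : C₁ * η ≤ C₁ * (1 / (2 * (C₁ + 1))) := mul_le_mul_of_nonneg_left l5 hC₁.le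
      have h3 : C₁ * (1 / (2 * (C₁ + 1))) ≤ 1 / 2 := by
        rw [mul_one_div, div_le_iff₀ (by positivity)]
        linarith
      linarith
    have ha : 0 < ‖Z k₀‖ := by
      have := (abs_le.1 z2).1
      linarith
    set a : ℂ := Z k₀ with hadef
    set x : Fin N → ℝ := fun j => (w j * starRingEnd ℂ a / (‖a‖ : ℂ)).re with hx
    set y : Fin N → ℝ := fun j => (w j * starRingEnd ℂ a / (‖a‖ : ℂ)).im with hy
    have hxy : ∀ j, x j ^ 2 + y j ^ 2 = ‖w j‖ ^ 2 := fun j => loc0_sq (w j) ha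
    have hxs : ∑ j, x j = 0 := by
      have e1 : ∑ j, x j = (∑ j, w j * starRingEnd ℂ a / (‖a‖ : ℂ)).re := by
        rw [Complex.re_sum]
      have e2 : ∑ j, w j * starRingEnd ℂ a / (‖a‖ : ℂ) =
          (∑ j, w j) * starRingEnd ℂ a / (‖a‖ : ℂ) := by
        rw [Finset.sum_mul, Finset.sum_div]
      rw [e1, e2, hNrm.sum]
      simp
    set S : ℝ := ∑ i, (x i ^ 2 - y i ^ 2) with hS
    have hSabs : |S| ≤ (N : ℝ) * η ^ 2 := by
      rw [hS]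
      refine (Finset.abs_sum_le_sum_abs _ _).trans ?_
      have h1 : ∀ i ∈ (Finset.univ : Finset (Fin N)), |x i ^ 2 - y i ^ 2| ≤ η ^ 2 := by
        intro i _
        have h2 : x i ^ 2 + y i ^ 2 ≤ η ^ 2 := by
          rw [hxy i]
          exact pow_le_pow_left₀ (norm_nonneg _) (hj₀ i) 2
        rw [abs_le]
        constructor <;> nlinarith [sq_nonneg (x i), sq_nonneg (y i)]
      refine (Finset.sum_le_sum h1).trans (le_of_eq ?_)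
      rw [Finset.sum_const, Finset.card_univ, Fintype.card_fin, nsmul_eq_mul]
    have hid := loc0_re hN w ha
    have hc0 : 0 < 1 / (2 * ((N : ℝ) - 1)) := by
      have : 0 < (N : ℝ) - 1 := by linarith
      positivity
    have hc1 : 1 / (2 * ((N : ℝ) - 1)) ≤ 1 := by
      rw [div_le_one (by linarith)]
      linarith
    -- replace `‖a‖ ^ 2` by `1`
    have hrep : 1 / (2 * ((N : ℝ) - 1)) * (‖a‖ ^ 2 * S) ≤
        1 / (2 * ((N : ℝ) - 1)) * S + 3 * C₁ * N * η ^ 3 := by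
      have h1 : |‖a‖ ^ 2 - 1| ≤ 3 * (C₁ * η ^ 2) := by
        have e : ‖a‖ ^ 2 - 1 = (‖a‖ - 1) * (‖a‖ + 1) := by ring
        rw [e, abs_mul, abs_of_pos (by linarith : 0 < ‖a‖ + 1)]
        have := mul_le_mul z2 (by linarith : ‖a‖ + 1 ≤ 3) (by linarith) (by positivity)
        linarith
      have h2 : |(‖a‖ ^ 2 - 1) * S| ≤ 3 * (C₁ * η ^ 2) * ((N : ℝ) * η ^ 2) := by
        rw [abs_mul]
        exact mul_le_mul h1 hSabs (abs_nonneg _) (by positivity)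
      have h3 : (‖a‖ ^ 2 - 1) * S ≤ 3 * C₁ * N * η ^ 3 := by
        refine (le_abs_self _).trans (h2.trans ?_)
        have e : 3 * (C₁ * η ^ 2) * ((N : ℝ) * η ^ 2) = 3 * C₁ * N * η ^ 4 := by ring
        rw [e]
        exact mul_le_mul_of_nonneg_left q4 (by positivity)
      have h4 : 1 / (2 * ((N : ℝ) - 1)) * ((‖a‖ ^ 2 - 1) * S) ≤ 3 * C₁ * N * η ^ 3 := by
        have h5 : 1 / (2 * ((N : ℝ) - 1)) * ((‖a‖ ^ 2 - 1) * S) ≤
            1 / (2 * ((N : ℝ) - 1)) * (3 * C₁ * N * η ^ 3) :=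
          mul_le_mul_of_nonneg_left h3 hc0.le
        have h6 : 1 / (2 * ((N : ℝ) - 1)) * (3 * C₁ * N * η ^ 3) ≤ 1 * (3 * C₁ * N * η ^ 3) :=
          mul_le_mul_of_nonneg_right hc1 (by positivity)
        linarith
      have e : 1 / (2 * ((N : ℝ) - 1)) * (‖a‖ ^ 2 * S) =
          1 / (2 * ((N : ℝ) - 1)) * S + 1 / (2 * ((N : ℝ) - 1)) * ((‖a‖ ^ 2 - 1) * S) := by ring
      linarith
    refine hr x y η h l4 hxs (fun j => ?_) ⟨j₀, ?_⟩ fun j => ?_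
    · rw [hxy j]
      exact pow_le_pow_left₀ (norm_nonneg _) (hj₀ j) 2
    · rw [hxy j₀]
    · have h1 := hde a (w j) η h0 l3 z2 (hj₀ j)
      have h2 := hD j
      have h3 := (abs_le.1 z3).2
      have h4 : ‖a - w j‖ ≤ ‖a‖ - x j + y j ^ 2 / 2 + C₃ * η ^ 3 := h1
      have h5 : -(1 / ((N : ℝ) + 1) * (cA w * (starRingEnd ℂ a) ^ 2).re) =
          1 / (2 * ((N : ℝ) - 1)) * (‖a‖ ^ 2 * S) := hid
      have h6 : D ≤ ‖a - w j‖ := h2
      have e : (C₁ + C₂ + C₃ + 3 * C₁ * N) * η ^ 3 =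
          C₁ * η ^ 3 + C₂ * η ^ 3 + C₃ * η ^ 3 + 3 * C₁ * N * η ^ 3 := by ring
      rw [e]
      linarith

end Pool.Agent.Lib.c113aaE
end
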