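import Pool.Agent.Lib.c113aaE.Loc0
import Pool.Agent.Lib.c113aaE.CritClose
import Pool.Agent.Lib.c113aaE.Spec

section

set_option autoImplicit false

namespace Pool.Agent.Lib.c113aaE

open Finset Polynomial Pool.MP_c113aa_an.BV

private theorem near_eval {N : ℕ} {Z : Fin (N + 1) → ℂ} {c b : ℂ}
    (h : pz Z = (X - C c) ^ (N + 1) - C b) (x : ℂ) :
    ∏ k, (x - Z k) = (x - c) ^ (N + 1) - b := by
  have h1 := congrArg (Polynomial.eval x) h
  simpa [pz, Polynomial.eval_prod] using h1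

private theorem near_crit {N : ℕ} {Z : Fin (N + 1) → ℂ} {c b : ℂ}
    (h : pz Z = (X - C c) ^ (N + 1) - C b) : CritOf Z (fun _ : Fin N => c) := by
  rw [critOf_iff]
  have h1 : (∏ k, (X - C (Z k)) : ℂ[X]) = (X - C c) ^ (N + 1) - C b := h
  rw [h1, derivative_sub, derivative_C, derivative_pow]
  simp

private theorem near_mean {N : ℕ} (hN : 1 ≤ N) {w : Fin N → ℂ} {c : ℂ} {ε : ℝ}
    (h : ∀ j, ‖w j - c‖ ≤ ε) : ‖(∑ j, w j) / (N : ℂ) - c‖ ≤ ε := by
  have hN0 : (N : ℂ) ≠ 0 := by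
    have : N ≠ 0 := by omega
    exact_mod_cast this
  have hNr : (0 : ℝ) < N := by exact_mod_cast hN
  have e : (∑ j, w j) / (N : ℂ) - c = (∑ j, (w j - c)) / (N : ℂ) := by
    rw [Finset.sum_sub_distrib]
    simp only [Finset.sum_const, Finset.card_univ, Fintype.card_fin, nsmul_eq_mul]
    field_simp
  rw [e, norm_div, Complex.norm_natCast, div_le_iff₀ hNr]
  calc ‖∑ j, (w j - c)‖ ≤ ∑ j, ‖w j - c‖ := norm_sum_le _ _
    _ ≤ ∑ _j : Fin N, ε := Finset.sum_le_sum (fun j _ => h j)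
    _ = ε * N := by simp [mul_comm]

/-- Proof: `pz Z₀ = (X - C c)^(N+1) - C b`, `b ≠ 0` (otherwise all `Z₀ k = c`), and `w₀ = fun _ => c`
are critical points of `Z₀` (`critOf_iff`).  By `crit_close`, for `Z` near `Z₀` and `w` with
`CritOf Z w` (`exists_crit`) all `w j` are near `c`; the mean `g = (∑ w j)/N` is near `c`, and
`β = -∏ (g - Z k)` is near `-∏ (c - Z₀ k) = b`.  Choose `l` with `l^(N+1) = β`
(`IsAlgClosed.exists_pow_nat_eq`); `‖l‖^(N+1) = ‖β‖ ≥ ‖b‖/2`, so `‖l‖ ≥ r₀ > 0`.  Then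
`Nrm (fun k => (Z k - g)/l) (fun j => (w j - g)/l) η₀` (`CritOf.affine`), and `loc0` with
`D = hZ Z / ‖l‖`, `k₀` from `hZ_spec`, the centre `(m - g)/l`; multiply by `‖l‖`. -/
theorem near {N : ℕ} (hN : 3 ≤ N) {Z₀ : Fin (N + 1) → ℂ} (h : Ext Z₀)
    (hc : ¬ ∃ c, ∀ k, Z₀ k = c) :
    ∀ᶠ Z in nhds Z₀, ∀ m : ℂ, ((N : ℝ) + 1) * hZ Z ≤ ∑ k, ‖Z k - m‖ := by
  obtain ⟨c, b, hpz⟩ := h
  have hb : b ≠ 0 := by
    rintro rfl
    apply hc
    refine ⟨c, fun k => ?_⟩
    have h1 := near_eval hpz (Z₀ k)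
    rw [Finset.prod_eq_zero (Finset.mem_univ k) (sub_self _), sub_zero] at h1
    have h2 : Z₀ k - c = 0 := by
      exact pow_eq_zero_iff (Nat.succ_ne_zero N) |>.1 h1.symm
    exact sub_eq_zero.1 h2
  have hbn : 0 < ‖b‖ := norm_pos_iff.2 hb
  have hcr : CritOf Z₀ (fun _ : Fin N => c) := near_crit hpz
  obtain ⟨η₀, hη₀, hloc⟩ := loc0 hN
  -- the product
  have hev : ∀ᶠ p in nhds (Z₀, c), ‖b‖ / 2 < ‖∏ k, (p.2 - p.1 k)‖ := by
    have hcont : Continuous (fun p : (Fin (N + 1) → ℂ) × ℂ => ‖∏ k, (p.2 - p.1 k)‖) := by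
      refine Continuous.norm (continuous_finsetProd _ (fun k _ => ?_))
      exact continuous_snd.sub ((continuous_apply k).comp continuous_fst)
    refine hcont.continuousAt.eventually (lt_mem_nhds ?_)
    have h1 := near_eval hpz c
    simp only [h1, sub_self, ne_eq, Nat.succ_ne_zero, not_false_eq_true, zero_pow, zero_sub,
      norm_neg]
    linarith
  rw [nhds_prod_eq, Filter.eventually_prod_iff] at hev
  obtain ⟨pa, hpa, pb, hpb, hab⟩ := hev
  obtain ⟨δ, hδ, hpb'⟩ := Metric.eventually_nhds_iff.1 hpb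
  set r₀ : ℝ := min 1 (‖b‖ / 2) with hr₀
  have hr₀p : 0 < r₀ := lt_min one_pos (by linarith)
  set ε : ℝ := min (η₀ * r₀ / 2) (δ / 2) with hε
  have hεp : 0 < ε := lt_min (by positivity) (by linarith)
  filter_upwards [hpa, crit_close (by omega : 1 ≤ N) hcr hεp] with Z hZa hZc m
  obtain ⟨w, hw⟩ := exists_crit Z
  have hwc : ∀ j, ‖w j - c‖ ≤ ε := fun j => by
    obtain ⟨i, hi⟩ := (hZc w hw).1 j
    exact hi
  set g : ℂ := (∑ j, w j) / (N : ℂ) with hg
  have hgc : ‖g - c‖ ≤ ε := near_mean (by omega) hwc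
  have hβ : ‖b‖ / 2 < ‖∏ k, (g - Z k)‖ := by
    refine hab hZa (hpb' ?_)
    rw [dist_eq_norm]
    calc ‖g - c‖ ≤ ε := hgc
      _ ≤ δ / 2 := min_le_right _ _
      _ < δ := by linarith
  obtain ⟨l, hl⟩ := IsAlgClosed.exists_pow_nat_eq (-∏ k, (g - Z k)) (Nat.succ_pos N)
  have hl' : l ^ (N + 1) = -∏ k, (g - Z k) := hl
  have hln : ‖l‖ ^ (N + 1) = ‖∏ k, (g - Z k)‖ := by
    rw [← norm_pow, hl', norm_neg]
  have hlr : r₀ ≤ ‖l‖ := by
    by_contra hlt
    push Not at hlt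
    have h1 : ‖l‖ ^ (N + 1) ≤ r₀ ^ (N + 1) := pow_le_pow_left₀ (norm_nonneg _) hlt.le _
    have h2 : r₀ ^ (N + 1) ≤ r₀ := by
      have := pow_le_pow_of_le_one hr₀p.le (min_le_left _ _) (by omega : 1 ≤ N + 1)
      simpa using this
    have h3 : r₀ ≤ ‖b‖ / 2 := min_le_right _ _
    linarith [hln ▸ h1]
  have hlp : 0 < ‖l‖ := lt_of_lt_of_le hr₀p hlr
  have hl0 : l ≠ 0 := norm_pos_iff.1 hlp
  have hN0 : (N : ℂ) ≠ 0 := by
    have : N ≠ 0 := by omega
    exact_mod_cast this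
  have hnrm : Nrm (fun k => (Z k - g) / l) (fun j => (w j - g) / l) η₀ := by
    refine ⟨hw.affine g l hl0, ?_, ?_, hη₀.le, ?_⟩
    · rw [← Finset.sum_div, Finset.sum_sub_distrib]
      simp only [Finset.sum_const, Finset.card_univ, Fintype.card_fin, nsmul_eq_mul]
      have : (N : ℂ) * g = ∑ j, w j := by
        rw [hg]; field_simp
      rw [this, sub_self, zero_div]
    · have e : ∀ k, (0 - (Z k - g) / l) = (g - Z k) / l := fun k => by ring
      simp only [e]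
      rw [Finset.prod_div_distrib]
      simp only [Finset.prod_const, Finset.card_univ, Fintype.card_fin]
      have h1 : ∏ k, (g - Z k) = - l ^ (N + 1) := by rw [hl', neg_neg]
      rw [h1, neg_div, div_self (pow_ne_zero _ hl0)]
    · intro j
      rw [norm_div, div_le_iff₀ hlp]
      have h1 : ‖w j - g‖ ≤ ε + ε := by
        have e : w j - g = (w j - c) - (g - c) := by ring
        rw [e]
        exact (norm_sub_le _ _).trans (add_le_add (hwc j) hgc)
      have h2 : ε ≤ η₀ * r₀ / 2 := min_le_left _ _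
      have h3 : η₀ * r₀ ≤ η₀ * ‖l‖ := mul_le_mul_of_nonneg_left hlr hη₀.le
      linarith
  obtain ⟨k₀, hk₀⟩ := (hZ_spec (by omega : 1 ≤ N) hw).1
  have key := hloc _ _ hnrm k₀ (hZ Z / ‖l‖) (fun j => by
    have e : (Z k₀ - g) / l - (w j - g) / l = (Z k₀ - w j) / l := by ring
    simp only [e, norm_div]
    exact div_le_div_of_nonneg_right (hk₀ j) hlp.le) ((m - g) / l)
  have e2 : ∀ k, ‖(Z k - g) / l - (m - g) / l‖ = ‖Z k - m‖ / ‖l‖ := fun k => by
    have e : (Z k - g) / l - (m - g) / l = (Z k - m) / l := by ring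
    rw [e, norm_div]
  simp only [e2] at key
  rw [← Finset.sum_div, ← mul_div_assoc, div_le_div_iff_of_pos_right hlp] at key
  exact key

end Pool.Agent.Lib.c113aaE
end
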