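import Pool.Agent.Lib.c113aaE.Defs

section

set_option autoImplicit false

namespace Pool.Agent.Lib.c113aaE

open Finset Polynomial Pool.MP_c113aa_an.BV

/-- A normalised configuration: the mean of the critical points is `0`, the constant coefficient is
`-1`, the critical points have modulus at most `η`. -/
structure Nrm {N : ℕ} (Z : Fin (N + 1) → ℂ) (w : Fin N → ℂ) (η : ℝ) : Prop where
  crit : CritOf Z w
  sum : ∑ j, w j = 0
  prod : ∏ k, (0 - Z k) = -1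
  nonneg : 0 ≤ η
  le : ∀ j, ‖w j‖ ≤ η

/-- The coefficient of `z^(N-1)` of `∏ (z - Z k)`. -/
noncomputable def cA {N : ℕ} (w : Fin N → ℂ) : ℂ :=
  -(((N : ℂ) + 1) / (2 * ((N : ℂ) - 1))) * ∑ j, w j ^ 2

theorem norm_cA_le {N : ℕ} (hN : 2 ≤ N) (w : Fin N → ℂ) {η : ℝ} (hw : ∀ j, ‖w j‖ ≤ η) :
    ‖cA w‖ ≤ ((N : ℝ) + 1) * N * η ^ 2 := by
  have hN' : (2 : ℝ) ≤ (N : ℝ) := by exact_mod_cast hN
  have h1 : ‖∑ j, w j ^ 2‖ ≤ (N : ℝ) * η ^ 2 := by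
    refine (norm_sum_le _ _).trans ?_
    have h2 : ∀ j ∈ (Finset.univ : Finset (Fin N)), ‖w j ^ 2‖ ≤ η ^ 2 := by
      intro j _
      rw [norm_pow]
      exact pow_le_pow_left₀ (norm_nonneg _) (hw j) 2
    refine (Finset.sum_le_sum h2).trans ?_
    rw [Finset.sum_const, Finset.card_univ, Fintype.card_fin, nsmul_eq_mul]
  have h3 : ‖-(((N : ℂ) + 1) / (2 * ((N : ℂ) - 1)))‖ ≤ (N : ℝ) + 1 := by
    have e1 : ((N : ℂ) + 1) / (2 * ((N : ℂ) - 1)) =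
        ((((N : ℝ) + 1) / (2 * ((N : ℝ) - 1)) : ℝ) : ℂ) := by
      push_cast
      rfl
    rw [norm_neg, e1, Complex.norm_real, Real.norm_eq_abs]
    have h4 : (0 : ℝ) < 2 * ((N : ℝ) - 1) := by linarith
    have h5 : (0 : ℝ) ≤ ((N : ℝ) + 1) / (2 * ((N : ℝ) - 1)) := by positivity
    rw [abs_of_nonneg h5, div_le_iff₀ h4]
    nlinarith
  have h6 : (0 : ℝ) ≤ (N : ℝ) * η ^ 2 := by positivity
  have h7 : (0 : ℝ) ≤ (N : ℝ) + 1 := by positivity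
  rw [cA, norm_mul]
  calc ‖-(((N : ℂ) + 1) / (2 * ((N : ℂ) - 1)))‖ * ‖∑ j, w j ^ 2‖
      ≤ ((N : ℝ) + 1) * ((N : ℝ) * η ^ 2) := mul_le_mul h3 h1 (norm_nonneg _) h7
    _ = ((N : ℝ) + 1) * N * η ^ 2 := by ring

end Pool.Agent.Lib.c113aaE
end
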