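import Pool.Agent.Lib.c113aaE.ProdExp
import Pool.Agent.Lib.c113aaE.Nrm

section

set_option autoImplicit false

namespace Pool.Agent.Lib.c113aaE

open Finset Polynomial Pool.MP_c113aa_an.BV

/-- Proof: let `G z = ∏ (z - Z k) - (z^(N+1) + cA w z^(N-1) - 1)`.  `G 0 = 0` (`h.prod`, `N ≥ 2`) and
`G` has the derivative `(N+1) (∏ (z - w j) - (z^N - (S/2) z^(N-2)))`, `S = ∑ (w j)^2`, because
`(N - 1) cA w = -(N+1) S / 2`; so `‖G' z‖ ≤ (N+1) C η^3 (1 + ‖z‖)^N` by `prod_exp`; mean value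
inequality on the segment `[0, z]` (`Convex.norm_image_sub_le_of_norm_hasDerivWithin_le`). -/
theorem poly_exp {N : ℕ} (hN : 3 ≤ N) : ∃ C : ℝ, 0 ≤ C ∧
    ∀ (Z : Fin (N + 1) → ℂ) (w : Fin N → ℂ) (η : ℝ), Nrm Z w η → η ≤ 1 → ∀ z : ℂ,
    ‖∏ k, (z - Z k) - (z ^ (N + 1) + cA w * z ^ (N - 1) - 1)‖ ≤
      C * η ^ 3 * (1 + ‖z‖) ^ (N + 1) := by
  obtain ⟨M, rfl⟩ : ∃ M, N = M + 3 := ⟨N - 3, by omega⟩
  obtain ⟨C0, hC0, hexp⟩ := prod_exp (M + 3)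
  refine ⟨((M + 3 : ℕ) + 1) * C0, by positivity, fun Z w η h hη z => ?_⟩
  have e1 : M + 3 - 1 = M + 2 := rfl
  have e2 : M + 3 - 2 = M + 1 := rfl
  rw [e1]
  set G : ℂ → ℂ := fun z => ∏ k, (z - Z k) - (z ^ (M + 3 + 1) + cA w * z ^ (M + 2) - 1) with hG
  have hG0 : G 0 = 0 := by
    simp only [hG]
    rw [h.prod, zero_pow (by omega), zero_pow (by omega)]
    ring
  have hder : ∀ y : ℂ, HasDerivAt G ((((M + 3 : ℕ) : ℂ) + 1) * (∏ j, (y - w j) -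
      (y ^ (M + 3) - (∑ j, w j ^ 2) / 2 * y ^ (M + 3 - 2)))) y := by
    intro y
    have d1 := h.crit y
    have d2 : HasDerivAt (fun z : ℂ => z ^ (M + 3 + 1))
        (((M + 3 + 1 : ℕ) : ℂ) * y ^ (M + 3)) y := hasDerivAt_pow (M + 3 + 1) y
    have d3 : HasDerivAt (fun z : ℂ => z ^ (M + 2)) (((M + 2 : ℕ) : ℂ) * y ^ (M + 1)) y :=
      hasDerivAt_pow (M + 2) y
    have d4 := d1.sub ((d2.add (d3.const_mul (cA w))).sub_const 1)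
    refine d4.congr_deriv ?_
    rw [e2, cA]
    have h5 : ((M : ℂ) + 2) ≠ 0 := by
      have h6 : ((M + 2 : ℕ) : ℂ) ≠ 0 := Nat.cast_ne_zero.2 (by omega)
      push_cast at h6
      exact h6
    have h7 : (((M + 3 : ℕ) : ℂ) - 1) = (M : ℂ) + 2 := by
      push_cast
      ring
    rw [h7]
    push_cast
    field_simp
    ring
  have hbd : ∀ y ∈ Metric.closedBall (0 : ℂ) ‖z‖, ‖(((M + 3 : ℕ) : ℂ) + 1) * (∏ j, (y - w j) -
      (y ^ (M + 3) - (∑ j, w j ^ 2) / 2 * y ^ (M + 3 - 2)))‖ ≤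
      ((M + 3 : ℕ) + 1) * C0 * η ^ 3 * (1 + ‖z‖) ^ (M + 3) := by
    intro y hy
    have hy' : ‖y‖ ≤ ‖z‖ := by simpa using hy
    have h1 := hexp w η h.nonneg hη h.le h.sum y
    have h2 : ‖(((M + 3 : ℕ) : ℂ) + 1)‖ = ((M + 3 : ℕ) : ℝ) + 1 := by
      have h3 : (((M + 3 : ℕ) : ℂ) + 1) = ((M + 3 + 1 : ℕ) : ℂ) := by push_cast; ring
      rw [h3, Complex.norm_natCast]
      push_cast
      ring
    rw [norm_mul, h2]
    have hη0 := h.nonneg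
    calc (((M + 3 : ℕ) : ℝ) + 1) * ‖∏ j, (y - w j) -
          (y ^ (M + 3) - (∑ j, w j ^ 2) / 2 * y ^ (M + 3 - 2))‖
        ≤ (((M + 3 : ℕ) : ℝ) + 1) * (C0 * η ^ 3 * (1 + ‖y‖) ^ (M + 3)) := by gcongr
      _ ≤ (((M + 3 : ℕ) : ℝ) + 1) * (C0 * η ^ 3 * (1 + ‖z‖) ^ (M + 3)) := by gcongr
      _ = ((M + 3 : ℕ) + 1) * C0 * η ^ 3 * (1 + ‖z‖) ^ (M + 3) := by ring
  have hmain := Convex.norm_image_sub_le_of_norm_hasDerivWithin_le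
    (fun y _ => (hder y).hasDerivWithinAt) hbd (convex_closedBall (0 : ℂ) ‖z‖)
    (Metric.mem_closedBall_self (norm_nonneg z)) (y := z) (by simp)
  rw [hG0, sub_zero, sub_zero] at hmain
  refine hmain.trans ?_
  have hη0 := h.nonneg
  calc ((M + 3 : ℕ) + 1) * C0 * η ^ 3 * (1 + ‖z‖) ^ (M + 3) * ‖z‖
      ≤ ((M + 3 : ℕ) + 1) * C0 * η ^ 3 * (1 + ‖z‖) ^ (M + 3) * (1 + ‖z‖) := by
        gcongr
        linarith
    _ = ((M + 3 : ℕ) + 1) * C0 * η ^ 3 * (1 + ‖z‖) ^ (M + 3 + 1) := by ring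

end Pool.Agent.Lib.c113aaE
end
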