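import Pool.Agent.Lib.c113aaE.Defs

section

set_option autoImplicit false

namespace Pool.Agent.Lib.c113aaE

open Finset Polynomial Pool.MP_c113aa_an.BV

private theorem prodExp_key (N : ℕ) (P p q t z : ℂ) (h0 : N = 0 → p = 0)
    (h1 : N ≤ 1 → p ^ 2 = q) :
    P * (z - t) - (z ^ (N + 1) - (p + t) * z ^ (N + 1 - 1) +
      (((p + t) ^ 2 - (q + t ^ 2)) / 2) * z ^ (N + 1 - 2)) =
    (z - t) * (P - (z ^ N - p * z ^ (N - 1) + ((p ^ 2 - q) / 2) * z ^ (N - 2))) -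
      t * ((p ^ 2 - q) / 2) * z ^ (N - 2) := by
  rcases N with _ | _ | M
  · have hp := h0 rfl
    have hq := h1 (by norm_num)
    subst hp
    subst hq
    norm_num
    ring
  · have hq := h1 le_rfl
    subst hq
    norm_num
    ring
  · have e1 : M + 1 + 1 + 1 - 1 = M + 2 := by omega
    have e2 : M + 1 + 1 + 1 - 2 = M + 1 := by omega
    have e3 : M + 1 + 1 - 1 = M + 1 := by omega
    have e4 : M + 1 + 1 - 2 = M := by omega
    rw [e1, e2, e3, e4]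
    ring

private theorem prodExp_gen (N : ℕ) : ∃ C : ℝ, 0 ≤ C ∧ ∀ (w : Fin N → ℂ) (η : ℝ), 0 ≤ η → η ≤ 1 →
    (∀ j, ‖w j‖ ≤ η) → ∀ z : ℂ,
    ‖∏ j, (z - w j) - (z ^ N - (∑ j, w j) * z ^ (N - 1) +
      (((∑ j, w j) ^ 2 - ∑ j, w j ^ 2) / 2) * z ^ (N - 2))‖ ≤ C * η ^ 3 * (1 + ‖z‖) ^ N := by
  induction N with
  | zero =>
    refine ⟨0, le_rfl, fun w η _ _ _ z => ?_⟩
    simp
  | succ N ih =>
    obtain ⟨C, hC, h⟩ := ih
    refine ⟨C + (N ^ 2 + N), by positivity, fun w η h0 h1 hw z => ?_⟩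
    have hN := h (fun j => w j.castSucc) η h0 h1 (fun j => hw _) z
    rw [Fin.prod_univ_castSucc, Fin.sum_univ_castSucc, Fin.sum_univ_castSucc]
    have hp : ‖∑ j : Fin N, w j.castSucc‖ ≤ N * η := by
      refine (norm_sum_le_of_le _ fun j _ => hw _).trans (le_of_eq ?_)
      rw [Finset.sum_const, Finset.card_univ, Fintype.card_fin, nsmul_eq_mul]
    have hq : ‖∑ j : Fin N, w j.castSucc ^ 2‖ ≤ N * η ^ 2 := by
      refine (norm_sum_le_of_le _ (f := fun j : Fin N => w j.castSucc ^ 2)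
        (n := fun _ => η ^ 2) fun j _ => ?_).trans (le_of_eq ?_)
      · rw [norm_pow]
        exact pow_le_pow_left₀ (norm_nonneg _) (hw _) 2
      · rw [Finset.sum_const, Finset.card_univ, Fintype.card_fin, nsmul_eq_mul]
    rw [prodExp_key N (∏ j : Fin N, (z - w j.castSucc)) (∑ j : Fin N, w j.castSucc)
      (∑ j : Fin N, w j.castSucc ^ 2) (w (Fin.last N)) z
      (fun hN0 => by subst hN0; simp)
      (fun hN1 => by
        rcases Nat.lt_or_ge N 1 with h2 | h2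
        · have : N = 0 := by omega
          subst this
          simp
        · have : N = 1 := by omega
          subst this
          simp)]
    refine (norm_sub_le _ _).trans ?_
    have ht : ‖w (Fin.last N)‖ ≤ η := hw _
    have hz : ‖z - w (Fin.last N)‖ ≤ 1 + ‖z‖ := by
      refine (norm_sub_le _ _).trans ?_
      linarith
    have hz1 : (1 : ℝ) ≤ 1 + ‖z‖ := by linarith [norm_nonneg z]
    have h3 : ‖(z - w (Fin.last N)) * (∏ j : Fin N, (z - w j.castSucc) -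
        (z ^ N - (∑ j : Fin N, w j.castSucc) * z ^ (N - 1) +
          (((∑ j : Fin N, w j.castSucc) ^ 2 - ∑ j : Fin N, w j.castSucc ^ 2) / 2) *
            z ^ (N - 2)))‖ ≤ C * η ^ 3 * (1 + ‖z‖) ^ (N + 1) := by
      rw [norm_mul]
      calc _ ≤ (1 + ‖z‖) * (C * η ^ 3 * (1 + ‖z‖) ^ N) :=
            mul_le_mul hz hN (norm_nonneg _) (by linarith)
        _ = _ := by ring
    have h4 : ‖((∑ j : Fin N, w j.castSucc) ^ 2 - ∑ j : Fin N, w j.castSucc ^ 2) / 2‖ ≤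
        (N ^ 2 + N) * η ^ 2 := by
      rw [norm_div]
      have h5 : ‖(∑ j : Fin N, w j.castSucc) ^ 2 - ∑ j : Fin N, w j.castSucc ^ 2‖ ≤
          (N ^ 2 + N) * η ^ 2 := by
        refine (norm_sub_le _ _).trans ?_
        rw [norm_pow]
        have h6 := pow_le_pow_left₀ (norm_nonneg _) hp 2
        rw [mul_pow] at h6
        linarith
      have h7 : ‖(2 : ℂ)‖ = 2 := by norm_num
      rw [h7]
      have h8 : 0 ≤ ((N : ℝ) ^ 2 + N) * η ^ 2 := by positivity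
      linarith [norm_nonneg ((∑ j : Fin N, w j.castSucc) ^ 2 - ∑ j : Fin N, w j.castSucc ^ 2)]
    have h9 : ‖z ^ (N - 2)‖ ≤ (1 + ‖z‖) ^ (N + 1) := by
      rw [norm_pow]
      refine (pow_le_pow_left₀ (norm_nonneg _) (by linarith : ‖z‖ ≤ 1 + ‖z‖) _).trans ?_
      exact pow_le_pow_right₀ hz1 (by omega)
    have h10 : ‖w (Fin.last N) *
        (((∑ j : Fin N, w j.castSucc) ^ 2 - ∑ j : Fin N, w j.castSucc ^ 2) / 2) *
          z ^ (N - 2)‖ ≤ (N ^ 2 + N) * η ^ 3 * (1 + ‖z‖) ^ (N + 1) := by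
      rw [norm_mul, norm_mul]
      calc _ ≤ η * ((N ^ 2 + N) * η ^ 2) * (1 + ‖z‖) ^ (N + 1) := by
            refine mul_le_mul (mul_le_mul ht h4 (norm_nonneg _) h0) h9 (norm_nonneg _) ?_
            positivity
        _ = _ := by ring
    calc _ ≤ C * η ^ 3 * (1 + ‖z‖) ^ (N + 1) + (N ^ 2 + N) * η ^ 3 * (1 + ‖z‖) ^ (N + 1) :=
          add_le_add h3 h10
      _ = _ := by push_cast; ring

/-- Expansion of a product to second order.  Proof: by induction on `N` one shows, without the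
assumption `∑ w = 0` and with `p₁ = ∑ w j`, `p₂ = ∑ (w j)^2`,
`B_N (z) = z^N - p₁ z^(N-1) + ((p₁^2 - p₂)/2) z^(N-2)` (truncated subtraction does no harm, as
`p₁ = 0` for `N = 0` and `p₁^2 = p₂` for `N ≤ 1`):
`‖∏ (z - w j) - B_N (z)‖ ≤ C_N η^3 (1 + ‖z‖)^N`.  Step (`Fin.prod_univ_castSucc`):
`B_{N+1} - (z - w_N) B_N = w_N ((p₁^2 - p₂)/2) z^(N-2)`, of norm at most `N^2 η^3 (1 + ‖z‖)^(N+1)`. -/
theorem prod_exp (N : ℕ) : ∃ C : ℝ, 0 ≤ C ∧ ∀ (w : Fin N → ℂ) (η : ℝ), 0 ≤ η → η ≤ 1 →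
    (∀ j, ‖w j‖ ≤ η) → ∑ j, w j = 0 → ∀ z : ℂ,
    ‖∏ j, (z - w j) - (z ^ N - (∑ j, w j ^ 2) / 2 * z ^ (N - 2))‖ ≤
      C * η ^ 3 * (1 + ‖z‖) ^ N := by
  obtain ⟨C, hC, h⟩ := prodExp_gen N
  refine ⟨C, hC, fun w η h0 h1 hw hs z => ?_⟩
  have h2 := h w η h0 h1 hw z
  rw [hs] at h2
  have e : z ^ N - (∑ j, w j ^ 2) / 2 * z ^ (N - 2) =
      z ^ N - 0 * z ^ (N - 1) + ((0 ^ 2 - ∑ j, w j ^ 2) / 2) * z ^ (N - 2) := by ring
  rw [e]
  exact h2

end Pool.Agent.Lib.c113aaE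
end
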