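import Pool.Agent.Lib.c113aaE.Defs

section

set_option autoImplicit false

namespace Pool.Agent.Lib.c113aaE

open Finset Polynomial Pool.MP_c113aa_an.BV

private theorem rec_log {ι : Type*} [DecidableEq ι] (s : Finset ι) (r : ι → ℂ) (t : ℂ)
    (h : ∀ i ∈ s, t - r i ≠ 0) :
    (derivative (∏ i ∈ s, (X - C (r i)) : ℂ[X])).eval t =
      (∏ i ∈ s, (t - r i)) * ∑ i ∈ s, (t - r i)⁻¹ := by
  rw [derivative_prod_finset, eval_finset_sum, Finset.mul_sum]
  refine Finset.sum_congr rfl fun i hi => ?_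
  rw [derivative_X_sub_C, mul_one, eval_prod, ← Finset.mul_prod_erase s _ hi]
  have := h i hi
  simp only [eval_sub, eval_X, eval_C]
  field_simp

/-- The first two derivatives at the simple zero `a = Z k₀`.  Proof: write `F = (X - C a) * G` with
`G = ∏_{k ≠ k₀} (X - C (Z k))` (`c113aaT.prod_split`), `F' = (N+1) ∏ (X - C (w j))` (`critOf_iff`).
`F'(a) = G(a)`: first identity.  `F''(a) = 2 G'(a)`, and the logarithmic derivatives of
`∏ (X - C (w j))` and of `G` at `a` (`derivative_prod_finset`, as in `c113aaT.log_deriv_prod`; all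
`a - w j` and `a - Z k`, `k ≠ k₀`, are nonzero): second identity after division by the first. -/
theorem rec_id {N : ℕ} {Z : Fin (N + 1) → ℂ} {w : Fin N → ℂ} (h : CritOf Z w)
    (k₀ : Fin (N + 1)) {D : ℝ} (hD : 0 < D) (hw : ∀ j, D ≤ ‖Z k₀ - w j‖) :
    ∏ k ∈ univ.erase k₀, (Z k₀ - Z k) = ((N : ℂ) + 1) * ∏ j, (Z k₀ - w j) ∧
      ∑ j, (Z k₀ - w j)⁻¹ = 2 * ∑ k ∈ univ.erase k₀, (Z k₀ - Z k)⁻¹ := by
  have hs := c113aaT.simple_zero h k₀ hD hw
  have hw0 : ∀ j, Z k₀ - w j ≠ 0 := fun j => by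
    have := lt_of_lt_of_le hD (hw j)
    exact norm_pos_iff.1 this
  have h' := (critOf_iff Z w).1 h
  rw [c113aaT.prod_split Z k₀] at h'
  obtain ⟨G, hG⟩ : ∃ G : ℂ[X], G = ∏ k ∈ univ.erase k₀, (X - C (Z k)) := ⟨_, rfl⟩
  obtain ⟨W, hW⟩ : ∃ W : ℂ[X], W = ∏ j, (X - C (w j)) := ⟨_, rfl⟩
  rw [← hG, ← hW] at h'
  have hG0 : G.eval (Z k₀) = ∏ k ∈ univ.erase k₀, (Z k₀ - Z k) := by
    rw [hG, eval_prod]
    exact Finset.prod_congr rfl fun k _ => by rw [eval_sub, eval_X, eval_C]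
  have hW0 : W.eval (Z k₀) = ∏ j, (Z k₀ - w j) := by
    rw [hW, eval_prod]
    exact Finset.prod_congr rfl fun k _ => by rw [eval_sub, eval_X, eval_C]
  have hG1 : (derivative G).eval (Z k₀) =
      (∏ k ∈ univ.erase k₀, (Z k₀ - Z k)) * ∑ k ∈ univ.erase k₀, (Z k₀ - Z k)⁻¹ := by
    rw [hG]
    exact rec_log _ _ _ fun k hk => sub_ne_zero.2 (Ne.symm (hs k (Finset.ne_of_mem_erase hk)))
  have hW1 : (derivative W).eval (Z k₀) =
      (∏ j, (Z k₀ - w j)) * ∑ j, (Z k₀ - w j)⁻¹ := by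
    rw [hW]
    exact rec_log _ _ _ fun j _ => hw0 j
  have e1 : G.eval (Z k₀) = ((N : ℂ) + 1) * W.eval (Z k₀) := by
    have h1 := congrArg (fun P : ℂ[X] => P.eval (Z k₀)) h'
    simp only [derivative_mul, derivative_X_sub_C, one_mul, eval_add, eval_mul, eval_sub, eval_X,
      eval_C, sub_self, zero_mul, add_zero] at h1
    exact h1
  have e2 : 2 * (derivative G).eval (Z k₀) = ((N : ℂ) + 1) * (derivative W).eval (Z k₀) := by
    have h1 := congrArg (fun P : ℂ[X] => (derivative P).eval (Z k₀)) h'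
    simp only [derivative_mul, derivative_X_sub_C, one_mul, derivative_add, eval_add, eval_mul,
      eval_sub, eval_X, eval_C, sub_self, zero_mul, add_zero, derivative_C, zero_add] at h1
    linear_combination h1
  rw [hG0, hW0] at e1
  refine ⟨e1, ?_⟩
  rw [hG1, hW1, ← mul_assoc, ← mul_assoc] at e2
  have hne : ∏ k ∈ univ.erase k₀, (Z k₀ - Z k) ≠ 0 := Finset.prod_ne_zero_iff.2 fun k hk =>
    sub_ne_zero.2 (Ne.symm (hs k (Finset.ne_of_mem_erase hk)))
  rw [← e1] at e2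
  apply mul_left_cancel₀ hne
  linear_combination -e2

end Pool.Agent.Lib.c113aaE
end
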