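import Pool.Agent.Lib.c113aaE.Final
import Pool.Agent.Lib.c113aaE.Five

section

set_option autoImplicit false

namespace Pool.Agent.Lib.c113aaE

open Finset Polynomial Pool.MP_c113aa_an.BV

/-- The threshold exponents of the degrees. -/
theorem thr :
    ∃ t : ℕ → EReal,
      (∀ n : ℕ, 2 ≤ n → 1 ≤ t n ∧
        (∀ p : ℝ, 1 ≤ p →
          ((∀ F : ℂ[X], F.natDegree = n → hd F ≤ pv n p F) ↔ t n ≤ (p : EReal))) ∧
        (∀ p : ℝ, 1 < p →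
          ((∀ F : ℂ[X], F.natDegree = n → (hd F = pv n p F ↔ Sp n F)) ↔ t n < (p : EReal))) ∧
        ((∀ F : ℂ[X], F.natDegree = n → hd F ≤ ci F ∧ (hd F = ci F ↔ Sp n F)) ↔ t n < ⊤)) ∧
      t 4 < ⊤ ∧ t 5 < ⊤ := by
  classical
  have h0 : ∀ n : ℕ, ∃ t : EReal, 2 ≤ n → 1 ≤ t ∧
      (∀ p : ℝ, 1 ≤ p →
        ((∀ F : ℂ[X], F.natDegree = n → hd F ≤ pv n p F) ↔ t ≤ (p : EReal))) ∧
      (∀ p : ℝ, 1 < p →
        ((∀ F : ℂ[X], F.natDegree = n → (hd F = pv n p F ↔ Sp n F)) ↔ t < (p : EReal))) ∧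
      ((∀ F : ℂ[X], F.natDegree = n → hd F ≤ ci F ∧ (hd F = ci F ↔ Sp n F)) ↔ t < ⊤) := by
    intro n
    by_cases hn : 2 ≤ n
    · obtain ⟨t, ht⟩ := (final n hn).1
      exact ⟨t, fun _ => ht⟩
    · exact ⟨1, fun h => absurd h hn⟩
  choose t ht using h0
  exact ⟨t, ht, (ht 4 (by norm_num)).2.2.2.1 ((PZ_iff 3).2 four),
    (ht 5 (by norm_num)).2.2.2.1 ((PZ_iff 4).2 five)⟩

end Pool.Agent.Lib.c113aaE
end
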