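import Pool.Agent.Lib.c113aaE.Defs

section

set_option autoImplicit false

namespace Pool.Agent.Lib.c113aaE

open Finset Polynomial Pool.MP_c113aa_an.BV

private theorem trans_monic {N : ℕ} (Z : Fin (N + 1) → ℂ) : (pz Z).Monic :=
  monic_prod_of_monic _ _ fun k _ => monic_X_sub_C (Z k)

private theorem trans_pv {N : ℕ} (F : ℂ[X]) (Z : Fin (N + 1) → ℂ)
    (h : F.roots = Multiset.map Z Finset.univ.val) (p : ℝ) : pv (N + 1) p F = sg p Z := by
  unfold pv sg
  refine iInf_congr fun c => ?_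
  rw [h, Multiset.map_map]
  rfl

private theorem trans_ci {N : ℕ} (F : ℂ[X]) (Z : Fin (N + 1) → ℂ)
    (h : F.roots = Multiset.map Z Finset.univ.val) : ci F = sI Z := by
  unfold ci sI
  refine iInf_congr fun c => ?_
  have h1 : {r : ℝ | ∃ z ∈ F.roots, r = ‖z - c‖} = Set.range fun k => ‖Z k - c‖ := by
    ext r
    rw [h]
    simp only [Multiset.mem_map, Finset.mem_val, Finset.mem_univ, true_and, Set.mem_setOf_eq,
      Set.mem_range]
    constructor
    · rintro ⟨z, ⟨k, rfl⟩, rfl⟩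
      exact ⟨k, rfl⟩
    · rintro ⟨k, rfl⟩
      exact ⟨Z k, ⟨k, rfl⟩, rfl⟩
  rw [h1]
  rfl

private theorem trans_coeff {N : ℕ} (a b c : ℂ) :
    (C a * (X - C c) ^ (N + 1) - C b : ℂ[X]).coeff (N + 1) = a := by
  have h1 : ((X - C c) ^ (N + 1) : ℂ[X]).coeff (N + 1) = 1 := by
    have h2 := (monic_X_sub_C c).pow (N + 1)
    have h3 : ((X - C c) ^ (N + 1) : ℂ[X]).natDegree = N + 1 := by
      rw [natDegree_pow, natDegree_X_sub_C, mul_one]
    rw [Monic, leadingCoeff, h3] at h2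
    exact h2
  rw [coeff_sub, coeff_C_mul, h1, coeff_C, if_neg (Nat.succ_ne_zero N), mul_one, sub_zero]

theorem natDegree_pz {N : ℕ} (Z : Fin (N + 1) → ℂ) : (pz Z).natDegree = N + 1 := by
  unfold pz
  rw [natDegree_prod_of_monic _ _ fun k _ => monic_X_sub_C (Z k)]
  simp

private theorem trans_sp {N : ℕ} (a : ℂ) (ha : a ≠ 0) (Z : Fin (N + 1) → ℂ) :
    Sp (N + 1) (C a * pz Z) ↔ Ext Z := by
  constructor
  · rintro ⟨a', b, c, h⟩
    have h1 : (C a * pz Z).coeff (N + 1) = a := by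
      rw [coeff_C_mul]
      have h2 : (pz Z).coeff (N + 1) = 1 := by
        have h3 := trans_monic Z
        rw [Monic, leadingCoeff, natDegree_pz] at h3
        exact h3
      rw [h2, mul_one]
    have h2 : a = a' := by
      rw [← h1, h, trans_coeff]
    subst h2
    refine ⟨c, b / a, ?_⟩
    have h3 : (C a : ℂ[X]) ≠ 0 := C_ne_zero.2 ha
    apply mul_left_cancel₀ h3
    rw [h, mul_sub, ← C_mul, mul_div_cancel₀ b ha]
  · rintro ⟨c, b, h⟩
    refine ⟨a, a * b, c, ?_⟩
    rw [h, mul_sub, C_mul]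

private theorem trans_hd {N : ℕ} (a : ℂ) (ha : a ≠ 0) (Z : Fin (N + 1) → ℂ) :
    hd (C a * pz Z) = hd (pz Z) := by
  unfold hd
  rw [roots_C_mul _ ha, derivative_C_mul, roots_C_mul _ ha]

/-- Data of a polynomial in terms of the vector of its zeros.  Proof: `exists_fin_roots` gives
`F = C a * ∏ (X - C (Z k))`, `a ≠ 0`, with `F.roots = map Z univ.val` and
`(derivative F).roots = map w univ.val`.  `(pz Z).roots = map Z univ.val` and
`(derivative (pz Z)).roots = (derivative F).roots` (`derivative F = C a * derivative (pz Z)`,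
`roots_C_mul`), so `hd F = hd (pz Z)`.  `pv`: `Multiset.map_map`, as `hσ` in `c113aaT.main_of`.
`ci`: the set `{r | ∃ z ∈ F.roots, r = ‖z - c‖}` is the range of `fun k => ‖Z k - c‖`.
`Sp ↔ Ext`: for `→` compare the leading coefficients (as in `main_of`, second half), for `←`
multiply by `C a`. -/
theorem trans {N : ℕ} (F : ℂ[X]) (hF : F.natDegree = N + 1) : ∃ Z : Fin (N + 1) → ℂ,
    hd F = hZ Z ∧ (∀ p : ℝ, pv (N + 1) p F = sg p Z) ∧ ci F = sI Z ∧
      (Sp (N + 1) F ↔ Ext Z) := by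
  obtain ⟨a, Z, w, ha, hFZ, hroots, hroots', hcrit⟩ := exists_fin_roots F hF
  have hFZ' : F = C a * pz Z := hFZ
  refine ⟨Z, ?_, fun p => trans_pv F Z hroots p, trans_ci F Z hroots, ?_⟩
  · rw [hFZ', trans_hd a ha Z]
    rfl
  · rw [hFZ']
    exact trans_sp a ha Z

/-- The same for `F = pz Z` (`hd (pz Z) = hZ Z` is the definition). -/
theorem pz_data {N : ℕ} (Z : Fin (N + 1) → ℂ) :
    (∀ p : ℝ, pv (N + 1) p (pz Z) = sg p Z) ∧ ci (pz Z) = sI Z ∧
      (Sp (N + 1) (pz Z) ↔ Ext Z) := by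
  have hroots : (pz Z).roots = Multiset.map Z Finset.univ.val := by
    have h1 : pz Z = (Multiset.map (fun a => X - C a) (Multiset.map Z Finset.univ.val)).prod := by
      rw [Multiset.map_map]
      rfl
    rw [h1, roots_multiset_prod_X_sub_C]
  refine ⟨fun p => trans_pv _ Z hroots p, trans_ci _ Z hroots, ?_⟩
  have h2 := trans_sp (1 : ℂ) one_ne_zero Z
  rwa [C_1, one_mul] at h2

end Pool.Agent.Lib.c113aaE
end
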