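import Pool.Agent.Lib.c113aaE.Defs

section

set_option autoImplicit false

namespace Pool.Agent.Lib.c113aaE

open Finset Polynomial Pool.MP_c113aa_an.BV

private theorem zeroEst_one {r : ℝ} (hr : 0 ≤ r) {n : ℕ} (hn : 1 ≤ n) : |r - 1| ≤ |r ^ n - 1| := by
  have h1 : (1 : ℝ) ≤ ∑ i ∈ range n, r ^ i := by
    have h2 : r ^ 0 ≤ ∑ i ∈ range n, r ^ i :=
      single_le_sum (f := fun i => r ^ i) (fun i _ => pow_nonneg hr i) (mem_range.2 hn)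
    rwa [pow_zero] at h2
  rw [← geom_sum_mul, abs_mul, abs_of_nonneg (by linarith : (0 : ℝ) ≤ ∑ i ∈ range n, r ^ i)]
  nlinarith [abs_nonneg (r - 1)]

private theorem zeroEst_two {r : ℝ} (hr : 0 ≤ r) (hr2 : r ≤ 2) (n : ℕ) :
    |r ^ n - 1 - n * (r - 1)| ≤ n * 2 ^ n * (r - 1) ^ 2 := by
  induction n with
  | zero => simp
  | succ n ih =>
    have h1 : r ^ (n + 1) - 1 - ((n + 1 : ℕ) : ℝ) * (r - 1) =
        r * (r ^ n - 1 - n * (r - 1)) + n * (r - 1) ^ 2 := by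
      push_cast
      ring
    rw [h1]
    have h0 : (0 : ℝ) ≤ (n : ℝ) := Nat.cast_nonneg n
    have h2 : |r * (r ^ n - 1 - n * (r - 1))| ≤ 2 * (n * 2 ^ n * (r - 1) ^ 2) := by
      rw [abs_mul, abs_of_nonneg hr]
      exact mul_le_mul hr2 ih (abs_nonneg _) (by norm_num)
    have h3 : |(n : ℝ) * (r - 1) ^ 2| = n * (r - 1) ^ 2 := abs_of_nonneg (by positivity)
    have h4 : (n : ℝ) ≤ 2 * 2 ^ n := by
      have h5 : n < 2 ^ n := Nat.lt_two_pow_self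
      have h6 : (n : ℝ) < 2 ^ n := by exact_mod_cast h5
      have h7 : (0 : ℝ) < 2 ^ n := by positivity
      linarith
    calc |r * (r ^ n - 1 - n * (r - 1)) + n * (r - 1) ^ 2|
        ≤ |r * (r ^ n - 1 - n * (r - 1))| + |(n : ℝ) * (r - 1) ^ 2| := abs_add_le _ _
      _ ≤ 2 * (n * 2 ^ n * (r - 1) ^ 2) + n * (r - 1) ^ 2 := by rw [h3]; linarith
      _ ≤ 2 * (n * 2 ^ n * (r - 1) ^ 2) + (2 * 2 ^ n) * (r - 1) ^ 2 := by
          have := mul_le_mul_of_nonneg_right h4 (sq_nonneg (r - 1))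
          linarith
      _ = ((n + 1 : ℕ) : ℝ) * 2 ^ (n + 1) * (r - 1) ^ 2 := by
          push_cast
          ring

private theorem zeroEst_three {b : ℂ} (hb : ‖b‖ ≤ 1 / 2) : |‖1 - b‖ - (1 - b.re)| ≤ ‖b‖ ^ 2 := by
  have h1 : |b.re| ≤ ‖b‖ := Complex.abs_re_le_norm b
  have h2 := abs_le.1 h1
  have hre : b.re ≤ 1 / 2 := by linarith
  have h3 : 1 - b.re ≤ ‖1 - b‖ := by
    have h4 := Complex.re_le_norm (1 - b)
    simpa using h4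
  have h5 : ‖1 - b‖ ^ 2 = (1 - b.re) ^ 2 + b.im ^ 2 := by
    rw [← Complex.normSq_eq_norm_sq, Complex.normSq_apply]
    simp only [Complex.sub_re, Complex.one_re, Complex.sub_im, Complex.one_im, zero_sub]
    ring
  have h6 : ‖b‖ ^ 2 = b.re ^ 2 + b.im ^ 2 := by
    rw [← Complex.normSq_eq_norm_sq, Complex.normSq_apply]
    ring
  have h7 : ‖1 - b‖ ≤ 1 - b.re + ‖b‖ ^ 2 := by
    have h8 : 0 ≤ 1 - b.re + ‖b‖ ^ 2 := by nlinarith [sq_nonneg ‖b‖]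
    refine le_of_sq_le_sq ?_ h8
    rw [h5, h6]
    nlinarith [sq_nonneg b.re, sq_nonneg b.im, sq_nonneg (b.re ^ 2 + b.im ^ 2),
      mul_nonneg (by linarith : (0 : ℝ) ≤ 1 - 2 * b.re) (add_nonneg (sq_nonneg b.re) (sq_nonneg b.im))]
  rw [abs_le]
  constructor
  · have := sq_nonneg ‖b‖
    linarith
  · linarith

/-- Roots of `z^n + a z^(n-2) - 1 = O(η^3)` with `a = O(η^2)`.  Proof: first `‖z‖ ≤ 2` for small `η`:
if `‖z‖ > 2` then `1 + ‖z‖ ≤ (3/2) ‖z‖` and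
`‖z‖^n ≤ 1 + ‖a‖ ‖z‖^(n-2) + K η^3 (3/2)^n ‖z‖^n`, so
`‖z‖^n (1 - K η^2 - K η^3 (3/2)^n) ≤ 1`, impossible for small `η`, as `‖z‖^n ≥ 4`.  Then
`‖z^n - 1‖ ≤ C' η^2`, so `|‖z‖^n - 1| ≤ C' η^2` and `|‖z‖ - 1| ≤ C' η^2`
(`|x^n - 1| ≥ |x - 1|` for `x ≥ 0`, `n ≥ 1`).  Finally `z^(n-2) = z^n (conj z)^2 / ‖z‖^4`, so
`‖z^(n-2) - (conj z)^2‖ ≤ C'' η^2` and `z^n = 1 - a (conj z)^2 + O(η^3)`,
`‖z‖^n = ‖1 - a (conj z)^2‖ + O(η^3) = 1 - re (a (conj z)^2) + O(η^3)` and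
`‖z‖^n = 1 + n (‖z‖ - 1) + O(η^4)`. -/
theorem zero_est (n : ℕ) (hn : 3 ≤ n) (K : ℝ) (hK : 0 ≤ K) : ∃ C η₀ : ℝ, 0 < C ∧ 0 < η₀ ∧
    η₀ ≤ 1 ∧ ∀ (a z : ℂ) (η : ℝ), 0 ≤ η → η ≤ η₀ → ‖a‖ ≤ K * η ^ 2 →
    ‖z ^ n + a * z ^ (n - 2) - 1‖ ≤ K * η ^ 3 * (1 + ‖z‖) ^ n →
    ‖z‖ ≤ 2 ∧ |‖z‖ - 1| ≤ C * η ^ 2 ∧
      |‖z‖ - 1 + 1 / (n : ℝ) * (a * (starRingEnd ℂ z) ^ 2).re| ≤ C * η ^ 3 := by
  set q : ℝ := 3 ^ n with hq
  have hq1 : 1 ≤ q := one_le_pow₀ (by norm_num)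
  have hq0 : 0 < q := by linarith
  set C₁ : ℝ := 2 * K * q with hC₁
  have hC₁0 : 0 ≤ C₁ := by positivity
  set C₂ : ℝ := (4 + 15 * q) * C₁ with hC₂
  have hC₂0 : 0 ≤ C₂ := by positivity
  set C₄ : ℝ := K * q + K * C₂ + 16 * K ^ 2 with hC₄
  have hC₄0 : 0 ≤ C₄ := by positivity
  set C₅ : ℝ := n * 2 ^ n * C₁ ^ 2 with hC₅
  have hC₅0 : 0 ≤ C₅ := by positivity
  refine ⟨1 + C₁ + C₄ + C₅, 1 / (8 * (K + 1) * q), by positivity, by positivity, ?_, ?_⟩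
  · rw [div_le_one (by positivity)]
    nlinarith [mul_nonneg hK hq0.le]
  intro a z η hη hη0 ha hz
  have hη1 : η ≤ 1 := by
    refine hη0.trans ?_
    rw [div_le_one (by positivity)]
    nlinarith [mul_nonneg hK hq0.le]
  have hKηq : K * η * q ≤ 1 / 8 := by
    rw [le_div_iff₀ (by positivity)] at hη0
    nlinarith [mul_nonneg hη hq0.le]
  have hKη : K * η ≤ 1 / 8 := by
    have h1 : K * η * 1 ≤ K * η * q := mul_le_mul_of_nonneg_left hq1 (mul_nonneg hK hη)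
    linarith
  have hη2 : η ^ 2 ≤ η := by nlinarith
  have hη3 : η ^ 3 ≤ η ^ 2 := by nlinarith [sq_nonneg η]
  have hη4 : η ^ 4 ≤ η ^ 3 := by nlinarith [pow_nonneg hη 3]
  have hη2' : 0 ≤ η ^ 2 := sq_nonneg η
  have hη3' : 0 ≤ η ^ 3 := pow_nonneg hη 3
  set r : ℝ := ‖z‖ with hr
  have hr0 : 0 ≤ r := norm_nonneg z
  have hrn : ‖z ^ n‖ = r ^ n := norm_pow z n
  -- first step
  have hr2 : r ≤ 2 := by
    by_contra hcon
    push Not at hcon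
    have h1 : (1 + r) ^ n ≤ q * r ^ n := by
      rw [hq, ← mul_pow]
      exact pow_le_pow_left₀ (by linarith) (by linarith) n
    have h2 : r ^ (n - 2) ≤ r ^ n := pow_le_pow_right₀ (by linarith) (Nat.sub_le n 2)
    have h3 : r ^ n ≤ 1 + ‖a‖ * r ^ (n - 2) + ‖z ^ n + a * z ^ (n - 2) - 1‖ := by
      rw [← hrn]
      calc ‖z ^ n‖ = ‖1 - a * z ^ (n - 2) + (z ^ n + a * z ^ (n - 2) - 1)‖ := by
            congr 1
            ring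
        _ ≤ ‖1 - a * z ^ (n - 2)‖ + ‖z ^ n + a * z ^ (n - 2) - 1‖ := norm_add_le _ _
        _ ≤ ‖(1 : ℂ)‖ + ‖a * z ^ (n - 2)‖ + ‖z ^ n + a * z ^ (n - 2) - 1‖ := by
            have := norm_sub_le (1 : ℂ) (a * z ^ (n - 2))
            linarith
        _ = 1 + ‖a‖ * r ^ (n - 2) + ‖z ^ n + a * z ^ (n - 2) - 1‖ := by
            rw [norm_one, norm_mul, norm_pow]
    have hrn0 : 0 ≤ r ^ n := pow_nonneg hr0 n
    have h4 : ‖a‖ * r ^ (n - 2) ≤ K * η ^ 2 * r ^ n :=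
      mul_le_mul ha h2 (pow_nonneg hr0 _) (by positivity)
    have h5 : K * η ^ 2 ≤ 1 / 8 := by
      have := mul_le_mul_of_nonneg_left hη2 hK
      linarith
    have h6 : K * η ^ 2 * r ^ n ≤ 1 / 8 * r ^ n := mul_le_mul_of_nonneg_right h5 hrn0
    have h7 : K * η ^ 3 * (1 + r) ^ n ≤ 1 / 8 * r ^ n := by
      have h8 : K * η ^ 3 ≤ K * η := mul_le_mul_of_nonneg_left (hη3.trans hη2) hK
      calc K * η ^ 3 * (1 + r) ^ n ≤ K * η * (q * r ^ n) :=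
            mul_le_mul h8 h1 (by positivity) (mul_nonneg hK hη)
        _ = (K * η * q) * r ^ n := by ring
        _ ≤ 1 / 8 * r ^ n := mul_le_mul_of_nonneg_right hKηq hrn0
    have h8 : r ≤ r ^ n := by
      calc r = r ^ 1 := (pow_one r).symm
        _ ≤ r ^ n := pow_le_pow_right₀ (by linarith) (by omega)
    linarith
  -- second step
  have hpw : r ^ (n - 2) ≤ q := by
    calc r ^ (n - 2) ≤ 3 ^ (n - 2) := pow_le_pow_left₀ hr0 (by linarith) _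
      _ ≤ 3 ^ n := pow_le_pow_right₀ (by norm_num) (Nat.sub_le n 2)
  have hpw0 : 0 ≤ r ^ (n - 2) := pow_nonneg hr0 _
  have hE : ‖z ^ n + a * z ^ (n - 2) - 1‖ ≤ K * q * η ^ 3 := by
    refine hz.trans ?_
    have h1 : (1 + r) ^ n ≤ q := pow_le_pow_left₀ (by linarith) (by linarith) n
    calc K * η ^ 3 * (1 + r) ^ n ≤ K * η ^ 3 * q := mul_le_mul_of_nonneg_left h1 (by positivity)
      _ = K * q * η ^ 3 := by ring
  have hz1 : ‖z ^ n - 1‖ ≤ C₁ * η ^ 2 := by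
    calc ‖z ^ n - 1‖ = ‖(z ^ n + a * z ^ (n - 2) - 1) - a * z ^ (n - 2)‖ := by
          congr 1
          ring
      _ ≤ ‖z ^ n + a * z ^ (n - 2) - 1‖ + ‖a * z ^ (n - 2)‖ := norm_sub_le _ _
      _ ≤ K * q * η ^ 3 + K * η ^ 2 * q := by
          rw [norm_mul, norm_pow]
          exact add_le_add hE (mul_le_mul ha hpw hpw0 (by positivity))
      _ ≤ C₁ * η ^ 2 := by
          have h1 : K * q * η ^ 3 ≤ K * q * η ^ 2 :=
            mul_le_mul_of_nonneg_left hη3 (by positivity)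
          rw [hC₁]
          linarith
  have hr1n : |r ^ n - 1| ≤ C₁ * η ^ 2 := by
    have h1 := abs_norm_sub_norm_le (z ^ n) 1
    rw [norm_one, hrn] at h1
    exact h1.trans hz1
  have hr1 : |r - 1| ≤ C₁ * η ^ 2 := (zeroEst_one hr0 (by omega)).trans hr1n
  refine ⟨hr2, ?_, ?_⟩
  · refine hr1.trans (mul_le_mul_of_nonneg_right ?_ hη2')
    linarith
  -- third step
  set w : ℂ := starRingEnd ℂ z with hw
  have hwn : ‖w‖ = r := by rw [hw, Complex.norm_conj]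
  have hzw : z * w = ((r ^ 2 : ℝ) : ℂ) := by
    rw [hw, Complex.mul_conj, Complex.normSq_eq_norm_sq]
  have hid : z ^ (n - 2) - w ^ 2 = (z ^ n - 1) * w ^ 2 + z ^ (n - 2) * (1 - ((r ^ 2 : ℝ) : ℂ) ^ 2) := by
    have h1 : z ^ n = z ^ (n - 2) * z ^ 2 := by
      rw [← pow_add]
      congr 1
      omega
    rw [← hzw, h1]
    ring
  have hr4 : |1 - (r ^ 2) ^ 2| ≤ 15 * (C₁ * η ^ 2) := by
    have h1 : 1 - (r ^ 2) ^ 2 = -((r - 1) * ((1 + r) * (1 + r ^ 2))) := by ring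
    rw [h1, abs_neg, abs_mul]
    have h2 : 0 ≤ (1 + r) * (1 + r ^ 2) := by positivity
    have h3 : (1 + r) * (1 + r ^ 2) ≤ 15 := by nlinarith [mul_nonneg hr0 hr0]
    rw [abs_of_nonneg h2]
    calc |r - 1| * ((1 + r) * (1 + r ^ 2)) ≤ (C₁ * η ^ 2) * 15 :=
          mul_le_mul hr1 h3 h2 (by positivity)
      _ = 15 * (C₁ * η ^ 2) := by ring
  have hd : ‖z ^ (n - 2) - w ^ 2‖ ≤ C₂ * η ^ 2 := by
    rw [hid]
    have h1 : ‖(1 : ℂ) - ((r ^ 2 : ℝ) : ℂ) ^ 2‖ = |1 - (r ^ 2) ^ 2| := by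
      have h2 : (1 : ℂ) - ((r ^ 2 : ℝ) : ℂ) ^ 2 = ((1 - (r ^ 2) ^ 2 : ℝ) : ℂ) := by
        push_cast
        ring
      rw [h2, Complex.norm_real, Real.norm_eq_abs]
    have h3 : ‖w ^ 2‖ ≤ 4 := by
      rw [norm_pow, hwn]
      nlinarith
    calc ‖(z ^ n - 1) * w ^ 2 + z ^ (n - 2) * (1 - ((r ^ 2 : ℝ) : ℂ) ^ 2)‖
        ≤ ‖(z ^ n - 1) * w ^ 2‖ + ‖z ^ (n - 2) * (1 - ((r ^ 2 : ℝ) : ℂ) ^ 2)‖ := norm_add_le _ _
      _ = ‖z ^ n - 1‖ * ‖w ^ 2‖ + r ^ (n - 2) * |1 - (r ^ 2) ^ 2| := by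
          rw [norm_mul, norm_mul, h1, norm_pow z (n - 2)]
      _ ≤ (C₁ * η ^ 2) * 4 + q * (15 * (C₁ * η ^ 2)) :=
          add_le_add (mul_le_mul hz1 h3 (norm_nonneg _) (by positivity))
            (mul_le_mul hpw hr4 (abs_nonneg _) (by positivity))
      _ = C₂ * η ^ 2 := by
          rw [hC₂]
          ring
  set b : ℂ := a * w ^ 2 with hb
  have hbn : ‖b‖ ≤ 4 * K * η ^ 2 := by
    rw [hb, norm_mul, norm_pow, hwn]
    calc ‖a‖ * r ^ 2 ≤ (K * η ^ 2) * 4 := mul_le_mul ha (by nlinarith) (sq_nonneg r) (by positivity)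
      _ = 4 * K * η ^ 2 := by ring
  have hKη2 : K * η ^ 2 ≤ 1 / 8 := by
    have := mul_le_mul_of_nonneg_left hη2 hK
    linarith
  have hb2 : ‖b‖ ≤ 1 / 2 := by linarith
  have hbsq : ‖b‖ ^ 2 ≤ 16 * K ^ 2 * η ^ 3 := by
    calc ‖b‖ ^ 2 ≤ (4 * K * η ^ 2) ^ 2 := pow_le_pow_left₀ (norm_nonneg b) hbn 2
      _ = 16 * K ^ 2 * η ^ 4 := by ring
      _ ≤ 16 * K ^ 2 * η ^ 3 := mul_le_mul_of_nonneg_left hη4 (by positivity)
  have h1 : ‖z ^ n - (1 - b)‖ ≤ (K * q + K * C₂) * η ^ 3 := by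
    calc ‖z ^ n - (1 - b)‖ = ‖(z ^ n + a * z ^ (n - 2) - 1) - a * (z ^ (n - 2) - w ^ 2)‖ := by
          congr 1
          rw [hb]
          ring
      _ ≤ ‖z ^ n + a * z ^ (n - 2) - 1‖ + ‖a * (z ^ (n - 2) - w ^ 2)‖ := norm_sub_le _ _
      _ ≤ K * q * η ^ 3 + (K * η ^ 2) * (C₂ * η ^ 2) := by
          rw [norm_mul]
          exact add_le_add hE (mul_le_mul ha hd (norm_nonneg _) (by positivity))
      _ = K * q * η ^ 3 + K * C₂ * η ^ 4 := by ring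
      _ ≤ K * q * η ^ 3 + K * C₂ * η ^ 3 := by
          have := mul_le_mul_of_nonneg_left hη4 (mul_nonneg hK hC₂0)
          linarith
      _ = (K * q + K * C₂) * η ^ 3 := by ring
  have h2 : |r ^ n - ‖1 - b‖| ≤ (K * q + K * C₂) * η ^ 3 := by
    have h3 := abs_norm_sub_norm_le (z ^ n) (1 - b)
    rw [hrn] at h3
    exact h3.trans h1
  have h3 := zeroEst_three hb2
  have h4 := zeroEst_two hr0 hr2 n
  have h5 : (r - 1) ^ 2 ≤ C₁ ^ 2 * η ^ 3 := by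
    rw [← sq_abs]
    calc |r - 1| ^ 2 ≤ (C₁ * η ^ 2) ^ 2 := pow_le_pow_left₀ (abs_nonneg _) hr1 2
      _ = C₁ ^ 2 * η ^ 4 := by ring
      _ ≤ C₁ ^ 2 * η ^ 3 := mul_le_mul_of_nonneg_left hη4 (by positivity)
  have h6 : (n : ℝ) * 2 ^ n * (r - 1) ^ 2 ≤ C₅ * η ^ 3 := by
    calc (n : ℝ) * 2 ^ n * (r - 1) ^ 2 ≤ (n : ℝ) * 2 ^ n * (C₁ ^ 2 * η ^ 3) :=
          mul_le_mul_of_nonneg_left h5 (by positivity)
      _ = C₅ * η ^ 3 := by rw [hC₅]; ring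
  have h7 : |(n : ℝ) * (r - 1) + b.re| ≤ (C₄ + C₅) * η ^ 3 := by
    have h8 : (n : ℝ) * (r - 1) + b.re = (r ^ n - ‖1 - b‖) + (‖1 - b‖ - (1 - b.re)) -
        (r ^ n - 1 - n * (r - 1)) := by ring
    rw [h8]
    calc |(r ^ n - ‖1 - b‖) + (‖1 - b‖ - (1 - b.re)) - (r ^ n - 1 - n * (r - 1))|
        ≤ |(r ^ n - ‖1 - b‖) + (‖1 - b‖ - (1 - b.re))| + |r ^ n - 1 - n * (r - 1)| :=
          abs_sub _ _
      _ ≤ (|r ^ n - ‖1 - b‖| + |‖1 - b‖ - (1 - b.re)|) + |r ^ n - 1 - n * (r - 1)| := by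
          have := abs_add_le (r ^ n - ‖1 - b‖) (‖1 - b‖ - (1 - b.re))
          linarith
      _ ≤ ((K * q + K * C₂) * η ^ 3 + 16 * K ^ 2 * η ^ 3) + C₅ * η ^ 3 := by linarith
      _ = (C₄ + C₅) * η ^ 3 := by rw [hC₄]; ring
  have hn0 : (1 : ℝ) ≤ (n : ℝ) := by exact_mod_cast (by omega : 1 ≤ n)
  have h9 : r - 1 + 1 / (n : ℝ) * b.re = (1 / (n : ℝ)) * ((n : ℝ) * (r - 1) + b.re) := by
    field_simp
  rw [h9, abs_mul, abs_of_nonneg (by positivity : (0 : ℝ) ≤ 1 / (n : ℝ))]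
  have h10 : 1 / (n : ℝ) ≤ 1 := by
    rw [div_le_one (by linarith)]
    exact hn0
  calc 1 / (n : ℝ) * |(n : ℝ) * (r - 1) + b.re| ≤ 1 * ((C₄ + C₅) * η ^ 3) :=
        mul_le_mul h10 h7 (abs_nonneg _) (by norm_num)
    _ ≤ (1 + C₁ + C₄ + C₅) * η ^ 3 := by
        rw [one_mul]
        exact mul_le_mul_of_nonneg_right (by linarith) hη3'

end Pool.Agent.Lib.c113aaE
end
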