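import Pool.Agent.Lib.c113aaE.PolyExp
import Pool.Agent.Lib.c113aaE.ZeroEst

section

set_option autoImplicit false

namespace Pool.Agent.Lib.c113aaE

open Finset Polynomial Pool.MP_c113aa_an.BV

/-- From `poly_exp` (at `z = Z k`, where the product is zero), `norm_cA_le` and `zero_est` for
`n = N + 1`. -/
theorem zeros {N : ℕ} (hN : 3 ≤ N) : ∃ C η₀ : ℝ, 0 < C ∧ 0 < η₀ ∧ η₀ ≤ 1 ∧
    ∀ (Z : Fin (N + 1) → ℂ) (w : Fin N → ℂ) (η : ℝ), Nrm Z w η → η ≤ η₀ → ∀ k,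
    ‖Z k‖ ≤ 2 ∧ |‖Z k‖ - 1| ≤ C * η ^ 2 ∧
      |‖Z k‖ - 1 + 1 / ((N : ℝ) + 1) * (cA w * (starRingEnd ℂ (Z k)) ^ 2).re| ≤ C * η ^ 3 := by
  obtain ⟨C₀, hC₀, hexp⟩ := poly_exp hN
  have hNN : 0 ≤ ((N : ℝ) + 1) * N := by positivity
  obtain ⟨C, η₀, hC, hη₀, hη₁, hest⟩ := zero_est (N + 1) (by omega) (C₀ + ((N : ℝ) + 1) * N)
    (add_nonneg hC₀ hNN)
  refine ⟨C, η₀, hC, hη₀, hη₁, fun Z w η h hη k => ?_⟩
  have h0 := h.nonneg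
  have h1 := hexp Z w η h (hη.trans hη₁) (Z k)
  have h2 : ∏ k', (Z k - Z k') = 0 :=
    Finset.prod_eq_zero (Finset.mem_univ k) (sub_self _)
  rw [h2, zero_sub, norm_neg] at h1
  have h3 : ‖cA w‖ ≤ (C₀ + ((N : ℝ) + 1) * N) * η ^ 2 := by
    refine (norm_cA_le (by omega) w h.le).trans ?_
    have h4 : 0 ≤ C₀ * η ^ 2 := by positivity
    linarith
  have h5 : ‖Z k ^ (N + 1) + cA w * Z k ^ (N + 1 - 2) - 1‖ ≤
      (C₀ + ((N : ℝ) + 1) * N) * η ^ 3 * (1 + ‖Z k‖) ^ (N + 1) := by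
    have e : N + 1 - 2 = N - 1 := by omega
    rw [e]
    refine h1.trans ?_
    have h6 : 0 ≤ ((N : ℝ) + 1) * N * η ^ 3 * (1 + ‖Z k‖) ^ (N + 1) := by positivity
    linarith
  have h7 := hest (cA w) (Z k) η h0 hη h3 h5
  rw [Nat.cast_add, Nat.cast_one] at h7
  exact h7

end Pool.Agent.Lib.c113aaE
end
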